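import Mathlib

/-!
Smooth projective curves through their function fields, the spaces of regular `q`-differentials,
and Koszul cohomology.

A smooth projective irreducible curve `X` over an algebraically closed field `k` is given by its
function field `F`, presented as a finite separable extension of `k(t)` (`RatFunc k`); every such
curve has such a presentation, and every such extension is the function field of exactly one such
curve.  The points of `X` where `t` is finite are the maximal ideals of the integral closure `O0` of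
`k[t]` in `F`, the points over `t = ∞` are the maximal ideals of the integral closure `Oinf` of the
ring `Ainf` of rational functions regular at `t = ∞`.

A differential `f dt` is regular at the points with `t` finite iff `f` lies in the codifferent of
`O0` over `k[t]`, and at the points over `∞` iff `t ^ 2 * f` lies in the codifferent of `Oinf` over
`Ainf` (because `dt = - t ^ 2 d(1/t)`).  So `Om0` and `OmInf` are the two charts of the canonical
bundle `ω_X`, their powers are the two charts of `ω_X ^ q`, and `HK k F q = H⁰(X, ω_X ^ q)`.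
-/

set_option autoImplicit false

namespace Pool.Agent.GrC

open Polynomial TensorProduct

section Curve

/-- Rational functions regular at infinity: numerator of degree at most the degree of the
denominator. -/
noncomputable def Ainf (k : Type*) [Field k] : Subalgebra k (RatFunc k) where
  carrier := {f | f.intDegree ≤ 0}
  mul_mem' := by
    intro a b ha hb
    by_cases ha0 : a = 0
    · simp [ha0]
    · by_cases hb0 : b = 0
      · simp [hb0]
      · simp only [Set.mem_ofPred_eq] at ha hb ⊢
        rw [RatFunc.intDegree_mul ha0 hb0]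
        omega
  add_mem' := by
    intro a b ha hb
    simp only [Set.mem_ofPred_eq] at ha hb ⊢
    by_cases hb0 : b = 0
    · simpa [hb0] using ha
    · by_cases hab : a + b = 0
      · simp [hab]
      · exact (RatFunc.intDegree_add_le hb0 hab).trans (max_le ha hb)
  algebraMap_mem' := by
    intro r
    simp [RatFunc.algebraMap_eq_C]

variable (k F : Type*) [Field k] [Field F] [Algebra k F] [Algebra k[X] F] [Algebra (RatFunc k) F]
  [IsScalarTower k[X] (RatFunc k) F] [IsScalarTower k (RatFunc k) F] [IsScalarTower k k[X] F]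

/-- The functions regular at all points where `t` is finite. -/
noncomputable abbrev O0 : Subalgebra k[X] F := integralClosure k[X] F

/-- The functions regular at all points over `t = ∞`. -/
noncomputable abbrev Oinf : Subalgebra (Ainf k) F := integralClosure (Ainf k) F

/-- The codifferent of `O0` over `k[t]`: the `f` with `Tr (f * a) ∈ k[t]` for all `a ∈ O0`. -/
noncomputable def Om0 : Submodule (O0 k F) F :=
  Submodule.traceDual k[X] (RatFunc k) (1 : Submodule (O0 k F) F)

/-- The `f` with `Tr (t ^ 2 * f * a) ∈ Ainf` for all `a ∈ Oinf`. -/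
noncomputable def OmInf : Submodule (Oinf k F) F :=
  (Submodule.traceDual (Ainf k) (RatFunc k) (1 : Submodule (Oinf k F) F)).comap
    (LinearMap.mulLeft (Oinf k F) (algebraMap (RatFunc k) F (RatFunc.X ^ 2)))

/-- `H⁰(X, ω_X ^ q)`: the `f` for which `f (dt)^q` is a regular `q`-differential. -/
noncomputable def HK (q : ℕ) : Submodule k F :=
  (Om0 k F ^ q).restrictScalars k ⊓ (OmInf k F ^ q).restrictScalars k

/-- The genus `dim H⁰(X, ω_X)`. -/
noncomputable def genus : ℕ := Module.finrank k (HK k F 1)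

variable {k F} in
lemma HK_mul {p q : ℕ} {f g : F} (hf : f ∈ HK k F p) (hg : g ∈ HK k F q) :
    f * g ∈ HK k F (p + q) := by
  refine ⟨?_, ?_⟩
  · change f * g ∈ Om0 k F ^ (p + q)
    rw [pow_add]
    exact Submodule.mul_mem_mul hf.1 hg.1
  · change f * g ∈ OmInf k F ^ (p + q)
    rw [pow_add]
    exact Submodule.mul_mem_mul hf.2 hg.2

/-- The multiplication `H⁰(ω) × H⁰(ω^q) → H⁰(ω^(q+1))`. -/
noncomputable def mulHK (q : ℕ) : HK k F 1 →ₗ[k] HK k F q →ₗ[k] HK k F (q + 1) :=
  LinearMap.mk₂ k (fun f g => ⟨f.1 * g.1, by rw [add_comm]; exact HK_mul f.2 g.2⟩)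
    (fun f f' g => Subtype.ext (add_mul f.1 f'.1 g.1))
    (fun c f g => Subtype.ext (smul_mul_assoc c f.1 g.1))
    (fun f g g' => Subtype.ext (mul_add f.1 g.1 g'.1))
    (fun c f g => Subtype.ext (mul_smul_comm c f.1 g.1))

end Curve

section Koszul

variable {k V M N : Type*} [Field k] [AddCommGroup V] [Module k V] [AddCommGroup M] [Module k M]
  [AddCommGroup N] [Module k N]

variable (k V) in
/-- The exterior power `⋀^i V` (the exterior power of Mathlib as a bare type). -/
def ExtP (i : ℕ) : Type _ := ↥(⋀[k]^i V)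

noncomputable instance (i : ℕ) : AddCommGroup (ExtP k V i) :=
  inferInstanceAs (AddCommGroup ↥(⋀[k]^i V))

noncomputable instance (i : ℕ) : Module k (ExtP k V i) := inferInstanceAs (Module k ↥(⋀[k]^i V))

variable (k V) in
/-- `(v₁, …, vᵢ) ↦ v₁ ∧ ⋯ ∧ vᵢ`. -/
noncomputable def wedge (i : ℕ) : V [⋀^Fin i]→ₗ[k] ExtP k V i := exteriorPower.ιMulti k i

/-- `v ↦ ((v₁, …, vᵢ) ↦ (m ↦ (v₁ ∧ ⋯ ∧ vᵢ) ⊗ v m))`. -/
noncomputable def kosAux (μ : V →ₗ[k] M →ₗ[k] N) (i : ℕ) :
    V →ₗ[k] V [⋀^Fin i]→ₗ[k] (M →ₗ[k] ExtP k V i ⊗[k] N) where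
  toFun v := ((TensorProduct.mk k (ExtP k V i) N).compl₂ (μ v)).compAlternatingMap (wedge k V i)
  map_add' v w := by
    ext u m
    simp [TensorProduct.tmul_add]
  map_smul' c v := by
    ext u m
    simp

/-- The Koszul differential `⋀^(i+1) V ⊗ M → ⋀^i V ⊗ N`,
`(v₀ ∧ ⋯ ∧ vᵢ) ⊗ m ↦ ∑ (-1)^j (v₀ ∧ ⋯ v̂ⱼ ⋯ ∧ vᵢ) ⊗ vⱼ m` (see `kos_apply`). -/
noncomputable def kos (μ : V →ₗ[k] M →ₗ[k] N) (i : ℕ) :
    ExtP k V (i + 1) ⊗[k] M →ₗ[k] ExtP k V i ⊗[k] N :=
  TensorProduct.lift (exteriorPower.alternatingMapLinearEquiv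
    (AlternatingMap.alternatizeUncurryFin (kosAux μ i)) :
      ExtP k V (i + 1) →ₗ[k] M →ₗ[k] ExtP k V i ⊗[k] N)

lemma kos_apply (μ : V →ₗ[k] M →ₗ[k] N) (i : ℕ) (v : Fin (i + 1) → V) (m : M) :
    kos μ i (wedge k V (i + 1) v ⊗ₜ m) =
      ∑ j : Fin (i + 1), (-1 : ℤ) ^ (j : ℕ) • (wedge k V i (j.removeNth v) ⊗ₜ[k] μ (v j) m) := by
  rw [kos, TensorProduct.lift.tmul]
  have h := exteriorPower.alternatingMapLinearEquiv_apply_ιMulti
    (AlternatingMap.alternatizeUncurryFin (kosAux μ i)) v
  rw [AlternatingMap.alternatizeUncurryFin_apply] at h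
  have h2 := LinearMap.congr_fun h m
  refine h2.trans ?_
  rw [LinearMap.sum_apply]
  rfl

end Koszul

section Green

variable (k F : Type*) [Field k] [Field F] [Algebra k F] [Algebra k[X] F] [Algebra (RatFunc k) F]
  [IsScalarTower k[X] (RatFunc k) F] [IsScalarTower k (RatFunc k) F] [IsScalarTower k k[X] F]

/-- The Koszul cohomology group `K_{i+1, q+1}(X, ω_X)`: the homology in the middle of
`⋀^(i+2) H⁰(ω) ⊗ H⁰(ω^q) → ⋀^(i+1) H⁰(ω) ⊗ H⁰(ω^(q+1)) → ⋀^i H⁰(ω) ⊗ H⁰(ω^(q+2))`. -/
abbrev KoszulH (i q : ℕ) : Type _ :=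
  ↥(LinearMap.ker (kos (mulHK k F (q + 1)) i)) ⧸
    (LinearMap.range (kos (mulHK k F q) (i + 1))).submoduleOf
      (LinearMap.ker (kos (mulHK k F (q + 1)) i))

end Green

end Pool.Agent.GrC
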