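import Mathlib
import Pool.Agent.GrC.Defs

/-!
The projective line: rational functions, the functions regular at infinity, the residue functional
and the duality for `k(t)`.
-/

set_option autoImplicit false

namespace Pool.Agent.GrC

open Polynomial

variable (k : Type*) [Field k]

/-- Rational functions of degree at most `m`. -/
noncomputable def Kle (m : ℤ) : Submodule k (RatFunc k) where
  carrier := {f | f = 0 ∨ f.intDegree ≤ m}
  zero_mem' := Or.inl rfl
  add_mem' := by
    rintro f g (hf | hf) hg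
    · rw [hf, zero_add]; exact hg
    · rcases hg with hg | hg
      · rw [hg, add_zero]; exact Or.inr hf
      · by_cases hg0 : g = 0
        · rw [hg0, add_zero]; exact Or.inr hf
        · by_cases hfg : f + g = 0
          · exact Or.inl hfg
          · exact Or.inr ((RatFunc.intDegree_add_le hg0 hfg).trans (max_le hf hg))
  smul_mem' := by
    rintro c f (hf | hf)
    · rw [hf, smul_zero]; exact Or.inl rfl
    · by_cases hc : c = 0
      · rw [hc, zero_smul]; exact Or.inl rfl
      · by_cases hf0 : f = 0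
        · rw [hf0, smul_zero]; exact Or.inl rfl
        · right
          rw [RatFunc.smul_eq_C_mul, RatFunc.intDegree_mul _ hf0, RatFunc.intDegree_C, zero_add]
          · exact hf
          · simpa using hc

variable {k}

lemma mem_Ainf {f : RatFunc k} : f ∈ Ainf k ↔ f.intDegree ≤ 0 := Iff.rfl

lemma mem_Kle {m : ℤ} {f : RatFunc k} : f ∈ Kle k m ↔ f = 0 ∨ f.intDegree ≤ m := Iff.rfl

lemma mem_Ainf_iff {f : RatFunc k} : f ∈ Ainf k ↔ f ∈ Kle k 0 := by
  rw [mem_Ainf, mem_Kle]
  constructor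
  · exact Or.inr
  · rintro (h | h)
    · simp [h]
    · exact h

lemma Kle_mono {m n : ℤ} (h : m ≤ n) {f : RatFunc k} (hf : f ∈ Kle k m) : f ∈ Kle k n := by
  rcases hf with hf | hf
  · exact Or.inl hf
  · exact Or.inr (hf.trans h)

lemma Kle_mul {m n : ℤ} {f g : RatFunc k} (hf : f ∈ Kle k m) (hg : g ∈ Kle k n) :
    f * g ∈ Kle k (m + n) := by
  rcases hf with hf | hf
  · rw [hf, zero_mul]; exact Or.inl rfl
  · rcases hg with hg | hg
    · rw [hg, mul_zero]; exact Or.inl rfl
    · by_cases hf0 : f = 0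
      · rw [hf0, zero_mul]; exact Or.inl rfl
      · by_cases hg0 : g = 0
        · rw [hg0, mul_zero]; exact Or.inl rfl
        · right
          rw [RatFunc.intDegree_mul hf0 hg0]
          omega

lemma intDegree_zpow (d : ℤ) : (RatFunc.X ^ d : RatFunc k).intDegree = d := by
  have hnat : ∀ n : ℕ, (RatFunc.X ^ n : RatFunc k).intDegree = n := by
    intro n
    induction n with
    | zero => simp
    | succ n ih =>
      rw [pow_succ, RatFunc.intDegree_mul (pow_ne_zero _ RatFunc.X_ne_zero) RatFunc.X_ne_zero, ih,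
        RatFunc.intDegree_X]
      push_cast; ring
  obtain ⟨n, rfl | rfl⟩ := d.eq_nat_or_neg
  · rw [zpow_natCast, hnat]
  · rw [zpow_neg, zpow_natCast, RatFunc.intDegree_inv, hnat]

lemma intDegree_quot {p q : k[X]} (hp : p ≠ 0) (hq : q ≠ 0) :
    (algebraMap k[X] (RatFunc k) p / algebraMap k[X] (RatFunc k) q).intDegree
      = (p.natDegree : ℤ) - q.natDegree := by
  have hp' : algebraMap k[X] (RatFunc k) p ≠ 0 := by simpa using hp
  have hq' : algebraMap k[X] (RatFunc k) q ≠ 0 := by simpa using hq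
  rw [RatFunc.intDegree_div hp' hq', RatFunc.intDegree_polynomial, RatFunc.intDegree_polynomial]

/-- Polynomial part. -/
lemma exists_poly (f : RatFunc k) : ∃ p : k[X], f - algebraMap k[X] (RatFunc k) p ∈ Kle k (-1) := by
  set q := f.denom with hq
  have hqm : q.Monic := RatFunc.monic_denom f
  obtain ⟨n, hn⟩ : ∃ n, n = f.num := ⟨_, rfl⟩
  refine ⟨n /ₘ q, ?_⟩
  have hq' : algebraMap k[X] (RatFunc k) q ≠ 0 := by simpa using hqm.ne_zero
  have h1 : f = algebraMap k[X] (RatFunc k) n / algebraMap k[X] (RatFunc k) q := by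
    rw [hn]; exact (RatFunc.num_div_denom f).symm
  have h2 : algebraMap k[X] (RatFunc k) n = algebraMap k[X] (RatFunc k) (n %ₘ q)
      + algebraMap k[X] (RatFunc k) q * algebraMap k[X] (RatFunc k) (n /ₘ q) := by
    rw [← map_mul, ← map_add, Polynomial.modByMonic_add_div n q]
  have h3 : f - algebraMap k[X] (RatFunc k) (n /ₘ q)
      = algebraMap k[X] (RatFunc k) (n %ₘ q) / algebraMap k[X] (RatFunc k) q := by
    rw [eq_div_iff hq', sub_mul]
    nth_rewrite 1 [h1]
    rw [div_mul_cancel₀ _ hq', h2]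
    ring
  rw [h3]
  by_cases hr : n %ₘ q = 0
  · left; rw [hr]; simp
  · right
    rw [intDegree_quot hr hqm.ne_zero]
    have hq1 : q ≠ 1 := by
      intro h
      rw [h] at hr
      exact hr (Polynomial.modByMonic_one _)
    have := Polynomial.natDegree_modByMonic_lt n hqm hq1
    omega

/-- Leading coefficient. -/
lemma exists_lead (d : ℤ) (f : RatFunc k) (hf : f ∈ Kle k d) :
    ∃ c : k, f - c • RatFunc.X ^ d ∈ Kle k (d - 1) := by
  by_cases hf1 : f ∈ Kle k (d - 1)
  · exact ⟨0, by simpa using hf1⟩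
  · have hf0 : f ≠ 0 := fun h => hf1 (Or.inl h)
    have hdeg : f.intDegree = d := by
      rcases hf with h | h
      · exact absurd h hf0
      · by_contra hne
        exact hf1 (Or.inr (by omega))
    set g := f * RatFunc.X ^ (-d) with hg
    have hX : (RatFunc.X ^ (-d) : RatFunc k) ≠ 0 := zpow_ne_zero _ RatFunc.X_ne_zero
    have hgd : g.intDegree = 0 := by
      rw [hg, RatFunc.intDegree_mul hf0 hX, intDegree_zpow, hdeg]; ring
    have hg0 : g ≠ 0 := mul_ne_zero hf0 hX
    set p := g.num with hp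
    set q := g.denom with hq
    have hp0 : p ≠ 0 := RatFunc.num_ne_zero hg0
    have hqm : q.Monic := RatFunc.monic_denom g
    have h1 : algebraMap k[X] (RatFunc k) p / algebraMap k[X] (RatFunc k) q = g :=
      RatFunc.num_div_denom g
    have hpq : p.natDegree = q.natDegree := by
      have := intDegree_quot hp0 hqm.ne_zero
      rw [h1, hgd] at this
      omega
    have hkey : g - p.leadingCoeff • (1 : RatFunc k) ∈ Kle k (-1) := by
      have hq' : algebraMap k[X] (RatFunc k) q ≠ 0 := by simpa using hqm.ne_zero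
      have h2 : g - p.leadingCoeff • (1 : RatFunc k)
          = algebraMap k[X] (RatFunc k) (p - Polynomial.C p.leadingCoeff * q)
            / algebraMap k[X] (RatFunc k) q := by
        rw [map_sub, map_mul, ← h1, RatFunc.smul_eq_C_mul, RatFunc.algebraMap_C]
        field_simp
      rw [h2]
      by_cases hr : p - Polynomial.C p.leadingCoeff * q = 0
      · left; rw [hr]; simp
      · right
        rw [intDegree_quot hr hqm.ne_zero]
        have hlt : (p - Polynomial.C p.leadingCoeff * q).degree < p.degree := by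
          apply Polynomial.degree_sub_lt_left
          · rw [Polynomial.degree_C_mul (by simpa using hp0)]
            rw [Polynomial.degree_eq_natDegree hp0, Polynomial.degree_eq_natDegree hqm.ne_zero, hpq]
          · exact hp0
          · rw [Polynomial.leadingCoeff_mul, Polynomial.leadingCoeff_C, hqm.leadingCoeff, mul_one]
        have := Polynomial.natDegree_lt_natDegree hr hlt
        omega
    refine ⟨p.leadingCoeff, ?_⟩
    have h3 : f - p.leadingCoeff • RatFunc.X ^ d
        = (g - p.leadingCoeff • (1 : RatFunc k)) * RatFunc.X ^ d := by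
      rw [sub_mul, smul_mul_assoc, one_mul, hg, mul_assoc, ← zpow_add₀ RatFunc.X_ne_zero]
      simp
    rw [h3]
    have h4 : (RatFunc.X ^ d : RatFunc k) ∈ Kle k d := Or.inr (intDegree_zpow d).le
    have := Kle_mul hkey h4
    rwa [show (-1 : ℤ) + d = d - 1 by ring] at this

/-- The leading coefficient is nonzero. -/
lemma exists_lead_ne {f : RatFunc k} (hf : f ≠ 0) :
    ∃ c : k, c ≠ 0 ∧ f - c • RatFunc.X ^ f.intDegree ∈ Kle k (f.intDegree - 1) := by
  obtain ⟨c, hc⟩ := exists_lead f.intDegree f (Or.inr le_rfl)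
  refine ⟨c, ?_, hc⟩
  rintro rfl
  rw [zero_smul, sub_zero] at hc
  rcases hc with h | h
  · exact hf h
  · omega

/-- A residue functional. -/
structure IsRes (r : RatFunc k →ₗ[k] k) : Prop where
  poly : ∀ p : k[X], r (algebraMap k[X] (RatFunc k) p) = 0
  le : ∀ f ∈ Kle k (-2), r f = 0
  inv : r (RatFunc.X ^ (-1 : ℤ)) = 1

lemma poly_of_Kle {p : k[X]} {m : ℤ} (hm : m < 0)
    (h : algebraMap k[X] (RatFunc k) p ∈ Kle k m) : p = 0 := by
  rcases h with h | h
  · simpa using h
  · rw [RatFunc.intDegree_polynomial] at h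
    omega

lemma exists_res : ∃ r : RatFunc k →ₗ[k] k, IsRes r := by
  set N : Submodule k (RatFunc k) :=
    LinearMap.range ((Algebra.linearMap k[X] (RatFunc k)).restrictScalars k) ⊔ Kle k (-2) with hN
  have hX : (RatFunc.X ^ (-1 : ℤ) : RatFunc k) ∉ N := by
    intro h
    obtain ⟨p', hp', f, hf, hpf⟩ := Submodule.mem_sup.mp h
    obtain ⟨p, rfl⟩ := hp'
    have hp : (((Algebra.linearMap k[X] (RatFunc k)).restrictScalars k) p)
        = algebraMap k[X] (RatFunc k) p := rfl
    rw [hp] at hpf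
    have h1 : algebraMap k[X] (RatFunc k) p ∈ Kle k (-1) := by
      have : algebraMap k[X] (RatFunc k) p = RatFunc.X ^ (-1 : ℤ) - f := by rw [← hpf]; ring
      rw [this]
      exact (Kle k (-1)).sub_mem (Or.inr (intDegree_zpow (-1)).le) (Kle_mono (by norm_num) hf)
    have h2 := poly_of_Kle (by norm_num) h1
    rw [h2, map_zero, zero_add] at hpf
    rw [hpf] at hf
    rcases hf with hf | hf
    · exact zpow_ne_zero _ RatFunc.X_ne_zero hf
    · rw [intDegree_zpow] at hf
      omega
  obtain ⟨f, hf0, hf⟩ := Submodule.exists_le_ker_of_notMem hX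
  refine ⟨(f (RatFunc.X ^ (-1 : ℤ)))⁻¹ • f, ⟨fun p => ?_, fun g hg => ?_, ?_⟩⟩
  · have : f (algebraMap k[X] (RatFunc k) p) = 0 :=
      hf (Submodule.mem_sup_left ⟨p, rfl⟩)
    rw [LinearMap.smul_apply, this, smul_zero]
  · have : f g = 0 := hf (Submodule.mem_sup_right hg)
    rw [LinearMap.smul_apply, this, smul_zero]
  · rw [LinearMap.smul_apply, smul_eq_mul, inv_mul_cancel₀ hf0]

variable {r : RatFunc k →ₗ[k] k}

/-- The residue of a function of degree `-1` is not zero. -/
lemma res_lead (hr : IsRes r) {f : RatFunc k} (hf : f ≠ 0) (hd : f.intDegree = -1) : r f ≠ 0 := by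
  obtain ⟨c, hc, h⟩ := exists_lead_ne hf
  rw [hd, show (-1 : ℤ) - 1 = -2 by norm_num] at h
  have h1 := hr.le _ h
  rw [map_sub, map_smul, hr.inv, smul_eq_mul, mul_one, sub_eq_zero] at h1
  rw [h1]; exact hc

lemma poly_of_res (hr : IsRes r) {g : RatFunc k} (h : ∀ j : ℕ, r (RatFunc.X ^ j * g) = 0) :
    ∃ p : k[X], g = algebraMap k[X] (RatFunc k) p := by
  obtain ⟨p, hp⟩ := exists_poly g
  refine ⟨p, ?_⟩
  by_contra hne
  set g₁ := g - algebraMap k[X] (RatFunc k) p with hg₁
  have hg₁0 : g₁ ≠ 0 := sub_ne_zero.mpr hne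
  have hdeg : g₁.intDegree ≤ -1 := hp.resolve_left hg₁0
  obtain ⟨j, hj⟩ : ∃ j : ℕ, (j : ℤ) = -1 - g₁.intDegree := ⟨(-1 - g₁.intDegree).toNat, by omega⟩
  have hXj : (RatFunc.X ^ j : RatFunc k) ≠ 0 := pow_ne_zero _ RatFunc.X_ne_zero
  have h1 : (RatFunc.X ^ j * g₁).intDegree = -1 := by
    rw [RatFunc.intDegree_mul hXj hg₁0, ← zpow_natCast, intDegree_zpow, hj]; ring
  apply res_lead hr (mul_ne_zero hXj hg₁0) h1
  have h2 : RatFunc.X ^ j * g₁ = RatFunc.X ^ j * g
      - algebraMap k[X] (RatFunc k) (Polynomial.X ^ j * p) := by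
    rw [hg₁, map_mul, map_pow, RatFunc.algebraMap_X]; ring
  rw [h2, map_sub, h j, hr.poly, sub_zero]

lemma Kle_of_res (hr : IsRes r) {g : RatFunc k} (h : ∀ a ∈ Ainf k, r (a * g) = 0) :
    g ∈ Kle k (-2) := by
  by_contra hne
  have hg0 : g ≠ 0 := fun h => hne (Or.inl h)
  have hd : -1 ≤ g.intDegree := by
    by_contra hlt
    exact hne (Or.inr (by omega))
  have hX : (RatFunc.X ^ (-1 - g.intDegree) : RatFunc k) ≠ 0 := zpow_ne_zero _ RatFunc.X_ne_zero
  apply res_lead hr (mul_ne_zero hX hg0)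
  · rw [RatFunc.intDegree_mul hX hg0, intDegree_zpow]; ring
  · apply h
    rw [mem_Ainf, intDegree_zpow]
    omega

/-- Duality for `k(t)`. -/
lemma dual_aux (hr : IsRes r) : ∀ (N : ℕ) (θ : RatFunc k →ₗ[k] k),
    (∀ p : k[X], θ (algebraMap k[X] (RatFunc k) p) = 0) →
    (∀ f ∈ Kle k (-(N : ℤ) - 1), θ f = 0) → ∃ σ, ∀ c, θ c = r (c * σ) := by
  intro N
  induction N with
  | zero =>
    intro θ h1 h2
    refine ⟨0, fun c => ?_⟩
    obtain ⟨p, hp⟩ := exists_poly c
    have h3 := h2 _ (by simpa using hp)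
    rw [map_sub, h1, sub_zero] at h3
    rw [h3, mul_zero, map_zero]
  | succ N ih =>
    intro θ h1 h2
    set s := θ (RatFunc.X ^ (-(N : ℤ) - 1)) with hs
    have hh1 : ∀ p : k[X], (θ - s • r.comp (LinearMap.mulRight k (RatFunc.X ^ N)))
        (algebraMap k[X] (RatFunc k) p) = 0 := by
      intro p
      simp only [LinearMap.sub_apply, LinearMap.smul_apply, LinearMap.comp_apply,
        LinearMap.mulRight_apply]
      have : algebraMap k[X] (RatFunc k) p * RatFunc.X ^ N
          = algebraMap k[X] (RatFunc k) (p * Polynomial.X ^ N) := by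
        rw [map_mul, map_pow, RatFunc.algebraMap_X]
      rw [h1, this, hr.poly, smul_zero, sub_zero]
    have hh2 : ∀ f ∈ Kle k (-(N : ℤ) - 1),
        (θ - s • r.comp (LinearMap.mulRight k (RatFunc.X ^ N))) f = 0 := by
      intro f hf
      obtain ⟨c, hc⟩ := exists_lead _ f hf
      simp only [LinearMap.sub_apply, LinearMap.smul_apply, LinearMap.comp_apply,
        LinearMap.mulRight_apply]
      have hXN : (RatFunc.X ^ N : RatFunc k) ∈ Kle k N := by
        right; rw [← zpow_natCast, intDegree_zpow]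
      have h3 : θ (f - c • RatFunc.X ^ (-(N : ℤ) - 1)) = 0 :=
        h2 _ (by push_cast; rwa [show -((N : ℤ) + 1) - 1 = -(N : ℤ) - 1 - 1 by ring])
      have h4 : r ((f - c • RatFunc.X ^ (-(N : ℤ) - 1)) * RatFunc.X ^ N) = 0 := by
        apply hr.le
        have := Kle_mul hc hXN
        rwa [show -(N : ℤ) - 1 - 1 + N = -2 by ring] at this
      have h5 : (RatFunc.X ^ (-(N : ℤ) - 1) : RatFunc k) * RatFunc.X ^ N
          = RatFunc.X ^ (-1 : ℤ) := by
        rw [← zpow_natCast, ← zpow_add₀ RatFunc.X_ne_zero]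
        congr 1
        ring
      rw [sub_mul, smul_mul_assoc, h5, map_sub, map_smul, hr.inv] at h4
      rw [map_sub, map_smul, ← hs] at h3
      simp only [smul_eq_mul, mul_one] at h3 h4 ⊢
      linear_combination h3 - s * h4
    obtain ⟨σ, hσ⟩ := ih _ hh1 hh2
    refine ⟨σ + s • RatFunc.X ^ N, fun c => ?_⟩
    have h3 := hσ c
    simp only [LinearMap.sub_apply, LinearMap.smul_apply, LinearMap.comp_apply,
      LinearMap.mulRight_apply] at h3
    rw [mul_add, map_add, ← h3, mul_smul_comm, map_smul]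
    ring

theorem dual_P1 (hr : IsRes r) (θ : RatFunc k →ₗ[k] k) {a b : RatFunc k} (ha : a ≠ 0) (hb : b ≠ 0)
    (h1 : ∀ p : k[X], θ (algebraMap k[X] (RatFunc k) p * a) = 0)
    (h2 : ∀ f ∈ Ainf k, θ (f * b) = 0) : ∃ σ, ∀ c, θ c = r (c * σ) := by
  obtain ⟨N, hN⟩ : ∃ N : ℕ, -(N : ℤ) - 1 ≤ (a⁻¹ * b).intDegree :=
    ⟨(-(a⁻¹ * b).intDegree).toNat, by omega⟩
  have hh : ∀ f ∈ Kle k (-(N : ℤ) - 1), (θ.comp (LinearMap.mulRight k a)) f = 0 := by
    intro f hf
    simp only [LinearMap.comp_apply, LinearMap.mulRight_apply]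
    have hab : a⁻¹ * b ≠ 0 := mul_ne_zero (inv_ne_zero ha) hb
    have h3 : f * (a⁻¹ * b)⁻¹ ∈ Ainf k := by
      rw [mem_Ainf_iff]
      have h4 : (a⁻¹ * b)⁻¹ ∈ Kle k (-(a⁻¹ * b).intDegree) := by
        right; rw [RatFunc.intDegree_inv]
      exact Kle_mono (by omega) (Kle_mul hf h4)
    have h5 : f * a = f * (a⁻¹ * b)⁻¹ * b := by
      field_simp
    rw [h5]
    exact h2 _ h3
  obtain ⟨σ, hσ⟩ := dual_aux hr N (θ.comp (LinearMap.mulRight k a)) (fun p => h1 p) hh
  refine ⟨a⁻¹ * σ, fun c => ?_⟩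
  have h3 := hσ (c * a⁻¹)
  simp only [LinearMap.comp_apply, LinearMap.mulRight_apply] at h3
  rw [mul_assoc, inv_mul_cancel₀ ha, mul_one] at h3
  rw [h3, mul_assoc]

lemma eq_zero_of_res (hr : IsRes r) {σ : RatFunc k} (h : ∀ c, r (c * σ) = 0) : σ = 0 := by
  by_contra hne
  have h1 := h (RatFunc.X ^ (-1 : ℤ) * σ⁻¹)
  rw [mul_assoc, inv_mul_cancel₀ hne, mul_one, hr.inv] at h1
  exact one_ne_zero h1

end Pool.Agent.GrC
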