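import Mathlib
import Pool.Agent.GrC.P1

/-!
The ring of rational functions regular at infinity is a discrete valuation ring.
-/

set_option autoImplicit false

namespace Pool.Agent.GrC

variable {k : Type*} [Field k]

lemma isUnit_Ainf {f : Ainf k} (h0 : (f : RatFunc k) ≠ 0) (h : (f : RatFunc k).intDegree = 0) :
    IsUnit f := by
  have h1 : ((f : RatFunc k)⁻¹) ∈ Ainf k := by
    rw [mem_Ainf, RatFunc.intDegree_inv, h]; simp
  rw [isUnit_iff_exists_inv]
  exact ⟨⟨_, h1⟩, Subtype.ext (mul_inv_cancel₀ h0)⟩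

lemma intDegree_of_isUnit {f : Ainf k} (h : IsUnit f) : (f : RatFunc k).intDegree = 0 := by
  obtain ⟨g, hg⟩ := isUnit_iff_exists_inv.mp h
  have h1 : (f : RatFunc k) * g = 1 := congrArg Subtype.val hg
  have hf0 : (f : RatFunc k) ≠ 0 := fun h => by rw [h, zero_mul] at h1; exact zero_ne_one h1
  have hg0 : (g : RatFunc k) ≠ 0 := fun h => by rw [h, mul_zero] at h1; exact zero_ne_one h1
  have h2 := RatFunc.intDegree_mul hf0 hg0
  rw [h1, RatFunc.intDegree_one] at h2
  have hf := mem_Ainf.mp f.2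
  have hg := mem_Ainf.mp g.2
  omega

/-- The uniformizer. -/
noncomputable def unif (k : Type*) [Field k] : Ainf k :=
  ⟨RatFunc.X⁻¹, by rw [mem_Ainf, RatFunc.intDegree_inv, RatFunc.intDegree_X]; norm_num⟩

lemma intDegree_unif_pow (n : ℕ) : ((unif k ^ n : Ainf k) : RatFunc k).intDegree = -n := by
  have : ((unif k ^ n : Ainf k) : RatFunc k) = RatFunc.X ^ (-(n : ℤ)) := by
    rw [SubmonoidClass.coe_pow, unif, inv_pow, zpow_neg, zpow_natCast]
  rw [this, intDegree_zpow]

instance : IsDiscreteValuationRing (Ainf k) := by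
  apply IsDiscreteValuationRing.ofHasUnitMulPowIrreducibleFactorization
  refine ⟨unif k, ⟨?_, ?_⟩, ?_⟩
  · intro h
    have h1 := intDegree_of_isUnit h
    have h2 := intDegree_unif_pow (k := k) 1
    rw [pow_one] at h2
    rw [h2] at h1
    norm_num at h1
  · intro a b hab
    have h1 : (unif k : RatFunc k) = a * b := congrArg Subtype.val hab
    have hu0 : (unif k : RatFunc k) ≠ 0 := inv_ne_zero RatFunc.X_ne_zero
    have ha0 : (a : RatFunc k) ≠ 0 := fun h => hu0 (by rw [h1, h, zero_mul])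
    have hb0 : (b : RatFunc k) ≠ 0 := fun h => hu0 (by rw [h1, h, mul_zero])
    have h2 := RatFunc.intDegree_mul ha0 hb0
    rw [← h1] at h2
    have h3 := intDegree_unif_pow (k := k) 1
    rw [pow_one] at h3
    rw [h3] at h2
    have ha := mem_Ainf.mp a.2
    have hb := mem_Ainf.mp b.2
    by_cases ha1 : (a : RatFunc k).intDegree = 0
    · exact Or.inl (isUnit_Ainf ha0 ha1)
    · exact Or.inr (isUnit_Ainf hb0 (by push_cast at h2; omega))
  · intro x hx
    have hx0 : (x : RatFunc k) ≠ 0 := fun h => hx (Subtype.ext h)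
    have hxd := mem_Ainf.mp x.2
    obtain ⟨n, hn⟩ : ∃ n : ℕ, (n : ℤ) = -(x : RatFunc k).intDegree :=
      ⟨(-(x : RatFunc k).intDegree).toNat, by omega⟩
    refine ⟨n, ?_⟩
    have hun0 : ((unif k ^ n : Ainf k) : RatFunc k) ≠ 0 := by
      rw [SubmonoidClass.coe_pow]
      exact pow_ne_zero _ (inv_ne_zero RatFunc.X_ne_zero)
    have hq0 : (x : RatFunc k) / ((unif k ^ n : Ainf k) : RatFunc k) ≠ 0 := div_ne_zero hx0 hun0
    have hq : ((x : RatFunc k) / ((unif k ^ n : Ainf k) : RatFunc k)).intDegree = 0 := by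
      rw [RatFunc.intDegree_div hx0 hun0, intDegree_unif_pow]
      omega
    have hmem : (x : RatFunc k) / ((unif k ^ n : Ainf k) : RatFunc k) ∈ Ainf k := by
      rw [mem_Ainf, hq]
    obtain ⟨v, hv⟩ := isUnit_Ainf (f := ⟨_, hmem⟩) hq0 hq
    refine ⟨v, ?_⟩
    rw [hv]
    exact Subtype.ext (mul_div_cancel₀ _ hun0)

instance : IsFractionRing (Ainf k) (RatFunc k) := by
  apply IsFractionRing.of_field
  intro z
  by_cases hz : z ∈ Ainf k
  · exact ⟨⟨z, hz⟩, 1, by simp⟩
  · have hz' : z⁻¹ ∈ Ainf k := by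
      rw [mem_Ainf, RatFunc.intDegree_inv]
      rw [mem_Ainf] at hz
      omega
    refine ⟨1, ⟨z⁻¹, hz'⟩, ?_⟩
    have : algebraMap (Ainf k) (RatFunc k) ⟨z⁻¹, hz'⟩ = z⁻¹ := rfl
    rw [this]
    simp

end Pool.Agent.GrC
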