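import Mathlib

/-!
The rank of an alternating bilinear form is even (any characteristic).
-/

set_option autoImplicit false

namespace Pool.Agent.GrC

open Module

universe u v

theorem alt_rank_aux (k : Type u) [Field k] : ∀ (n : ℕ) (V : Type v) [AddCommGroup V] [Module k V]
    [FiniteDimensional k V] (B : V →ₗ[k] V →ₗ[k] k), (∀ x, B x x = 0) → finrank k V = n →
    ∃ r, finrank k V = finrank k (LinearMap.ker B) + 2 * r := by
  intro n
  induction n using Nat.strong_induction_on with
  | _ n ih =>
    intro V _ _ _ B hB hn
    have hsym : ∀ x y, B x y = - B y x := by
      intro x y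
      have h := hB (x + y)
      simp only [map_add, LinearMap.add_apply, hB, zero_add, add_zero] at h
      linear_combination h
    by_cases h0 : B = 0
    · refine ⟨0, ?_⟩
      rw [h0, LinearMap.ker_zero, finrank_top]
      simp
    · obtain ⟨u, hu⟩ : ∃ u, B u ≠ 0 := by
        by_contra h
        push Not at h
        exact h0 (LinearMap.ext h)
      obtain ⟨v, hv⟩ : ∃ v, B u v ≠ 0 := by
        by_contra h
        push Not at h
        exact hu (LinearMap.ext h)
      set c := B u v with hc
      let φ : V →ₗ[k] (k × k) := (B u).prod (B v)
      have hφ : Function.Surjective φ := by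
        rintro ⟨α, β⟩
        refine ⟨(α / c) • v - (β / c) • u, ?_⟩
        have e1 : φ v = (c, 0) := by
          simp only [φ, LinearMap.prod_apply, Function.prod_apply, hB, ← hc]
        have e2 : φ u = (0, -c) := by
          simp only [φ, LinearMap.prod_apply, Function.prod_apply, hB, hsym v u, ← hc]
        rw [map_sub, map_smul, map_smul, e1, e2, Prod.smul_mk, Prod.smul_mk, Prod.mk_sub_mk,
          smul_eq_mul, smul_eq_mul, smul_eq_mul, smul_eq_mul, div_mul_cancel₀ _ hv, mul_zero,
          mul_zero, sub_zero, mul_neg, div_mul_cancel₀ _ hv, sub_neg_eq_add, zero_add]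
      let W := LinearMap.ker φ
      have hW : finrank k V = finrank k W + 2 := by
        have h := LinearMap.finrank_range_add_finrank_ker φ
        rw [LinearMap.range_eq_top.mpr hφ, finrank_top] at h
        have h2 : finrank k (k × k) = 2 := by simp
        rw [h2] at h
        change 2 + finrank k W = _ at h
        omega
      have hmem : ∀ w : V, w ∈ W ↔ B u w = 0 ∧ B v w = 0 := by
        intro w
        simp only [W, LinearMap.mem_ker, φ, LinearMap.prod_apply, Function.prod_apply, Prod.mk_eq_zero]
      let BW : W →ₗ[k] W →ₗ[k] k := (B.domRestrict₁₂ W W)
      have hBW : ∀ x : W, BW x x = 0 := fun x => hB _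
      obtain ⟨r, hr⟩ := ih (finrank k W) (by omega) W BW hBW rfl
      -- the two kernels
      have hker : finrank k (LinearMap.ker BW) = finrank k (LinearMap.ker B) := by
        have e : (LinearMap.ker BW).map W.subtype = LinearMap.ker B := by
          ext x
          simp only [Submodule.mem_map, LinearMap.mem_ker, Submodule.subtype_apply]
          constructor
          · rintro ⟨w, hw, rfl⟩
            apply LinearMap.ext
            intro z
            -- decompose z
            obtain ⟨z', hz'⟩ : ∃ z' : V, z' = z - ((B u z / c) • v - (B v z / c) • u) := ⟨_, rfl⟩
            have hz'W : z' ∈ W := by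
              rw [hmem, hz']
              simp only [map_sub, map_smul, hB, smul_eq_mul, mul_zero, sub_zero, zero_sub]
              rw [hsym v u, ← hc]
              constructor <;> (field_simp; ring)
            have h1 : B w z' = 0 := by
              have := LinearMap.congr_fun hw ⟨z', hz'W⟩
              exact this
            have hw' := (hmem w).mp w.2
            have h2 : B (w : V) u = 0 := by rw [hsym, hw'.1, neg_zero]
            have h3 : B (w : V) v = 0 := by rw [hsym, hw'.2, neg_zero]
            have h4 : z = z' + ((B u z / c) • v - (B v z / c) • u) := by rw [hz']; abel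
            rw [h4, map_add, map_sub, map_smul, map_smul, h1, h2, h3]
            simp
          · intro hx
            have hxW : x ∈ W := by
              rw [hmem]
              constructor
              · rw [hsym, hx]; simp
              · rw [hsym, hx]; simp
            refine ⟨⟨x, hxW⟩, ?_, rfl⟩
            apply LinearMap.ext
            intro z
            have := LinearMap.congr_fun hx (z : V)
            exact this
        rw [← e]
        exact (LinearEquiv.finrank_eq (Submodule.equivMapOfInjective W.subtype
          W.injective_subtype _))
      exact ⟨r + 1, by rw [hW, hr, hker]; ring⟩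

/-- The rank of an alternating form is even. -/
theorem alt_range_even {k : Type u} [Field k] {V : Type v} [AddCommGroup V] [Module k V]
    [FiniteDimensional k V] (B : V →ₗ[k] V →ₗ[k] k) (hB : ∀ x, B x x = 0) :
    Even (finrank k V - finrank k (LinearMap.ker B)) := by
  obtain ⟨r, hr⟩ := alt_rank_aux k _ V B hB rfl
  exact ⟨r, by omega⟩

end Pool.Agent.GrC
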