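import Mathlib

/-!
The Koszul differential in characteristic two, in coordinates: for a family `e : ι → F` and a
function `z` on the finite subsets of `ι`, `dd e z T = ∑ j ∉ T, e j * z (T ∪ {j})`.
Decomposition with respect to two indices `a ≠ b`.
-/

set_option autoImplicit false

namespace Pool.Agent.GrC

open Finset

variable {F : Type*} [Field F] {ι : Type*} [DecidableEq ι]

/-- `∂ z T = ∑ j ∈ J \ T, e j * z (T ∪ {j})`. -/
def dJ (J : Finset ι) (e : ι → F) (z : Finset ι → F) (T : Finset ι) : F :=
  ∑ j ∈ J \ T, e j * z (insert j T)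

lemma dJ_add (J : Finset ι) (e : ι → F) (z w : Finset ι → F) (T : Finset ι) :
    dJ J e (fun S => z S + w S) T = dJ J e z T + dJ J e w T := by
  unfold dJ
  rw [← Finset.sum_add_distrib]
  exact Finset.sum_congr rfl (fun j _ => by ring)

lemma dJ_mul (J : Finset ι) (e : ι → F) (c : F) (z : Finset ι → F) (T : Finset ι) :
    dJ J e (fun S => c * z S) T = c * dJ J e z T := by
  unfold dJ
  rw [Finset.mul_sum]
  exact Finset.sum_congr rfl (fun j _ => by ring)

/-- `∂ ∂ = 0` in characteristic two. -/
lemma dJ_dJ [CharP F 2] (J : Finset ι) (e : ι → F) (z : Finset ι → F) (T : Finset ι) :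
    dJ J e (dJ J e z) T = 0 := by
  unfold dJ
  have h1 : ∑ j ∈ J \ T, e j * ∑ l ∈ J \ insert j T, e l * z (insert l (insert j T))
      = ∑ p ∈ ((J \ T) ×ˢ (J \ T)).filter (fun p => p.1 ≠ p.2),
        e p.1 * (e p.2 * z (insert p.2 (insert p.1 T))) := by
    rw [Finset.sum_filter, Finset.sum_product]
    refine Finset.sum_congr rfl (fun j hj => ?_)
    rw [Finset.mul_sum, ← Finset.sum_filter]
    refine Finset.sum_congr ?_ (fun l _ => rfl)
    ext l
    simp only [Finset.mem_sdiff, Finset.mem_insert, Finset.mem_filter, not_or]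
    constructor
    · rintro ⟨h1, h2, h3⟩
      exact ⟨⟨h1, h3⟩, fun h => h2 h.symm⟩
    · rintro ⟨⟨h1, h3⟩, h2⟩
      exact ⟨h1, fun h => h2 h.symm, h3⟩
  rw [h1]
  refine Finset.sum_involution (fun p _ => p.swap) ?_ ?_ ?_ ?_
  · rintro ⟨j, l⟩ _
    simp only [Prod.fst_swap, Prod.snd_swap]
    rw [insert_comm l j T]
    have : e l * (e j * z (insert j (insert l T))) = e j * (e l * z (insert j (insert l T))) := by
      ring
    rw [this]
    exact CharTwo.add_self_eq_zero _
  · rintro ⟨j, l⟩ h _ hc
    simp only [Finset.mem_filter, Finset.mem_product] at h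
    exact h.2 (Prod.ext_iff.mp hc).2
  · rintro ⟨j, l⟩ h
    simp only [Finset.mem_filter, Finset.mem_product, Prod.fst_swap, Prod.snd_swap] at h ⊢
    exact ⟨⟨h.1.2, h.1.1⟩, fun hc => h.2 hc.symm⟩
  · rintro ⟨j, l⟩ h
    rfl

section two

variable [Fintype ι] {a b : ι}

/-- The whole differential. -/
def dd (e : ι → F) (z : Finset ι → F) (T : Finset ι) : F := dJ univ e z T

/-- All indices but `a`, `b`. -/
def JJ (a b : ι) : Finset ι := (univ.erase a).erase b

lemma mem_JJ {i : ι} : i ∈ JJ a b ↔ i ≠ b ∧ i ≠ a := by simp [JJ]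

lemma a_notMem_JJ : a ∉ JJ a b := by simp [mem_JJ]

lemma b_notMem_JJ : b ∉ JJ a b := by simp [mem_JJ]

lemma a_notMem {T : Finset ι} (hT : T ⊆ JJ a b) : a ∉ T := fun h => a_notMem_JJ (hT h)

lemma b_notMem {T : Finset ι} (hT : T ⊆ JJ a b) : b ∉ T := fun h => b_notMem_JJ (hT h)

lemma dd_J (hab : a ≠ b) (e : ι → F) (z : Finset ι → F) {T : Finset ι} (hT : T ⊆ JJ a b) :
    dd e z T = dJ (JJ a b) e z T + (e a * z (insert a T) + e b * z (insert b T)) := by
  unfold dd dJ
  have ha := a_notMem hT
  have hb := b_notMem hT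
  have h1 : univ \ T = insert a (insert b (JJ a b \ T)) := by
    ext i
    simp only [mem_sdiff, mem_univ, true_and, mem_insert, mem_JJ]
    by_cases hia : i = a
    · subst hia; simp [ha]
    · by_cases hib : i = b
      · subst hib; simp [hb]
      · simp [hia, hib]
  rw [h1, sum_insert, sum_insert]
  · ring
  · simp [b_notMem_JJ]
  · simp [a_notMem_JJ, hab]

lemma dd_a (hab : a ≠ b) (e : ι → F) (z : Finset ι → F) {T : Finset ι} (hT : T ⊆ JJ a b) :
    dd e z (insert a T) = dJ (JJ a b) e (fun S => z (insert a S)) T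
      + e b * z (insert a (insert b T)) := by
  unfold dd dJ
  have ha := a_notMem hT
  have hb := b_notMem hT
  have h1 : univ \ insert a T = insert b (JJ a b \ T) := by
    ext i
    simp only [mem_sdiff, mem_univ, true_and, mem_insert, mem_JJ]
    by_cases hia : i = a
    · subst hia; simp [hab]
    · by_cases hib : i = b
      · subst hib; simp [hb, hab.symm]
      · simp [hia, hib]
  rw [h1, sum_insert (by simp [b_notMem_JJ]), add_comm, insert_comm b a T]
  congr 1
  refine sum_congr rfl (fun j _ => ?_)
  rw [insert_comm]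

lemma dd_b (hab : a ≠ b) (e : ι → F) (z : Finset ι → F) {T : Finset ι} (hT : T ⊆ JJ a b) :
    dd e z (insert b T) = dJ (JJ a b) e (fun S => z (insert b S)) T
      + e a * z (insert a (insert b T)) := by
  unfold dd dJ
  have ha := a_notMem hT
  have hb := b_notMem hT
  have h1 : univ \ insert b T = insert a (JJ a b \ T) := by
    ext i
    simp only [mem_sdiff, mem_univ, true_and, mem_insert, mem_JJ]
    by_cases hia : i = a
    · subst hia; simp [hab, ha]
    · by_cases hib : i = b
      · subst hib; simp [hab.symm]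
      · simp [hia, hib]
  rw [h1, sum_insert (by simp [a_notMem_JJ]), add_comm]
  congr 1
  refine sum_congr rfl (fun j _ => ?_)
  rw [insert_comm]

lemma dd_ab (hab : a ≠ b) (e : ι → F) (z : Finset ι → F) {T : Finset ι} (hT : T ⊆ JJ a b) :
    dd e z (insert a (insert b T)) =
      dJ (JJ a b) e (fun S => z (insert a (insert b S))) T := by
  unfold dd dJ
  have ha := a_notMem hT
  have hb := b_notMem hT
  have h1 : univ \ insert a (insert b T) = JJ a b \ T := by
    ext i
    simp only [mem_sdiff, mem_univ, true_and, mem_insert, mem_JJ]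
    by_cases hia : i = a
    · subst hia; simp
    · by_cases hib : i = b
      · subst hib; simp
      · simp [hia, hib]
  rw [h1]
  refine sum_congr rfl (fun j _ => ?_)
  rw [insert_comm j a, insert_comm j b]

/-- Every subset is of one of four types. -/
lemma four (S : Finset ι) : ∃ T, T ⊆ JJ a b ∧
    (S = T ∨ S = insert a T ∨ S = insert b T ∨ S = insert a (insert b T)) := by
  refine ⟨(S.erase a).erase b, ?_, ?_⟩
  · intro i hi
    rw [mem_erase, mem_erase] at hi
    exact mem_JJ.mpr ⟨hi.1, hi.2.1⟩
  · by_cases ha : a ∈ S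
    · by_cases hb : b ∈ S
      · by_cases hab : a = b
        · subst hab
          right; left
          ext i; by_cases h : i = a
          · subst h; simp [ha]
          · simp [h]
        · right; right; right
          rw [insert_erase (mem_erase.mpr ⟨fun h => hab h.symm, hb⟩), insert_erase ha]
      · right; left
        rw [erase_eq_of_notMem (fun h => hb (mem_of_mem_erase h)), insert_erase ha]
    · by_cases hb : b ∈ S
      · right; right; left
        rw [erase_eq_of_notMem ha, insert_erase hb]
      · left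
        rw [erase_eq_of_notMem ha, erase_eq_of_notMem hb]

lemma card_insert_a {T : Finset ι} (hT : T ⊆ JJ a b) : (insert a T).card = T.card + 1 :=
  card_insert_of_notMem (a_notMem hT)

lemma card_insert_b {T : Finset ι} (hT : T ⊆ JJ a b) : (insert b T).card = T.card + 1 :=
  card_insert_of_notMem (b_notMem hT)

lemma card_insert_ab (hab : a ≠ b) {T : Finset ι} (hT : T ⊆ JJ a b) :
    (insert a (insert b T)).card = T.card + 2 := by
  rw [card_insert_of_notMem, card_insert_of_notMem (b_notMem hT)]
  simp [hab, a_notMem hT]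

end two

end Pool.Agent.GrC
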