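import Mathlib
import Pool.Agent.GrC.Diff

/-!
Gluing a function on all subsets from its four components.
-/

set_option autoImplicit false

namespace Pool.Agent.GrC

open Finset

variable {F : Type*} [Field F] {ι : Type*} [DecidableEq ι] [Fintype ι] {a b : ι}

lemma dJ_congr {J : Finset ι} {e : ι → F} {z w : Finset ι → F} (h : ∀ S ⊆ J, z S = w S)
    {T : Finset ι} (hT : T ⊆ J) : dJ J e z T = dJ J e w T := by
  unfold dJ
  refine sum_congr rfl (fun j hj => ?_)
  rw [h _ (insert_subset (mem_sdiff.mp hj).1 hT)]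

/-- Glue four functions. -/
def glue (a b : ι) (f0 fa fb fab : Finset ι → F) (S : Finset ι) : F :=
  if a ∈ S then (if b ∈ S then fab ((S.erase a).erase b) else fa (S.erase a))
  else (if b ∈ S then fb (S.erase b) else f0 S)

variable {f0 fa fb fab : Finset ι → F}

lemma glue_J {T : Finset ι} (hT : T ⊆ JJ a b) : glue a b f0 fa fb fab T = f0 T := by
  simp [glue, a_notMem hT, b_notMem hT]

lemma glue_a (hab : a ≠ b) {T : Finset ι} (hT : T ⊆ JJ a b) :
    glue a b f0 fa fb fab (insert a T) = fa T := by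
  simp [glue, b_notMem hT, hab.symm, a_notMem hT]

lemma glue_b (hab : a ≠ b) {T : Finset ι} (hT : T ⊆ JJ a b) :
    glue a b f0 fa fb fab (insert b T) = fb T := by
  simp [glue, a_notMem hT, hab, b_notMem hT]

lemma glue_ab (hab : a ≠ b) {T : Finset ι} (hT : T ⊆ JJ a b) :
    glue a b f0 fa fb fab (insert a (insert b T)) = fab T := by
  have h1 : (insert a (insert b T)).erase a = insert b T := by
    rw [erase_insert]
    simp [hab, a_notMem hT]
  simp [glue, h1, b_notMem hT]

lemma dd_glue_J (hab : a ≠ b) (e : ι → F) {T : Finset ι} (hT : T ⊆ JJ a b) :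
    dd e (glue a b f0 fa fb fab) T = dJ (JJ a b) e f0 T + (e a * fa T + e b * fb T) := by
  rw [dd_J hab e _ hT, glue_a hab hT, glue_b hab hT, dJ_congr (fun S hS => glue_J hS) hT]

lemma dd_glue_a (hab : a ≠ b) (e : ι → F) {T : Finset ι} (hT : T ⊆ JJ a b) :
    dd e (glue a b f0 fa fb fab) (insert a T) = dJ (JJ a b) e fa T + e b * fab T := by
  rw [dd_a hab e _ hT, glue_ab hab hT, dJ_congr (fun S hS => glue_a hab hS) hT]

lemma dd_glue_b (hab : a ≠ b) (e : ι → F) {T : Finset ι} (hT : T ⊆ JJ a b) :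
    dd e (glue a b f0 fa fb fab) (insert b T) = dJ (JJ a b) e fb T + e a * fab T := by
  rw [dd_b hab e _ hT, glue_ab hab hT, dJ_congr (fun S hS => glue_b hab hS) hT]

lemma dd_glue_ab (hab : a ≠ b) (e : ι → F) {T : Finset ι} (hT : T ⊆ JJ a b) :
    dd e (glue a b f0 fa fb fab) (insert a (insert b T)) = dJ (JJ a b) e fab T := by
  rw [dd_ab hab e _ hT, dJ_congr (fun S hS => glue_ab hab hS) hT]

/-- A property of all subsets from the four types. -/
lemma forall_four {P : Finset ι → Prop} (h0 : ∀ T ⊆ JJ a b, P T)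
    (h1 : ∀ T ⊆ JJ a b, P (insert a T)) (h2 : ∀ T ⊆ JJ a b, P (insert b T))
    (h3 : ∀ T ⊆ JJ a b, P (insert a (insert b T))) (S : Finset ι) : P S := by
  obtain ⟨T, hT, h | h | h | h⟩ := four (a := a) (b := b) S
  · rw [h]; exact h0 T hT
  · rw [h]; exact h1 T hT
  · rw [h]; exact h2 T hT
  · rw [h]; exact h3 T hT

end Pool.Agent.GrC
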