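import Mathlib
import Pool.Agent.GrC.Glue
import Pool.Agent.GrC.Alt

/-!
Koszul cycles of degree `(s+1, 2)` in characteristic two, for a graded family with a regular
pencil and a perfect pairing modulo the pencil.
-/

set_option autoImplicit false

namespace Pool.Agent.GrC

open Finset Module

/-- A graded family `L` of subspaces of a field with a base point free pencil `x, y` and the
duality modulo the pencil. -/
structure Pencil (k : Type*) {F : Type*} [Field k] [Field F] [Algebra k F]
    (L : ℕ → Submodule k F) (x y : F) (ψ : F →ₗ[k] k) : Prop where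
  mul_mem : ∀ p q f g, f ∈ L p → g ∈ L q → f * g ∈ L (p + q)
  x_mem : x ∈ L 1
  y_mem : y ∈ L 1
  x_ne : x ≠ 0
  y_ne : y ≠ 0
  ex : ∀ q u v, u ∈ L (q + 1) → v ∈ L (q + 1) → x * u + y * v = 0 →
    ∃ w ∈ L q, u = y * w ∧ v = -(x * w)
  ker : ∀ s ∈ L 3, ψ s = 0 ↔ ∃ u ∈ L 2, ∃ v ∈ L 2, s = x * u + y * v
  left : ∀ u ∈ L 1, (∀ w ∈ L 2, ψ (u * w) = 0) → u ∈ Submodule.span k {x, y}
  right : ∀ w ∈ L 2, (∀ u ∈ L 1, ψ (u * w) = 0) → ∃ u ∈ L 1, ∃ v ∈ L 1, w = x * u + y * v

variable {k F : Type*} [Field k] [Field F] [Algebra k F] {ι : Type*} [DecidableEq ι] [Fintype ι]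

/-- Chains of degree `(i, q)`. -/
def Ch (L : ℕ → Submodule k F) (ι : Type*) [DecidableEq ι] [Fintype ι] (i q : ℕ) :
    Submodule k (Finset ι → F) where
  carrier := {z | (∀ S, z S ∈ L q) ∧ ∀ S, S.card ≠ i → z S = 0}
  zero_mem' := ⟨fun _ => (L q).zero_mem, fun _ _ => rfl⟩
  add_mem' := by
    rintro z w ⟨h1, h2⟩ ⟨h3, h4⟩
    exact ⟨fun S => (L q).add_mem (h1 S) (h3 S), fun S hS => by simp [h2 S hS, h4 S hS]⟩
  smul_mem' := by
    rintro c z ⟨h1, h2⟩
    exact ⟨fun S => (L q).smul_mem c (h1 S), fun S hS => by simp [h2 S hS]⟩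

lemma mem_Ch {L : ℕ → Submodule k F} {i q : ℕ} {z : Finset ι → F} :
    z ∈ Ch L ι i q ↔ (∀ S, z S ∈ L q) ∧ ∀ S, S.card ≠ i → z S = 0 := Iff.rfl

/-- The differential as a linear map. -/
def ddL (k : Type*) [Field k] [Algebra k F] (e : ι → F) : (Finset ι → F) →ₗ[k] (Finset ι → F) where
  toFun := dd e
  map_add' z w := by
    funext T
    exact dJ_add univ e z w T
  map_smul' c z := by
    funext T
    simp only [dd, dJ, Pi.smul_apply, RingHom.id_apply, smul_sum]
    exact sum_congr rfl (fun j _ => by rw [mul_smul_comm])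

@[simp] lemma ddL_apply (e : ι → F) (z : Finset ι → F) (T : Finset ι) :
    ddL k e z T = dd e z T := rfl

lemma dd_mem_Ch {L : ℕ → Submodule k F} {x y : F} {ψ : F →ₗ[k] k} (hP : Pencil k L x y ψ)
    {e : ι → F} (he : ∀ i, e i ∈ L 1) {i q : ℕ} {z : Finset ι → F} (hz : z ∈ Ch L ι (i + 1) q) :
    dd e z ∈ Ch L ι i (1 + q) := by
  refine ⟨fun T => ?_, fun T hT => ?_⟩
  · exact Submodule.sum_mem _ (fun j _ => hP.mul_mem 1 q _ _ (he j) (hz.1 _))
  · refine sum_eq_zero (fun j hj => ?_)
    rw [hz.2 (insert j T), mul_zero]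
    rw [card_insert_of_notMem (mem_sdiff.mp hj).2]
    omega

lemma dJ_mem {L : ℕ → Submodule k F} {x y : F} {ψ : F →ₗ[k] k} (hP : Pencil k L x y ψ)
    {e : ι → F} (he : ∀ i, e i ∈ L 1) {q : ℕ} {J : Finset ι} {z : Finset ι → F}
    (hz : ∀ S, z S ∈ L q) (T : Finset ι) : dJ J e z T ∈ L (1 + q) :=
  Submodule.sum_mem _ (fun j _ => hP.mul_mem 1 q _ _ (he j) (hz _))

/-- Cycles of degree `(i, q)`. -/
def Zc (L : ℕ → Submodule k F) (e : ι → F) (i q : ℕ) : Submodule k (Finset ι → F) :=
  Ch L ι i q ⊓ LinearMap.ker (ddL k e)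

/-- Boundaries of degree `(i, q+1)`. -/
def Bc (L : ℕ → Submodule k F) (e : ι → F) (i q : ℕ) : Submodule k (Finset ι → F) :=
  (Ch L ι (i + 1) q).map (ddL k e)

section

variable {L : ℕ → Submodule k F} {x y : F} {ψ : F →ₗ[k] k} {a b : ι} {e : ι → F}

/-- The pairing of the components in `J` with the `e i`, `i ∈ J`. -/
def Th (ψ : F →ₗ[k] k) (a b : ι) (e : ι → F) (m : ℕ) :
    (Finset ι → F) →ₗ[k] (↥(powersetCard m (JJ a b)) → ↥(JJ a b) → k) where
  toFun z T i := ψ (e i * z T)
  map_add' z w := by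
    funext T i
    simp [mul_add]
  map_smul' c z := by
    funext T i
    simp

@[simp] lemma Th_apply (m : ℕ) (z : Finset ι → F) (T : ↥(powersetCard m (JJ a b)))
    (i : ↥(JJ a b)) : Th ψ a b e m z T i = ψ (e i * z T) := rfl

/-- The target cycles. -/
def ZA (k : Type*) [Field k] (a b : ι) (s : ℕ) :
    Submodule k (↥(powersetCard (s + 1) (JJ a b)) → ↥(JJ a b) → k) where
  carrier := {u | ∀ T : Finset ι, ∀ hT : T ∈ powersetCard s (JJ a b),
    ∑ j ∈ (JJ a b \ T).attach, u ⟨insert j.1 T, by
      have h1 := mem_powersetCard.mp hT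
      have h2 := mem_sdiff.mp j.2
      exact mem_powersetCard.mpr ⟨insert_subset h2.1 h1.1, by
        rw [card_insert_of_notMem h2.2, h1.2]⟩⟩ ⟨j.1, (mem_sdiff.mp j.2).1⟩ = 0}
  zero_mem' := fun T hT => by simp
  add_mem' := by
    intro u v hu hv T hT
    simp only [Pi.add_apply, sum_add_distrib]
    rw [hu T hT, hv T hT, add_zero]
  smul_mem' := by
    intro c u hu T hT
    simp only [Pi.smul_apply, smul_eq_mul, ← mul_sum]
    rw [hu T hT, mul_zero]

lemma psi_x (hP : Pencil k L x y ψ) {u : F} (hu : u ∈ L 2) : ψ (x * u) = 0 := by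
  have h3 : x * u ∈ L 3 := hP.mul_mem 1 2 _ _ hP.x_mem hu
  exact (hP.ker _ h3).mpr ⟨u, hu, 0, (L 2).zero_mem, by ring⟩

lemma psi_y (hP : Pencil k L x y ψ) {u : F} (hu : u ∈ L 2) : ψ (y * u) = 0 := by
  have h3 : y * u ∈ L 3 := hP.mul_mem 1 2 _ _ hP.y_mem hu
  exact (hP.ker _ h3).mpr ⟨0, (L 2).zero_mem, u, hu, by ring⟩

/-- The image of the cycles lies in `ZA`. -/
lemma Th_mem_ZA (hP : Pencil k L x y ψ) (hab : a ≠ b) (hea : e a = x) (heb : e b = y)
    {s : ℕ} {z : Finset ι → F} (hz : z ∈ Zc L e (s + 1) 2) :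
    Th ψ a b e (s + 1) z ∈ ZA k a b s := by
  intro T hT
  obtain ⟨hz1, hz2⟩ := hz
  have hTJ := (mem_powersetCard.mp hT).1
  have hd : dd e z T = 0 := by
    have := congrFun (LinearMap.mem_ker.mp hz2) T
    simpa using this
  rw [dd_J hab e z hTJ, hea, heb] at hd
  have h1 : dJ (JJ a b) e z T = -(x * z (insert a T) + y * z (insert b T)) := by
    linear_combination hd
  have h2 : ψ (dJ (JJ a b) e z T) = 0 := by
    rw [h1, map_neg, map_add, psi_x hP (hz1.1 _), psi_y hP (hz1.1 _)]
    simp
  simp only [Th_apply]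
  rw [dJ, map_sum, ← sum_attach] at h2
  exact h2

/-- Prescribed values of `w ↦ ψ (e i * w)`, `i ∈ J`. -/
lemma exists_w (hP : Pencil k L x y ψ) (hea : e a = x) (heb : e b = y)
    (he : ∀ i, e i ∈ L 1) (hli : LinearIndependent k e) (α : ↥(JJ a b) → k) :
    ∃ w ∈ L 2, ∀ i : ↥(JJ a b), ψ (e i * w) = α i := by
  classical
  let φ : L 2 →ₗ[k] (↥(JJ a b) → k) :=
    { toFun := fun w i => ψ (e i * w)
      map_add' := fun w w' => by funext i; simp [mul_add]
      map_smul' := fun c w => by funext i; simp }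
  have hsurj : LinearMap.range φ = ⊤ := by
    by_contra hne
    obtain ⟨f, hf, hle⟩ := Submodule.exists_le_ker_of_lt_top _ (lt_top_iff_ne_top.mpr hne)
    apply hf
    -- `f = ∑ c i (·)_i`
    have hfc : ∀ v : ↥(JJ a b) → k, f v = ∑ i, f (Pi.single i 1) * v i := by
      intro v
      conv_lhs => rw [← Finset.univ_sum_single v]
      rw [map_sum]
      refine sum_congr rfl (fun i _ => ?_)
      rw [show (Pi.single i (v i) : ↥(JJ a b) → k) = v i • Pi.single i 1 by
        rw [← Pi.single_smul]; simp]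
      rw [map_smul, smul_eq_mul, mul_comm]
    set c : ↥(JJ a b) → k := fun i => f (Pi.single i 1) with hc
    have hu : (∑ i : ↥(JJ a b), c i • e i) ∈ L 1 :=
      Submodule.sum_mem _ (fun i _ => (L 1).smul_mem _ (he i))
    have h0 : ∀ w ∈ L 2, ψ ((∑ i : ↥(JJ a b), c i • e i) * w) = 0 := by
      intro w hw
      have h1 := LinearMap.mem_ker.mp (hle (LinearMap.mem_range_self φ ⟨w, hw⟩))
      rw [hfc] at h1
      rw [sum_mul, map_sum, ← h1]
      refine sum_congr rfl (fun i _ => ?_)
      rw [smul_mul_assoc, map_smul, smul_eq_mul]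
      rfl
    have h2 := hP.left _ hu h0
    obtain ⟨p, q, hpq⟩ := Submodule.mem_span_pair.mp h2
    -- linear independence
    have h3 : ∀ i : ↥(JJ a b), c i = 0 := by
      by_contra hcon
      push Not at hcon
      obtain ⟨i0, hi0⟩ := hcon
      have hli' := Fintype.linearIndependent_iff.mp hli
        (fun i => if h : i ∈ JJ a b then c ⟨i, h⟩ else
          (if i = a then -p else 0) + (if i = b then -q else 0)) ?_ i0
      · simp only [i0.2, dif_pos] at hli'
        exact hi0 hli'
      · have e1 : ∀ i : ι, (if h : i ∈ JJ a b then c ⟨i, h⟩ else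
            (if i = a then -p else 0) + (if i = b then -q else 0)) • e i
            = (if h : i ∈ JJ a b then c ⟨i, h⟩ • e i else 0)
              + ((if i = a then (-p) • e i else 0) + (if i = b then (-q) • e i else 0)) := by
          intro i
          by_cases h : i ∈ JJ a b
          · have h' := mem_JJ.mp h
            simp [h, h'.1, h'.2]
          · simp only [h, dif_neg, not_false_eq_true, zero_add, add_smul]
            congr 1
            · split_ifs <;> simp
            · split_ifs <;> simp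
        rw [sum_congr rfl (fun i _ => e1 i), sum_add_distrib, sum_add_distrib,
          sum_ite_eq' univ a, sum_ite_eq' univ b]
        simp only [mem_univ, if_true]
        have e2 : ∑ i : ι, (if h : i ∈ JJ a b then c ⟨i, h⟩ • e i else 0)
            = ∑ i : ↥(JJ a b), c i • e i := by
          rw [sum_dite]
          simp only [sum_const_zero, add_zero]
          refine sum_bij' (fun i _ => ⟨i.1, by simpa using i.2⟩)
            (fun i _ => ⟨i.1, by simp⟩) ?_ ?_ ?_ ?_ ?_
          all_goals simp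
        rw [e2, ← hpq, hea, heb]
        simp only [neg_smul]
        abel
    apply LinearMap.ext
    intro v
    rw [hfc]
    simp only [LinearMap.zero_apply]
    exact sum_eq_zero (fun i _ => by rw [show f (Pi.single i 1) = 0 from h3 i, zero_mul])
  have hα : α ∈ LinearMap.range φ := by rw [hsurj]; trivial
  obtain ⟨w, hw⟩ := hα
  exact ⟨w, w.2, fun i => congrFun hw i⟩

/-- Every element of `ZA` is the image of a cycle. -/
lemma exists_cycle [CharP F 2] (hP : Pencil k L x y ψ) (hab : a ≠ b) (hea : e a = x)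
    (heb : e b = y) (he : ∀ i, e i ∈ L 1) (hli : LinearIndependent k e) {s : ℕ}
    {u : ↥(powersetCard (s + 1) (JJ a b)) → ↥(JJ a b) → k} (hu : u ∈ ZA k a b s) :
    ∃ z ∈ Zc L e (s + 1) 2, Th ψ a b e (s + 1) z = u := by
  classical
  have hchar : ∀ t : F, t + t = 0 := CharTwo.add_self_eq_zero
  choose z1 hz1 hz1u using fun T => exists_w hP hea heb he hli (u T)
  -- the component in `J`
  set z0 : Finset ι → F := fun S => if h : S ∈ powersetCard (s + 1) (JJ a b) then z1 ⟨S, h⟩ else 0
    with hz0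
  have hz0L : ∀ S, z0 S ∈ L 2 := by
    intro S
    simp only [hz0]
    split_ifs with h
    · exact hz1 _
    · exact (L 2).zero_mem
  have hz0c : ∀ S, S.card ≠ s + 1 → z0 S = 0 := by
    intro S hS
    simp only [hz0]
    rw [dif_neg]
    intro h
    exact hS (mem_powersetCard.mp h).2
  -- the other components
  have hex : ∀ T : Finset ι, ∃ β ∈ L 2, ∃ γ ∈ L 2, (T.card ≠ s → β = 0 ∧ γ = 0) ∧
      (T ⊆ JJ a b → dJ (JJ a b) e z0 T + (x * β + y * γ) = 0) := by
    intro T
    by_cases hT : T ∈ powersetCard s (JJ a b)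
    · have hTJ := (mem_powersetCard.mp hT).1
      have h3 : dJ (JJ a b) e z0 T ∈ L 3 := dJ_mem hP he hz0L T
      have hψ : ψ (dJ (JJ a b) e z0 T) = 0 := by
        have h1 := hu T hT
        rw [dJ, map_sum, ← sum_attach, ← h1]
        refine sum_congr rfl (fun j _ => ?_)
        have h2 := mem_sdiff.mp j.2
        have h4 : insert j.1 T ∈ powersetCard (s + 1) (JJ a b) := by
          refine mem_powersetCard.mpr ⟨insert_subset h2.1 hTJ, ?_⟩
          rw [card_insert_of_notMem h2.2, (mem_powersetCard.mp hT).2]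
        simp only [hz0]
        rw [dif_pos h4]
        exact hz1u ⟨_, h4⟩ ⟨j.1, h2.1⟩
      obtain ⟨β, hβ, γ, hγ, h5⟩ := (hP.ker _ h3).mp hψ
      refine ⟨β, hβ, γ, hγ, fun h => absurd (mem_powersetCard.mp hT).2 h, fun _ => ?_⟩
      rw [h5]
      exact hchar _
    · refine ⟨0, (L 2).zero_mem, 0, (L 2).zero_mem, fun _ => ⟨rfl, rfl⟩, fun hTJ => ?_⟩
      have hcard : T.card ≠ s := fun h => hT (mem_powersetCard.mpr ⟨hTJ, h⟩)
      rw [dJ, sum_eq_zero]
      · ring
      · intro j hj
        rw [hz0c, mul_zero]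
        rw [card_insert_of_notMem (mem_sdiff.mp hj).2]
        omega
  choose β hβ γ hγ hβγ hd using hex
  -- the last component
  have hex2 : ∀ T : Finset ι, ∃ h ∈ L 2, (T.card + 1 ≠ s → h = 0) ∧ (T ⊆ JJ a b →
      dJ (JJ a b) e β T + y * h = 0 ∧ dJ (JJ a b) e γ T + x * h = 0) := by
    intro T
    by_cases hTJ : T ⊆ JJ a b
    · have h1 : x * dJ (JJ a b) e β T + y * dJ (JJ a b) e γ T = 0 := by
        have h2 : dJ (JJ a b) e (fun S => dJ (JJ a b) e z0 S + (x * β S + y * γ S)) T = 0 := by
          rw [dJ]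
          refine sum_eq_zero (fun j hj => ?_)
          rw [hd _ (insert_subset (mem_sdiff.mp hj).1 hTJ), mul_zero]
        rw [dJ_add, dJ_dJ, zero_add, dJ_add, dJ_mul, dJ_mul] at h2
        exact h2
      obtain ⟨h, hh, h3, h4⟩ := hP.ex 2 _ _ (dJ_mem hP he hβ T) (dJ_mem hP he hγ T) h1
      refine ⟨h, hh, fun hcard => ?_, fun _ => ⟨?_, ?_⟩⟩
      · have h5 : dJ (JJ a b) e β T = 0 := by
          rw [dJ]
          refine sum_eq_zero (fun j hj => ?_)
          rw [(hβγ (insert j T) ?_).1, mul_zero]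
          rw [card_insert_of_notMem (mem_sdiff.mp hj).2]
          exact hcard
        rw [h5] at h3
        exact (mul_eq_zero.mp h3.symm).resolve_left hP.y_ne
      · rw [h3]; exact hchar _
      · rw [h4]; ring
    · exact ⟨0, (L 2).zero_mem, fun _ => rfl, fun h => absurd h hTJ⟩
  choose h hh hhc hhd using hex2
  refine ⟨glue a b z0 β γ h, ⟨⟨?_, ?_⟩, ?_⟩, ?_⟩
  · intro S
    unfold glue
    split_ifs
    · exact hh _
    · exact hβ _
    · exact hγ _
    · exact hz0L _
  · refine forall_four (a := a) (b := b) ?_ ?_ ?_ ?_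
    · intro T hT hc
      rw [glue_J hT]
      exact hz0c T hc
    · intro T hT hc
      rw [glue_a hab hT]
      rw [card_insert_a hT] at hc
      exact (hβγ T (by omega)).1
    · intro T hT hc
      rw [glue_b hab hT]
      rw [card_insert_b hT] at hc
      exact (hβγ T (by omega)).2
    · intro T hT hc
      rw [glue_ab hab hT]
      rw [card_insert_ab hab hT] at hc
      exact hhc T (by omega)
  · refine LinearMap.mem_ker.mpr (funext ?_)
    refine forall_four (a := a) (b := b) ?_ ?_ ?_ ?_
    · intro T hT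
      simp only [ddL_apply, Pi.zero_apply]
      rw [dd_glue_J hab e hT, hea, heb]
      exact hd T hT
    · intro T hT
      simp only [ddL_apply, Pi.zero_apply]
      rw [dd_glue_a hab e hT, heb]
      exact (hhd T hT).1
    · intro T hT
      simp only [ddL_apply, Pi.zero_apply]
      rw [dd_glue_b hab e hT, hea]
      exact (hhd T hT).2
    · intro T hT
      simp only [ddL_apply, Pi.zero_apply]
      rw [dd_glue_ab hab e hT]
      have h1 : y * dJ (JJ a b) e h T = 0 := by
        have h2 : dJ (JJ a b) e (fun S => dJ (JJ a b) e β S + y * h S) T = 0 := by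
          rw [dJ]
          refine sum_eq_zero (fun j hj => ?_)
          rw [(hhd _ (insert_subset (mem_sdiff.mp hj).1 hT)).1, mul_zero]
        rw [dJ_add, dJ_dJ, zero_add, dJ_mul] at h2
        exact h2
      exact (mul_eq_zero.mp h1).resolve_left hP.y_ne
  · funext T i
    rw [Th_apply, glue_J (mem_powersetCard.mp T.2).1]
    simp only [hz0]
    rw [dif_pos T.2]
    exact hz1u T i

/-- A cycle with zero image is a boundary. -/
lemma boundary_of_Th [CharP F 2] (hP : Pencil k L x y ψ) (hab : a ≠ b) (hea : e a = x)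
    (heb : e b = y) (he : ∀ i, e i ∈ L 1)
    (hsp : ∀ u ∈ L 1, u ∈ Submodule.span k (Set.range e)) {s : ℕ}
    {z : Finset ι → F} (hz : z ∈ Zc L e (s + 1) 2) (h0 : Th ψ a b e (s + 1) z = 0) :
    z ∈ Bc L e (s + 1) 1 := by
  classical
  have hchar : ∀ t : F, t + t = 0 := CharTwo.add_self_eq_zero
  obtain ⟨⟨hzL, hzc⟩, hzk⟩ := hz
  have hdz : ∀ T, dd e z T = 0 := fun T => congrFun (LinearMap.mem_ker.mp hzk) T
  -- all components in `J` lie in `x L₁ + y L₁`
  have hex : ∀ T : Finset ι, ∃ β ∈ L 1, ∃ γ ∈ L 1, (T.card ≠ s + 1 → β = 0 ∧ γ = 0) ∧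
      (T ⊆ JJ a b → z T = x * β + y * γ) := by
    intro T
    by_cases hT : T ∈ powersetCard (s + 1) (JJ a b)
    · have h1 : ∀ u ∈ L 1, ψ (u * z T) = 0 := by
        intro u hu
        have h2 := hsp u hu
        induction h2 using Submodule.span_induction with
        | mem v hv =>
          obtain ⟨i, rfl⟩ := hv
          by_cases hi : i ∈ JJ a b
          · have := congrFun (congrFun h0 ⟨T, hT⟩) ⟨i, hi⟩
            simpa using this
          · by_cases hia : i = a
            · rw [hia, hea]; exact psi_x hP (hzL _)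
            · have hib : i = b := by
                by_contra hib
                exact hi (mem_JJ.mpr ⟨hib, hia⟩)
              rw [hib, heb]; exact psi_y hP (hzL _)
        | zero => simp
        | add v w hv hw h3 h4 =>
          have hv' : v ∈ L 1 := by
            refine Submodule.span_le.mpr ?_ hv
            rintro _ ⟨i, rfl⟩; exact he i
          have hw' : w ∈ L 1 := by
            refine Submodule.span_le.mpr ?_ hw
            rintro _ ⟨i, rfl⟩; exact he i
          rw [add_mul, map_add, h3 hv', h4 hw', add_zero]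
        | smul c v hv h3 =>
          have hv' : v ∈ L 1 := by
            refine Submodule.span_le.mpr ?_ hv
            rintro _ ⟨i, rfl⟩; exact he i
          rw [smul_mul_assoc, map_smul, h3 hv', smul_zero]
      obtain ⟨β, hβ, γ, hγ, h5⟩ := hP.right _ (hzL T) h1
      exact ⟨β, hβ, γ, hγ, fun h => absurd (mem_powersetCard.mp hT).2 h, fun _ => h5⟩
    · refine ⟨0, (L 1).zero_mem, 0, (L 1).zero_mem, fun _ => ⟨rfl, rfl⟩, fun hTJ => ?_⟩
      rw [hzc T (fun h => hT (mem_powersetCard.mpr ⟨hTJ, h⟩))]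
      ring
  choose β hβ γ hγ hβγ hzT using hex
  have hex2 : ∀ T : Finset ι, ∃ g ∈ L 1, (T.card ≠ s → g = 0) ∧ (T ⊆ JJ a b →
      dJ (JJ a b) e β T + y * g = z (insert a T) ∧
      dJ (JJ a b) e γ T + x * g = z (insert b T)) := by
    intro T
    by_cases hTJ : T ⊆ JJ a b
    · have h1 : x * (dJ (JJ a b) e β T + z (insert a T))
          + y * (dJ (JJ a b) e γ T + z (insert b T)) = 0 := by
        have h2 := hdz T
        rw [dd_J hab e z hTJ, hea, heb, dJ_congr (fun S hS => hzT S hS) hTJ, dJ_add, dJ_mul,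
          dJ_mul] at h2
        linear_combination h2
      obtain ⟨g, hg, h3, h4⟩ := hP.ex 1 _ _ ((L 2).add_mem (dJ_mem hP he hβ T) (hzL _))
        ((L 2).add_mem (dJ_mem hP he hγ T) (hzL _)) h1
      refine ⟨g, hg, fun hcard => ?_, fun _ => ⟨?_, ?_⟩⟩
      · have h5 : dJ (JJ a b) e β T = 0 := by
          rw [dJ]
          refine sum_eq_zero (fun j hj => ?_)
          rw [(hβγ (insert j T) ?_).1, mul_zero]
          rw [card_insert_of_notMem (mem_sdiff.mp hj).2]
          omega
        have h6 : z (insert a T) = 0 := by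
          apply hzc
          rw [card_insert_a hTJ]
          omega
        rw [h5, h6, zero_add] at h3
        exact (mul_eq_zero.mp h3.symm).resolve_left hP.y_ne
      · have h7 := hchar (dJ (JJ a b) e β T)
        linear_combination h7 - h3
      · have h7 := hchar (dJ (JJ a b) e γ T)
        have h8 := hchar (x * g)
        linear_combination h7 - h4 + h8
    · exact ⟨0, (L 1).zero_mem, fun _ => rfl, fun h => absurd h hTJ⟩
  choose g hg hgc hgd using hex2
  refine ⟨glue a b (fun _ => 0) β γ g, ⟨?_, ?_⟩, ?_⟩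
  · intro S
    unfold glue
    split_ifs
    · exact hg _
    · exact hβ _
    · exact hγ _
    · exact (L 1).zero_mem
  · refine forall_four (a := a) (b := b) ?_ ?_ ?_ ?_
    · intro T hT hc
      rw [glue_J hT]
    · intro T hT hc
      rw [glue_a hab hT]
      rw [card_insert_a hT] at hc
      exact (hβγ T (by omega)).1
    · intro T hT hc
      rw [glue_b hab hT]
      rw [card_insert_b hT] at hc
      exact (hβγ T (by omega)).2
    · intro T hT hc
      rw [glue_ab hab hT]
      rw [card_insert_ab hab hT] at hc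
      exact hgc T (by omega)
  · funext S
    rw [ddL_apply]
    revert S
    refine forall_four (a := a) (b := b) ?_ ?_ ?_ ?_
    · intro T hT
      rw [dd_glue_J hab e hT, hea, heb, hzT T hT]
      have : dJ (JJ a b) e (fun _ => (0 : F)) T = 0 := by simp [dJ]
      rw [this, zero_add]
    · intro T hT
      rw [dd_glue_a hab e hT, heb]
      exact (hgd T hT).1
    · intro T hT
      rw [dd_glue_b hab e hT, hea]
      exact (hgd T hT).2
    · intro T hT
      rw [dd_glue_ab hab e hT]
      have h1 : y * (dJ (JJ a b) e g T + z (insert a (insert b T))) = 0 := by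
        have h2 : dJ (JJ a b) e (fun S => dJ (JJ a b) e β S + y * g S) T
            = dJ (JJ a b) e (fun S => z (insert a S)) T :=
          dJ_congr (fun S hS => (hgd S hS).1) hT
        rw [dJ_add, dJ_dJ, zero_add, dJ_mul] at h2
        have h3 := hdz (insert a T)
        rw [dd_a hab e z hT, heb] at h3
        linear_combination h2 + h3
      have h4 := (mul_eq_zero.mp h1).resolve_left hP.y_ne
      have h5 := hchar (z (insert a (insert b T)))
      linear_combination h4 - h5

end

end Pool.Agent.GrC
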