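import Mathlib

/-!
One chart: powers of an invertible fractional ideal generated by two elements; the base point
freeness of a finite dimensional space from the duality.
-/

set_option autoImplicit false

namespace Pool.Agent.GrC

open Module FractionalIdeal
open scoped nonZeroDivisors

variable {k F O : Type*} [Field k] [Field F] [Algebra k F] [CommRing O] [Algebra O F]
  [IsFractionRing O F] [Algebra k O] [IsScalarTower k O F]

/-- The powers of `W` as `k`-subspaces. -/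
def pw (k : Type*) {F O : Type*} [Field k] [Field F] [Algebra k F] [CommRing O] [Algebra O F]
    [Algebra k O] [IsScalarTower k O F] (W : FractionalIdeal O⁰ F) (n : ℕ) : Submodule k F :=
  ((W ^ n : FractionalIdeal O⁰ F) : Submodule O F).restrictScalars k

lemma mem_pw {W : FractionalIdeal O⁰ F} {n : ℕ} {f : F} : f ∈ pw k W n ↔ f ∈ W ^ n := Iff.rfl

lemma mem_pw_one {W : FractionalIdeal O⁰ F} {f : F} : f ∈ pw k W 1 ↔ f ∈ W := by
  rw [mem_pw, pow_one]

lemma mem_pw_zero {W : FractionalIdeal O⁰ F} {f : F} :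
    f ∈ pw k W 0 ↔ f ∈ (1 : FractionalIdeal O⁰ F) := by
  rw [mem_pw, pow_zero]

lemma pw_mul {W : FractionalIdeal O⁰ F} (p q : ℕ) (f g : F) (hf : f ∈ pw k W p)
    (hg : g ∈ pw k W q) : f * g ∈ pw k W (p + q) := by
  rw [mem_pw, pow_add]
  exact mul_mem_mul hf hg

lemma pw_gen {W : FractionalIdeal O⁰ F} {x y : F}
    (hW : spanSingleton O⁰ x + spanSingleton O⁰ y = W) (n : ℕ) (f : F)
    (hf : f ∈ pw k W (n + 1)) : ∃ u ∈ pw k W n, ∃ v ∈ pw k W n, f = x * u + y * v := by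
  have h1 : f ∈ spanSingleton O⁰ x * W ^ n + spanSingleton O⁰ y * W ^ n := by
    rw [← add_mul, hW, ← pow_succ']
    exact hf
  obtain ⟨i, hi, j, hj, hij⟩ := (mem_add _ _ _).mp h1
  obtain ⟨u, hu, rfl⟩ := mem_singleton_mul.mp hi
  obtain ⟨v, hv, rfl⟩ := mem_singleton_mul.mp hj
  exact ⟨u, hu, v, hv, hij.symm⟩

lemma pw_div [IsDedekindDomain O] {W : FractionalIdeal O⁰ F} {x y : F} (hW0 : W ≠ 0)
    (hW : spanSingleton O⁰ x + spanSingleton O⁰ y = W) (n : ℕ) (c : F)
    (hx : c * x ∈ pw k W (n + 1)) (hy : c * y ∈ pw k W (n + 1)) : c ∈ pw k W n := by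
  have h1 : spanSingleton O⁰ c * W ≤ W ^ (n + 1) := by
    rw [← hW, mul_add, spanSingleton_mul_spanSingleton, spanSingleton_mul_spanSingleton, hW]
    intro t ht
    obtain ⟨i, hi, j, hj, rfl⟩ := (mem_add _ _ _).mp ht
    exact Submodule.add_mem (W ^ (n + 1) : FractionalIdeal O⁰ F).1
      (spanSingleton_le_iff_mem.mpr hx hi) (spanSingleton_le_iff_mem.mpr hy hj)
  have h2 : spanSingleton O⁰ c ≤ W ^ n := by
    have h3 : spanSingleton O⁰ c * W * W⁻¹ ≤ W ^ (n + 1) * W⁻¹ := by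
      gcongr
    rwa [mul_assoc, mul_inv_cancel₀ hW0, mul_one, pow_succ, mul_assoc, mul_inv_cancel₀ hW0,
      mul_one] at h3
  exact spanSingleton_le_iff_mem.mp h2

/-- Base point freeness at a prime. -/
lemma bpf [IsAlgClosed k] [IsDedekindDomain O] {W : FractionalIdeal O⁰ F} {V M' : Submodule k F}
    [FiniteDimensional k V] {res : F →ₗ[k] k} (hV0 : V ≠ ⊥)
    (hres : ∀ f ∈ W, res f = 0)
    (hF2 : ∀ c, (∀ u ∈ V, res (u * c) = 0) → ∃ α ∈ (1 : FractionalIdeal O⁰ F), ∃ β ∈ M', c = α + β)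
    (hmul : ∀ u ∈ V, ∀ h ∈ M', u * h ∈ W → u * h ∈ V)
    {P : Ideal O} (hP0 : P ≠ ⊥) (hP1 : P ≠ ⊤) :
    ∃ u ∈ V, u ∉ (P : FractionalIdeal O⁰ F) * W := by
  by_contra hcon
  push Not at hcon
  have hPf : (P : FractionalIdeal O⁰ F) ≠ 0 := coeIdeal_ne_zero.mpr hP0
  obtain ⟨c, hc, hc1⟩ := exists_notMem_one_of_ne_bot (K := F) hP0 hP1
  have hcW : ∀ u ∈ V, ∀ d ∈ (P : FractionalIdeal O⁰ F)⁻¹, u * d ∈ W := by
    intro u hu d hd
    have h1 := mul_mem_mul (hcon u hu) hd
    rw [mul_comm (P : FractionalIdeal O⁰ F) W, mul_assoc, mul_inv_cancel₀ hPf, mul_one] at h1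
    exact h1
  obtain ⟨α, hα, β, hβ, hcab⟩ := hF2 c (fun u hu => hres _ (hcW u hu c hc))
  have hone : (1 : FractionalIdeal O⁰ F) ≤ (P : FractionalIdeal O⁰ F)⁻¹ := by
    have : (P : FractionalIdeal O⁰ F) ≤ 1 := coeIdeal_le_one
    intro t ht
    rw [mem_inv_iff hPf]
    intro y hy
    have h3 := mul_mem_mul ht (this hy)
    rwa [mul_one] at h3
  have hβP : β ∈ (P : FractionalIdeal O⁰ F)⁻¹ := by
    have : β = c - α := by rw [hcab]; ring
    rw [this]
    exact Submodule.sub_mem ((P : FractionalIdeal O⁰ F)⁻¹).1 hc (hone hα)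
  have hβ1 : β ∉ (1 : FractionalIdeal O⁰ F) := by
    intro h
    apply hc1
    rw [hcab]
    exact Submodule.add_mem (1 : FractionalIdeal O⁰ F).1 hα h
  -- multiplication by `β` on `V`
  let T : V →ₗ[k] V := (LinearMap.mulRight k β).restrict
    (fun u hu => hmul u hu β hβ (hcW u hu β hβP))
  have : Nontrivial V := Submodule.nontrivial_iff_ne_bot.mpr hV0
  obtain ⟨μ, hμ⟩ := Module.End.exists_eigenvalue (K := k) (V := V) T
  obtain ⟨u, hu⟩ := hμ.exists_hasEigenvector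
  have h1 : (u : F) * β = μ • (u : F) := congrArg Subtype.val hu.apply_eq_smul
  have hu0 : (u : F) ≠ 0 := fun h => hu.2 (Subtype.ext h)
  have h2 : β = algebraMap k F μ := by
    have : (u : F) * β = u * algebraMap k F μ := by rw [h1, Algebra.smul_def, mul_comm]
    exact mul_left_cancel₀ hu0 this
  apply hβ1
  rw [mem_one_iff]
  exact ⟨algebraMap k O μ, by rw [h2, ← IsScalarTower.algebraMap_apply]⟩

/-- The finitely many primes at which `x` vanishes, and the generation criterion. -/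
lemma exists_bad [IsDedekindDomain O] {W : FractionalIdeal O⁰ F} (hW0 : W ≠ 0) {x : F}
    (hx0 : x ≠ 0) (hx : x ∈ W) : ∃ S : Finset (Ideal O), (∀ P ∈ S, P ≠ ⊥ ∧ P ≠ ⊤) ∧
      ∀ y ∈ W, (∀ P ∈ S, y ∉ (P : FractionalIdeal O⁰ F) * W) →
        spanSingleton O⁰ x + spanSingleton O⁰ y = W := by
  classical
  have hle : ∀ t ∈ W, spanSingleton O⁰ t * W⁻¹ ≤ 1 := by
    intro t ht
    have h1 : spanSingleton O⁰ t ≤ W := spanSingleton_le_iff_mem.mpr ht
    calc spanSingleton O⁰ t * W⁻¹ ≤ W * W⁻¹ := by gcongr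
      _ = 1 := mul_inv_cancel₀ hW0
  obtain ⟨I, hI⟩ := le_one_iff_exists_coeIdeal.mp (hle x hx)
  have hI0 : I ≠ 0 := by
    intro h
    rw [h] at hI
    have h1 : spanSingleton O⁰ x * W⁻¹ ≠ 0 :=
      mul_ne_zero (spanSingleton_ne_zero_iff.mpr hx0) (inv_ne_zero hW0)
    apply h1
    rw [← hI]
    simp
  have hfin := Ideal.finite_factors hI0
  refine ⟨hfin.toFinset.image (fun v => v.asIdeal), ?_, ?_⟩
  · intro P hP
    rw [Finset.mem_image] at hP
    obtain ⟨v, -, rfl⟩ := hP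
    exact ⟨v.ne_bot, v.isPrime.ne_top⟩
  · intro y hy hyP
    obtain ⟨J, hJ⟩ := le_one_iff_exists_coeIdeal.mp (hle y hy)
    have hsup : I ⊔ J = ⊤ := by
      by_contra hne
      obtain ⟨P, hPmax, hP⟩ := Ideal.exists_le_maximal _ hne
      have hIP : I ≤ P := le_sup_left.trans hP
      have hJP : J ≤ P := le_sup_right.trans hP
      have hPbot : P ≠ ⊥ := by
        intro h
        rw [h] at hIP
        exact hI0 (le_bot_iff.mp hIP)
      let v : IsDedekindDomain.HeightOneSpectrum O := ⟨P, hPmax.isPrime, hPbot⟩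
      have hv : P ∈ hfin.toFinset.image (fun v => v.asIdeal) := by
        rw [Finset.mem_image]
        refine ⟨v, ?_, rfl⟩
        rw [Set.Finite.mem_toFinset]
        exact Ideal.dvd_iff_le.mpr hIP
      apply hyP P hv
      have h1 : spanSingleton O⁰ y * W⁻¹ ≤ (P : FractionalIdeal O⁰ F) := by
        rw [← hJ]
        exact (coeIdeal_le_coeIdeal F).mpr hJP
      have h2 : spanSingleton O⁰ y ≤ (P : FractionalIdeal O⁰ F) * W := by
        have h3 : spanSingleton O⁰ y * W⁻¹ * W ≤ (P : FractionalIdeal O⁰ F) * W := by gcongr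
        rwa [mul_assoc, inv_mul_cancel₀ hW0, mul_one] at h3
      exact spanSingleton_le_iff_mem.mp h2
    have h1 : (spanSingleton O⁰ x + spanSingleton O⁰ y) * W⁻¹ = 1 := by
      rw [add_mul, ← hI, ← hJ, ← coeIdeal_sup, hsup, coeIdeal_top (S := O⁰) (P := F)]
    calc spanSingleton O⁰ x + spanSingleton O⁰ y
        = (spanSingleton O⁰ x + spanSingleton O⁰ y) * W⁻¹ * W := by
          rw [mul_assoc, inv_mul_cancel₀ hW0, mul_one]
      _ = W := by rw [h1, one_mul]

end Pool.Agent.GrC
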