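import Mathlib
import Pool.Agent.GrC.Core

/-!
A pencil from two filtrations (one for each chart) and a residue functional.
-/

set_option autoImplicit false

namespace Pool.Agent.GrC

open Module

/-- Two multiplicative filtrations generated by a pencil, and a residue functional. -/
structure TwoCharts (k : Type*) {F : Type*} [Field k] [Field F] [Algebra k F]
    (A B : ℕ → Submodule k F) (x y : F) (res : F →ₗ[k] k) : Prop where
  mulA : ∀ p q f g, f ∈ A p → g ∈ A q → f * g ∈ A (p + q)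
  mulB : ∀ p q f g, f ∈ B p → g ∈ B q → f * g ∈ B (p + q)
  xA : x ∈ A 1
  yA : y ∈ A 1
  xB : x ∈ B 1
  yB : y ∈ B 1
  x_ne : x ≠ 0
  y_ne : y ≠ 0
  genA : ∀ n f, f ∈ A (n + 1) → ∃ u ∈ A n, ∃ v ∈ A n, f = x * u + y * v
  genB : ∀ n f, f ∈ B (n + 1) → ∃ u ∈ B n, ∃ v ∈ B n, f = x * u + y * v
  divA : ∀ n c, c * x ∈ A (n + 1) → c * y ∈ A (n + 1) → c ∈ A n
  divB : ∀ n c, c * x ∈ B (n + 1) → c * y ∈ B (n + 1) → c ∈ B n
  resA : ∀ f ∈ A 1, res f = 0
  resB : ∀ f ∈ B 1, res f = 0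
  res_ne : res ≠ 0
  F1 : ∀ c, res c = 0 → ∃ α ∈ A 1, ∃ β ∈ B 1, c = α + β
  F2 : ∀ c, (∀ u ∈ A 1 ⊓ B 1, res (u * c) = 0) → ∃ α ∈ A 0, ∃ β ∈ B 0, c = α + β

variable {k F : Type*} [Field k] [Field F] [Algebra k F] {A B : ℕ → Submodule k F} {x y : F}
  {res : F →ₗ[k] k}

/-- `c` is a connecting element of `s ∈ A (n+1) ∩ B (n+1)`. -/
def Rel (A B : ℕ → Submodule k F) (x y : F) (n : ℕ) (s c : F) : Prop :=
  ∃ a₀ ∈ A n, ∃ b₀ ∈ A n, ∃ a₁ ∈ B n, ∃ b₁ ∈ B n,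
    s = x * a₀ + y * b₀ ∧ s = x * a₁ + y * b₁ ∧ y * c = a₀ - a₁

lemma Rel.x_mul {s c a₀ b₀ a₁ b₁ : F} (hy : y ≠ 0) (h1 : s = x * a₀ + y * b₀)
    (h2 : s = x * a₁ + y * b₁) (h3 : y * c = a₀ - a₁) : x * c = b₁ - b₀ := by
  have h : y * (x * c) = y * (b₁ - b₀) := by
    have : x * (a₀ - a₁) = y * (b₁ - b₀) := by linear_combination h2 - h1
    rw [← this, ← h3]; ring
  exact mul_left_cancel₀ hy h

lemma Rel.exists_c (hT : TwoCharts k A B x y res) (n : ℕ) {s : F} (hsA : s ∈ A (n + 1))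
    (hsB : s ∈ B (n + 1)) : ∃ c, Rel A B x y n s c := by
  obtain ⟨a₀, ha₀, b₀, hb₀, h1⟩ := hT.genA n s hsA
  obtain ⟨a₁, ha₁, b₁, hb₁, h2⟩ := hT.genB n s hsB
  exact ⟨(a₀ - a₁) / y, a₀, ha₀, b₀, hb₀, a₁, ha₁, b₁, hb₁, h1, h2,
    mul_div_cancel₀ _ hT.y_ne⟩

lemma Rel.add {n : ℕ} {s c s' c' : F} (h : Rel A B x y n s c) (h' : Rel A B x y n s' c') :
    Rel A B x y n (s + s') (c + c') := by
  obtain ⟨a₀, ha₀, b₀, hb₀, a₁, ha₁, b₁, hb₁, h1, h2, h3⟩ := h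
  obtain ⟨a₀', ha₀', b₀', hb₀', a₁', ha₁', b₁', hb₁', h1', h2', h3'⟩ := h'
  exact ⟨_, (A n).add_mem ha₀ ha₀', _, (A n).add_mem hb₀ hb₀', _, (B n).add_mem ha₁ ha₁', _,
    (B n).add_mem hb₁ hb₁', by rw [h1, h1']; ring, by rw [h2, h2']; ring, by
      rw [mul_add, h3, h3']; ring⟩

lemma Rel.smul {n : ℕ} {s c : F} (t : k) (h : Rel A B x y n s c) :
    Rel A B x y n (t • s) (t • c) := by
  obtain ⟨a₀, ha₀, b₀, hb₀, a₁, ha₁, b₁, hb₁, h1, h2, h3⟩ := h
  refine ⟨_, (A n).smul_mem t ha₀, _, (A n).smul_mem t hb₀, _, (B n).smul_mem t ha₁, _,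
    (B n).smul_mem t hb₁, ?_, ?_, ?_⟩
  · rw [h1, smul_add, mul_smul_comm, mul_smul_comm]
  · rw [h2, smul_add, mul_smul_comm, mul_smul_comm]
  · rw [mul_smul_comm, h3, smul_sub]

lemma Rel.zero_res (hT : TwoCharts k A B x y res) {c : F} (h : Rel A B x y 2 0 c) :
    res c = 0 := by
  obtain ⟨a₀, ha₀, b₀, hb₀, a₁, ha₁, b₁, hb₁, h1, h2, h3⟩ := h
  have hα : a₀ / y ∈ A 1 := by
    apply hT.divA 1
    · have : a₀ / y * x = -b₀ := by
        field_simp [hT.y_ne]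
        linear_combination -h1
      rw [this]
      exact (A 2).neg_mem hb₀
    · rw [div_mul_cancel₀ _ hT.y_ne]; exact ha₀
  have hβ : a₁ / y ∈ B 1 := by
    apply hT.divB 1
    · have : a₁ / y * x = -b₁ := by
        field_simp [hT.y_ne]
        linear_combination -h2
      rw [this]
      exact (B 2).neg_mem hb₁
    · rw [div_mul_cancel₀ _ hT.y_ne]; exact ha₁
  have hc : c = a₀ / y - a₁ / y := by
    have := hT.y_ne
    field_simp
    linear_combination h3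
  rw [hc, map_sub, hT.resA _ hα, hT.resB _ hβ, sub_zero]

lemma Rel.split (hT : TwoCharts k A B x y res) {n : ℕ} {s c α β : F} (h : Rel A B x y (n + 1) s c)
    (hα : α ∈ A n) (hβ : β ∈ B n) (hc : c = α + β) :
    ∃ u ∈ A (n + 1) ⊓ B (n + 1), ∃ v ∈ A (n + 1) ⊓ B (n + 1), s = x * u + y * v := by
  obtain ⟨a₀, ha₀, b₀, hb₀, a₁, ha₁, b₁, hb₁, h1, h2, h3⟩ := h
  have h4 := Rel.x_mul hT.y_ne h1 h2 h3
  have e1 : a₀ - y * α = a₁ + y * β := by rw [hc] at h3; linear_combination -h3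
  have e2 : b₀ + x * α = b₁ - x * β := by rw [hc] at h4; linear_combination h4
  have hyα : y * α ∈ A (n + 1) := by rw [add_comm]; exact hT.mulA 1 n _ _ hT.yA hα
  have hxα : x * α ∈ A (n + 1) := by rw [add_comm]; exact hT.mulA 1 n _ _ hT.xA hα
  have hyβ : y * β ∈ B (n + 1) := by rw [add_comm]; exact hT.mulB 1 n _ _ hT.yB hβ
  have hxβ : x * β ∈ B (n + 1) := by rw [add_comm]; exact hT.mulB 1 n _ _ hT.xB hβ
  refine ⟨a₀ - y * α, ⟨(A _).sub_mem ha₀ hyα, ?_⟩, b₀ + x * α, ⟨(A _).add_mem hb₀ hxα, ?_⟩, ?_⟩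
  · rw [e1]; exact (B _).add_mem ha₁ hyβ
  · rw [e2]; exact (B _).sub_mem hb₁ hxβ
  · rw [h1]; ring

lemma Rel.of_split {n : ℕ} {u v : F} (hu : u ∈ A n ⊓ B n) (hv : v ∈ A n ⊓ B n) :
    Rel A B x y n (x * u + y * v) 0 :=
  ⟨u, hu.1, v, hv.1, u, hu.2, v, hv.2, rfl, rfl, by ring⟩

lemma Rel.mul (hT : TwoCharts k A B x y res) {w c u : F} (h : Rel A B x y 1 w c)
    (hu : u ∈ A 1 ⊓ B 1) : Rel A B x y 2 (u * w) (u * c) := by
  obtain ⟨a₀, ha₀, b₀, hb₀, a₁, ha₁, b₁, hb₁, h1, h2, h3⟩ := h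
  exact ⟨_, hT.mulA 1 1 _ _ hu.1 ha₀, _, hT.mulA 1 1 _ _ hu.1 hb₀, _, hT.mulB 1 1 _ _ hu.2 ha₁,
    _, hT.mulB 1 1 _ _ hu.2 hb₁, by rw [h1]; ring, by rw [h2]; ring, by
      rw [← mul_sub, ← h3]; ring⟩

/-- The residue on `A 3 ∩ B 3`. -/
lemma exists_psi (hT : TwoCharts k A B x y res) :
    ∃ ψ : F →ₗ[k] k, ∀ s ∈ A 3 ⊓ B 3, ∀ c, Rel A B x y 2 s c → ψ s = res c := by
  classical
  have hex : ∀ s : ↥(A 3 ⊓ B 3), ∃ c, Rel A B x y 2 (s : F) c := fun s =>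
    Rel.exists_c hT 2 s.2.1 s.2.2
  choose c hc using hex
  have huniq : ∀ {s : F} {c₁ c₂ : F}, Rel A B x y 2 s c₁ → Rel A B x y 2 s c₂ →
      res c₁ = res c₂ := by
    intro s c₁ c₂ h1 h2
    have h3 := h1.add (h2.smul (-1))
    rw [neg_one_smul, neg_one_smul, add_neg_cancel] at h3
    have h4 := Rel.zero_res hT h3
    rw [map_add, map_neg] at h4
    exact add_neg_eq_zero.mp h4
  let ψ₀ : ↥(A 3 ⊓ B 3) →ₗ[k] k :=
    { toFun := fun s => res (c s)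
      map_add' := by
        intro s t
        rw [← map_add]
        exact huniq (hc (s + t)) ((hc s).add (hc t))
      map_smul' := by
        intro r s
        simp only [RingHom.id_apply]
        rw [← map_smul]
        exact huniq (hc (r • s)) ((hc s).smul r) }
  obtain ⟨ψ, hψ⟩ := ψ₀.exists_extend
  refine ⟨ψ, fun s hs c' hc' => ?_⟩
  have h1 : ψ s = ψ₀ ⟨s, hs⟩ := by rw [← hψ]; rfl
  rw [h1]
  exact huniq (hc ⟨s, hs⟩) hc'

theorem pencil_of (hT : TwoCharts k A B x y res) :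
    ∃ ψ : F →ₗ[k] k, Pencil k (fun n => A n ⊓ B n) x y ψ := by
  obtain ⟨ψ, hψ⟩ := exists_psi hT
  refine ⟨ψ, ?_⟩
  refine
    { mul_mem := fun p q f g hf hg => ⟨hT.mulA p q f g hf.1 hg.1, hT.mulB p q f g hf.2 hg.2⟩
      x_mem := ⟨hT.xA, hT.xB⟩
      y_mem := ⟨hT.yA, hT.yB⟩
      x_ne := hT.x_ne
      y_ne := hT.y_ne
      ex := ?_
      ker := ?_
      left := ?_
      right := ?_ }
  · intro q u v hu hv h0
    have hy := hT.y_ne
    have e1 : u / y * x = -v := by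
      field_simp
      linear_combination h0
    have e2 : u / y * y = u := div_mul_cancel₀ _ hy
    refine ⟨u / y, ⟨?_, ?_⟩, ?_, ?_⟩
    · apply hT.divA q
      · rw [e1]; exact (A _).neg_mem hv.1
      · rw [e2]; exact hu.1
    · apply hT.divB q
      · rw [e1]; exact (B _).neg_mem hv.2
      · rw [e2]; exact hu.2
    · rw [mul_comm, e2]
    · rw [mul_comm, e1, neg_neg]
  · intro s hs
    constructor
    · intro h0
      obtain ⟨c, hc⟩ := Rel.exists_c hT 2 hs.1 hs.2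
      have h1 : res c = 0 := by rw [← hψ s hs c hc]; exact h0
      obtain ⟨α, hα, β, hβ, hcs⟩ := hT.F1 c h1
      exact Rel.split hT hc hα hβ hcs
    · rintro ⟨u, hu, v, hv, rfl⟩
      rw [hψ _ hs 0 (Rel.of_split hu hv), map_zero]
  · intro u hu h0
    -- the functional `res (u ·)` is a combination of `res (x ·)` and `res (y ·)`
    let f : F → (F →ₗ[k] k) := fun v => res.comp (LinearMap.mulLeft k v)
    have hker : ∀ c, res (x * c) = 0 → res (y * c) = 0 → res (u * c) = 0 := by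
      intro c hx hy
      obtain ⟨α, hα, β, hβ, h1⟩ := hT.F1 _ hy
      obtain ⟨α', hα', β', hβ', h2⟩ := hT.F1 _ hx
      -- `y c = α - (-β)`, `x c = -( (-α') - β')`
      have hw : x * α + y * (-α') = x * (-β) + y * β' := by
        linear_combination x * (-h1) + y * h2
      have hrel : Rel A B x y 1 (x * α + y * (-α')) c :=
        ⟨α, hα, -α', (A 1).neg_mem hα', -β, (B 1).neg_mem hβ, β', hβ', rfl, hw, by
          rw [h1]; ring⟩
      have hwA : x * α + y * (-α') ∈ A 2 := (A 2).add_mem (hT.mulA 1 1 _ _ hT.xA hα)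
        (hT.mulA 1 1 _ _ hT.yA ((A 1).neg_mem hα'))
      have hwB : x * α + y * (-α') ∈ B 2 := by
        rw [hw]
        exact (B 2).add_mem (hT.mulB 1 1 _ _ hT.xB ((B 1).neg_mem hβ))
          (hT.mulB 1 1 _ _ hT.yB hβ')
      have h3 := h0 _ ⟨hwA, hwB⟩
      have h4 : u * (x * α + y * (-α')) ∈ A 3 ⊓ B 3 :=
        ⟨hT.mulA 1 2 _ _ hu.1 hwA, hT.mulB 1 2 _ _ hu.2 hwB⟩
      rw [hψ _ h4 _ (hrel.mul hT hu)] at h3
      exact h3
    have hmem : f u ∈ Submodule.span k (Set.range ![f x, f y]) := by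
      apply mem_span_of_iInf_ker_le_ker
      intro c hc
      simp only [Submodule.mem_iInf, LinearMap.mem_ker] at hc
      have hx := hc 0
      have hy := hc 1
      simp only [Matrix.cons_val_zero, Matrix.cons_val_one] at hx hy
      exact LinearMap.mem_ker.mpr (hker c hx hy)
    have hr : Set.range ![f x, f y] = {f x, f y} := by
      ext t; simp; tauto
    rw [hr] at hmem
    obtain ⟨p, q, hpq⟩ := Submodule.mem_span_pair.mp hmem
    rw [Submodule.mem_span_pair]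
    refine ⟨p, q, ?_⟩
    by_contra hne
    apply hT.res_ne
    apply LinearMap.ext
    intro t
    set d := p • x + q • y - u with hd
    have hd0 : d ≠ 0 := sub_ne_zero.mpr hne
    have h5 : res (d * (t / d)) = 0 := by
      have h6 := LinearMap.congr_fun hpq (t / d)
      simp only [LinearMap.add_apply, LinearMap.smul_apply, f, LinearMap.comp_apply,
        LinearMap.mulLeft_apply] at h6
      rw [hd, sub_mul, add_mul, smul_mul_assoc, smul_mul_assoc, map_sub, map_add, map_smul,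
        map_smul, h6, sub_self]
    rw [mul_div_cancel₀ _ hd0] at h5
    rw [h5]; rfl
  · intro w hw h0
    obtain ⟨c, hc⟩ := Rel.exists_c hT 1 hw.1 hw.2
    have h1 : ∀ u ∈ A 1 ⊓ B 1, res (u * c) = 0 := by
      intro u hu
      have h2 : u * w ∈ A 3 ⊓ B 3 := ⟨hT.mulA 1 2 _ _ hu.1 hw.1, hT.mulB 1 2 _ _ hu.2 hw.2⟩
      rw [← hψ _ h2 _ (hc.mul hT hu)]
      exact h0 u hu
    obtain ⟨α, hα, β, hβ, hcs⟩ := hT.F2 c h1
    exact Rel.split hT hc hα hβ hcs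

end Pool.Agent.GrC
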