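import Mathlib
import Pool.Agent.GrC.Ded
import Pool.Agent.GrC.PencilOf

/-!
Two charts with the duality have a base point free pencil.
-/

set_option autoImplicit false

namespace Pool.Agent.GrC

open Module FractionalIdeal
open scoped nonZeroDivisors

variable {k F O₁ O₂ : Type*} [Field k] [Field F] [Algebra k F]
  [CommRing O₁] [IsDedekindDomain O₁] [Algebra O₁ F] [IsFractionRing O₁ F] [Algebra k O₁]
  [IsScalarTower k O₁ F]
  [CommRing O₂] [IsDedekindDomain O₂] [Algebra O₂ F] [IsFractionRing O₂ F] [Algebra k O₂]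
  [IsScalarTower k O₂ F]

/-- `P W` as a subspace of `V`. -/
noncomputable def sub (k : Type*) {F O : Type*} [Field k] [Field F] [Algebra k F] [CommRing O]
    [Algebra O F] [IsFractionRing O F] [Algebra k O] [IsScalarTower k O F]
    (W : FractionalIdeal O⁰ F) (V : Submodule k F) (P : Ideal O) : Submodule k V :=
  (((((P : FractionalIdeal O⁰ F) * W : FractionalIdeal O⁰ F) : Submodule O F).restrictScalars k)).comap
    V.subtype

lemma mem_sub {O : Type*} [CommRing O]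
    [Algebra O F] [IsFractionRing O F] [Algebra k O] [IsScalarTower k O F]
    {W : FractionalIdeal O⁰ F} {V : Submodule k F} {P : Ideal O} {v : V} :
    v ∈ sub k W V P ↔ (v : F) ∈ (P : FractionalIdeal O⁰ F) * W := Iff.rfl

theorem exists_twoCharts [IsAlgClosed k] {W₁ : FractionalIdeal O₁⁰ F} {W₂ : FractionalIdeal O₂⁰ F}
    (hW₁ : W₁ ≠ 0) (hW₂ : W₂ ≠ 0) [FiniteDimensional k ↥(pw k W₁ 1 ⊓ pw k W₂ 1)]
    (h2 : 2 ≤ finrank k ↥(pw k W₁ 1 ⊓ pw k W₂ 1)) {res : F →ₗ[k] k} (res_ne : res ≠ 0)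
    (resA : ∀ f ∈ pw k W₁ 1, res f = 0) (resB : ∀ f ∈ pw k W₂ 1, res f = 0)
    (F1 : ∀ c, res c = 0 → ∃ α ∈ pw k W₁ 1, ∃ β ∈ pw k W₂ 1, c = α + β)
    (F2 : ∀ c, (∀ u ∈ pw k W₁ 1 ⊓ pw k W₂ 1, res (u * c) = 0) →
      ∃ α ∈ pw k W₁ 0, ∃ β ∈ pw k W₂ 0, c = α + β) :
    ∃ x y, LinearIndependent k ![x, y] ∧ TwoCharts k (pw k W₁) (pw k W₂) x y res := by
  classical
  set V := pw k W₁ 1 ⊓ pw k W₂ 1 with hV
  have hV0 : V ≠ ⊥ := by
    intro h
    rw [h, finrank_bot] at h2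
    omega
  obtain ⟨x, hxV, hx0⟩ := (Submodule.ne_bot_iff V).mp hV0
  have hxW₁ : x ∈ W₁ := mem_pw_one.mp hxV.1
  have hxW₂ : x ∈ W₂ := mem_pw_one.mp hxV.2
  obtain ⟨S₁, hS₁, hgen₁⟩ := exists_bad hW₁ hx0 hxW₁
  obtain ⟨S₂, hS₂, hgen₂⟩ := exists_bad hW₂ hx0 hxW₂
  have hbpf₁ : ∀ P ∈ S₁, sub k W₁ V P ≠ ⊤ := by
    intro P hP htop
    obtain ⟨u, hu, hu'⟩ := bpf (k := k) (W := W₁) (V := V) (M' := pw k W₂ 0) (res := res) hV0
      (fun f hf => resA f (by rw [mem_pw, pow_one]; exact hf))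
      (fun c hc => by
        obtain ⟨α, hα, β, hβ, h⟩ := F2 c hc
        rw [mem_pw, pow_zero] at hα
        exact ⟨α, hα, β, hβ, h⟩)
      (fun u hu h hh hm => ⟨mem_pw_one.mpr hm, pw_mul 1 0 _ _ hu.2 hh⟩)
      (hS₁ P hP).1 (hS₁ P hP).2
    apply hu'
    have : (⟨u, hu⟩ : V) ∈ sub k W₁ V P := by rw [htop]; trivial
    exact this
  have hbpf₂ : ∀ P ∈ S₂, sub k W₂ V P ≠ ⊤ := by
    intro P hP htop
    obtain ⟨u, hu, hu'⟩ := bpf (k := k) (W := W₂) (V := V) (M' := pw k W₁ 0) (res := res) hV0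
      (fun f hf => resB f (by rw [mem_pw, pow_one]; exact hf))
      (fun c hc => by
        obtain ⟨α, hα, β, hβ, h⟩ := F2 c hc
        rw [mem_pw, pow_zero] at hβ
        exact ⟨β, hβ, α, hα, by rw [h, add_comm]⟩)
      (fun u hu h hh hm => ⟨pw_mul 1 0 _ _ hu.1 hh, mem_pw_one.mpr hm⟩)
      (hS₂ P hP).1 (hS₂ P hP).2
    apply hu'
    have : (⟨u, hu⟩ : V) ∈ sub k W₂ V P := by rw [htop]; trivial
    exact this
  -- choose `y`
  set S : Finset (Subspace k V) := S₁.image (sub k W₁ V) ∪ S₂.image (sub k W₂ V) ∪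
    {Submodule.span k {(⟨x, hxV⟩ : V)}} with hS
  have htop : ⊤ ∉ S := by
    intro h
    rw [hS, Finset.mem_union, Finset.mem_union, Finset.mem_image, Finset.mem_image,
      Finset.mem_singleton] at h
    rcases h with (⟨P, hP, h⟩ | ⟨P, hP, h⟩) | h
    · exact hbpf₁ P hP h
    · exact hbpf₂ P hP h
    · have h1 : finrank k ↥(Submodule.span k {(⟨x, hxV⟩ : V)}) ≤ 1 := by
        refine (finrank_span_le_card _).trans ?_
        simp
      rw [← h, finrank_top] at h1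
      omega
  have hinf : Infinite k := inferInstance
  have hne := Subspace.biUnion_ne_univ_of_top_notMem htop
  obtain ⟨y, hy⟩ := (Set.ne_univ_iff_exists_notMem _).mp hne
  simp only [Set.mem_iUnion, not_exists] at hy
  have hy₁ : ∀ P ∈ S₁, (y : F) ∉ (P : FractionalIdeal O₁⁰ F) * W₁ := fun P hP h =>
    hy _ (by rw [hS]; simp only [Finset.mem_union]; left; left; exact Finset.mem_image_of_mem _ hP) h
  have hy₂ : ∀ P ∈ S₂, (y : F) ∉ (P : FractionalIdeal O₂⁰ F) * W₂ := fun P hP h =>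
    hy _ (by rw [hS]; simp only [Finset.mem_union]; left; right; exact Finset.mem_image_of_mem _ hP) h
  have hy₃ : y ∉ Submodule.span k {(⟨x, hxV⟩ : V)} := fun h =>
    hy _ (by rw [hS]; simp) h
  have hyW₁ : (y : F) ∈ W₁ := mem_pw_one.mp y.2.1
  have hyW₂ : (y : F) ∈ W₂ := mem_pw_one.mp y.2.2
  have hg₁ := hgen₁ y hyW₁ hy₁
  have hg₂ := hgen₂ y hyW₂ hy₂
  have hli : LinearIndependent k ![x, (y : F)] := by
    rw [LinearIndependent.pair_iff' hx0]
    intro c hc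
    apply hy₃
    rw [Submodule.mem_span_singleton]
    exact ⟨c, Subtype.ext hc⟩
  have hy0 : (y : F) ≠ 0 := by
    have := hli.ne_zero 1
    simpa using this
  refine ⟨x, y, hli, ?_⟩
  exact
    { mulA := pw_mul
      mulB := pw_mul
      xA := hxV.1
      yA := y.2.1
      xB := hxV.2
      yB := y.2.2
      x_ne := hx0
      y_ne := hy0
      genA := pw_gen hg₁
      genB := pw_gen hg₂
      divA := pw_div hW₁ hg₁
      divB := pw_div hW₂ hg₂
      resA := resA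
      resB := resB
      res_ne := res_ne
      F1 := F1
      F2 := F2 }

end Pool.Agent.GrC
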