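import Mathlib
import Pool.Agent.GrC.Defs
import Pool.Agent.GrC.AinfDVR
import Pool.Agent.GrC.Two

/-!
The duality on a curve, from the duality on the projective line and the trace.
-/

set_option autoImplicit false

namespace Pool.Agent.GrC

open Polynomial Module FractionalIdeal
open scoped nonZeroDivisors

variable {k F : Type*} [Field k] [Field F] [Algebra k F] [Algebra k[X] F] [Algebra (RatFunc k) F]
  [IsScalarTower k[X] (RatFunc k) F] [IsScalarTower k (RatFunc k) F] [IsScalarTower k k[X] F]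
  [FiniteDimensional (RatFunc k) F] [Algebra.IsSeparable (RatFunc k) F]

instance : IsFractionRing (O0 k F) F :=
  integralClosure.isFractionRing_of_finite_extension (RatFunc k) F

instance : IsDedekindDomain (O0 k F) :=
  IsIntegralClosure.isDedekindDomain k[X] (RatFunc k) F (O0 k F)

instance : IsFractionRing (Oinf k F) F :=
  integralClosure.isFractionRing_of_finite_extension (RatFunc k) F

instance : IsDedekindDomain (Oinf k F) :=
  IsIntegralClosure.isDedekindDomain (Ainf k) (RatFunc k) F (Oinf k F)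

variable (k F)

/-- `t` in `F`. -/
noncomputable abbrev tF : F := algebraMap (RatFunc k) F RatFunc.X

/-- The first chart of the canonical bundle as a fractional ideal. -/
noncomputable def W1 : FractionalIdeal (O0 k F)⁰ F := dual k[X] (RatFunc k) 1

/-- The second chart of the canonical bundle as a fractional ideal. -/
noncomputable def W2 : FractionalIdeal (Oinf k F)⁰ F :=
  spanSingleton _ ((tF k F) ^ 2)⁻¹ * dual (Ainf k) (RatFunc k) 1

variable {k F}

lemma tF_ne : tF k F ≠ 0 := by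
  intro h
  exact RatFunc.X_ne_zero ((map_eq_zero _).mp h)

lemma one_ne0 : (1 : FractionalIdeal (O0 k F)⁰ F) ≠ 0 := one_ne_zero

lemma one_neInf : (1 : FractionalIdeal (Oinf k F)⁰ F) ≠ 0 := one_ne_zero

lemma W1_ne : W1 k F ≠ 0 := dual_ne_zero k[X] (RatFunc k) one_ne_zero

lemma W2_ne : W2 k F ≠ 0 :=
  mul_ne_zero (spanSingleton_ne_zero_iff.mpr (inv_ne_zero (pow_ne_zero _ tF_ne)))
    (dual_ne_zero (Ainf k) (RatFunc k) one_ne_zero)

lemma coe_W1 : ((W1 k F : FractionalIdeal (O0 k F)⁰ F) : Submodule (O0 k F) F) = Om0 k F := by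
  rw [W1, coe_dual_one]
  rfl

lemma mem_W2 {f : F} : f ∈ W2 k F ↔
    (tF k F) ^ 2 * f ∈ dual (Ainf k) (RatFunc k) (1 : FractionalIdeal (Oinf k F)⁰ F) := by
  rw [W2, mem_singleton_mul]
  constructor
  · rintro ⟨y, hy, rfl⟩
    rw [← mul_assoc, mul_inv_cancel₀ (pow_ne_zero _ tF_ne), one_mul]
    exact hy
  · intro h
    refine ⟨_, h, ?_⟩
    rw [← mul_assoc, inv_mul_cancel₀ (pow_ne_zero _ tF_ne), one_mul]

lemma coe_W2 : ((W2 k F : FractionalIdeal (Oinf k F)⁰ F) : Submodule (Oinf k F) F)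
    = OmInf k F := by
  ext f
  rw [mem_coe, mem_W2, OmInf, Submodule.mem_comap, ← mem_coe, coe_dual_one]
  simp only [LinearMap.mulLeft_apply, map_pow]

lemma HK_eq (q : ℕ) : HK k F q = pw k (W1 k F) q ⊓ pw k (W2 k F) q := by
  ext f
  change (f ∈ Om0 k F ^ q ∧ f ∈ OmInf k F ^ q) ↔ (f ∈ (W1 k F) ^ q ∧ f ∈ (W2 k F) ^ q)
  rw [← mem_coe, ← mem_coe, FractionalIdeal.coe_pow, FractionalIdeal.coe_pow, coe_W1, coe_W2]

/-- The trace criterion in the first chart. -/
lemma mem_W1_iff {f : F} : f ∈ W1 k F ↔ ∀ a ∈ O0 k F, ∃ p : k[X],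
    Algebra.trace (RatFunc k) F (f * a) = algebraMap k[X] (RatFunc k) p := by
  rw [W1, mem_dual one_ne0]
  constructor
  · intro h a ha
    obtain ⟨p, hp⟩ := h a (by rw [mem_one_iff]; exact ⟨⟨a, ha⟩, rfl⟩)
    exact ⟨p, hp.symm⟩
  · intro h a ha
    rw [mem_one_iff] at ha
    obtain ⟨a', rfl⟩ := ha
    obtain ⟨p, hp⟩ := h a' a'.2
    exact ⟨p, hp.symm⟩

lemma mem_W2_iff {f : F} : f ∈ W2 k F ↔ ∀ a ∈ Oinf k F,
    Algebra.trace (RatFunc k) F (f * a) ∈ Kle k (-2) := by
  have hX : ∀ g : RatFunc k, RatFunc.X ^ 2 * g ∈ Kle k 0 ↔ g ∈ Kle k (-2) := by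
    intro g
    have h2 : (RatFunc.X ^ 2 : RatFunc k) ∈ Kle k 2 := by
      right; rw [show (RatFunc.X ^ 2 : RatFunc k) = RatFunc.X ^ (2 : ℤ) by norm_cast, intDegree_zpow]
    have h3 : (RatFunc.X ^ (-2 : ℤ) : RatFunc k) ∈ Kle k (-2) := by
      right; rw [intDegree_zpow]
    constructor
    · intro h
      have h4 := Kle_mul h3 h
      rw [add_zero, ← mul_assoc, show (RatFunc.X ^ (-2 : ℤ) : RatFunc k) * RatFunc.X ^ 2 = 1 by
        rw [zpow_neg]; exact inv_mul_cancel₀ (by simpa using RatFunc.X_ne_zero), one_mul] at h4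
      exact h4
    · intro h
      have h4 := Kle_mul h2 h
      rwa [show (2 : ℤ) + -2 = 0 by norm_num] at h4
  have hTr : ∀ a : F, Algebra.trace (RatFunc k) F ((tF k F) ^ 2 * f * a)
      = RatFunc.X ^ 2 * Algebra.trace (RatFunc k) F (f * a) := by
    intro a
    have : (tF k F) ^ 2 * f * a = (RatFunc.X ^ 2 : RatFunc k) • (f * a) := by
      rw [Algebra.smul_def, map_pow, mul_assoc]
    rw [this, map_smul, smul_eq_mul]
  rw [mem_W2, mem_dual one_neInf]
  constructor
  · intro h a ha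
    obtain ⟨p, hp⟩ := h a (by rw [mem_one_iff]; exact ⟨⟨a, ha⟩, rfl⟩)
    rw [Algebra.traceForm_apply, hTr] at hp
    rw [← hX, ← hp, ← mem_Ainf_iff]
    exact p.2
  · intro h a ha
    rw [mem_one_iff] at ha
    obtain ⟨a', rfl⟩ := ha
    have h1 := (hX _).mpr (h a' a'.2)
    rw [← mem_Ainf_iff] at h1
    refine ⟨⟨_, h1⟩, ?_⟩
    rw [Algebra.traceForm_apply]
    change _ = Algebra.trace (RatFunc k) F ((tF k F) ^ 2 * f * (a' : F))
    rw [hTr]
    rfl

/-- The residue functional on `F`. -/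
noncomputable def resF (r : RatFunc k →ₗ[k] k) : F →ₗ[k] k :=
  r.comp ((Algebra.trace (RatFunc k) F).restrictScalars k)

lemma resF_apply (r : RatFunc k →ₗ[k] k) (f : F) :
    resF r f = r (Algebra.trace (RatFunc k) F f) := rfl

variable {r : RatFunc k →ₗ[k] k}

lemma smul_mem_O0 {p : k[X]} {f : F} (hf : f ∈ O0 k F) :
    algebraMap (RatFunc k) F (algebraMap k[X] (RatFunc k) p) * f ∈ O0 k F := by
  rw [← IsScalarTower.algebraMap_apply]
  exact (O0 k F).mul_mem ((O0 k F).algebraMap_mem p) hf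

lemma smul_mem_Oinf {a : RatFunc k} (ha : a ∈ Ainf k) {f : F} (hf : f ∈ Oinf k F) :
    algebraMap (RatFunc k) F a * f ∈ Oinf k F := by
  have : algebraMap (RatFunc k) F a = algebraMap (Ainf k) F ⟨a, ha⟩ := rfl
  rw [this]
  exact (Oinf k F).mul_mem ((Oinf k F).algebraMap_mem _) hf

lemma resF_ne (hr : IsRes r) : (resF r : F →ₗ[k] k) ≠ 0 := by
  intro h
  obtain ⟨f, hf⟩ := Algebra.trace_surjective (RatFunc k) F (RatFunc.X ^ (-1 : ℤ))
  have h1 := LinearMap.congr_fun h f
  rw [resF_apply, hf, hr.inv] at h1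
  exact one_ne_zero h1

lemma resF_W1 (hr : IsRes r) {f : F} (hf : f ∈ W1 k F) : resF r f = 0 := by
  obtain ⟨p, hp⟩ := mem_W1_iff.mp hf 1 (O0 k F).one_mem
  rw [mul_one] at hp
  rw [resF_apply, hp, hr.poly]

lemma resF_W2 (hr : IsRes r) {f : F} (hf : f ∈ W2 k F) : resF r f = 0 := by
  have h := mem_W2_iff.mp hf 1 (Oinf k F).one_mem
  rw [mul_one] at h
  rw [resF_apply, hr.le _ h]

/-- Every functional vanishing on `O0` and on `t⁻² Oinf` is `res (s ·)`. -/
lemma exists_s (hr : IsRes r) (η : F →ₗ[k] k) (h0 : ∀ f ∈ O0 k F, η f = 0)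
    (hinf : ∀ f ∈ Oinf k F, η (((tF k F) ^ 2)⁻¹ * f) = 0) :
    ∃ s : F, ∀ f, η f = resF r (s * f) := by
  -- the functional `c ↦ η (c f)` on `k(t)`
  have hex : ∀ f : F, ∃ σ : RatFunc k, ∀ c : RatFunc k, η (c • f) = r (c * σ) := by
    intro f
    let θ : RatFunc k →ₗ[k] k :=
      { toFun := fun c => η (c • f)
        map_add' := fun c d => by rw [add_smul, map_add]
        map_smul' := fun a c => by rw [smul_assoc, map_smul, RingHom.id_apply] }
    have halg : IsAlgebraic (RatFunc k) f := Algebra.IsAlgebraic.isAlgebraic f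
    -- denominators
    obtain ⟨p, hp, hpf⟩ := ((IsFractionRing.isAlgebraic_iff k[X] (RatFunc k) F).mpr
      halg).exists_integral_multiple
    obtain ⟨b, hb, hbf⟩ := ((IsFractionRing.isAlgebraic_iff (Ainf k) (RatFunc k) F).mpr
      halg).exists_integral_multiple
    have hp0 : algebraMap k[X] (RatFunc k) p ≠ 0 := by simpa using hp
    have hb0 : (b : RatFunc k) ≠ 0 := fun h => hb (Subtype.ext h)
    obtain ⟨σ, hσ⟩ := dual_P1 hr θ hp0
      (mul_ne_zero (inv_ne_zero (pow_ne_zero 2 RatFunc.X_ne_zero)) hb0)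
      (fun q => by
        change η ((algebraMap k[X] (RatFunc k) q * algebraMap k[X] (RatFunc k) p) • f) = 0
        apply h0
        rw [mul_smul, Algebra.smul_def, IsScalarTower.algebraMap_smul]
        exact smul_mem_O0 hpf)
      (fun a ha => by
        change η ((a * ((RatFunc.X ^ 2)⁻¹ * (b : RatFunc k))) • f) = 0
        have e1 : (a * ((RatFunc.X ^ 2)⁻¹ * (b : RatFunc k))) • f
            = ((tF k F) ^ 2)⁻¹ * (algebraMap (RatFunc k) F a * (b • f)) := by
          have e2 : b • f = algebraMap (RatFunc k) F b * f := by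
            rw [← Algebra.smul_def]; rfl
          rw [Algebra.smul_def, map_mul, map_mul, map_inv₀, map_pow, e2]
          ring
        rw [e1]
        exact hinf _ (smul_mem_Oinf ha hbf))
    exact ⟨σ, hσ⟩
  choose φ hφ using hex
  have huniq : ∀ {σ τ : RatFunc k}, (∀ c, r (c * σ) = r (c * τ)) → σ = τ := by
    intro σ τ h
    rw [← sub_eq_zero]
    apply eq_zero_of_res hr
    intro c
    rw [mul_sub, map_sub, h c, sub_self]
  let Φ : F →ₗ[RatFunc k] RatFunc k :=
    { toFun := φ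
      map_add' := fun f g => huniq (fun c => by
        rw [← hφ, smul_add, map_add, hφ, hφ, mul_add, map_add])
      map_smul' := fun d f => huniq (fun c => by
        rw [← hφ, ← mul_smul, hφ, RingHom.id_apply, smul_eq_mul, mul_assoc]) }
  set s := (LinearMap.BilinForm.toDual (Algebra.traceForm (RatFunc k) F)
    (traceForm_nondegenerate (RatFunc k) F)).symm Φ with hs
  refine ⟨s, fun f => ?_⟩
  have h1 : Algebra.traceForm (RatFunc k) F s f = Φ f := by
    rw [hs, LinearMap.BilinForm.apply_toDual_symm_apply]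
  rw [resF_apply, ← Algebra.traceForm_apply, h1]
  have h2 := hφ f 1
  rw [one_smul, one_mul] at h2
  exact h2

/-- Constants. -/
lemma const_of_mem [IsAlgClosed k] {s : F} (h0 : s ∈ O0 k F) (hinf : s ∈ Oinf k F) :
    ∃ c : k, s = algebraMap k F c := by
  have h1 := minpoly.isIntegrallyClosed_eq_field_fractions' (RatFunc k) (R := k[X]) (S := F) h0
  have h2 := minpoly.isIntegrallyClosed_eq_field_fractions' (RatFunc k) (R := Ainf k) (S := F) hinf
  -- the coefficients are constants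
  have hcoef : ∀ n, ∃ c : k, (minpoly (RatFunc k) s).coeff n = algebraMap k (RatFunc k) c := by
    intro n
    have e1 : (minpoly (RatFunc k) s).coeff n
        = algebraMap k[X] (RatFunc k) ((minpoly k[X] s).coeff n) := by
      rw [h1, Polynomial.coeff_map]
    have e2 : (minpoly (RatFunc k) s).coeff n ∈ Ainf k := by
      rw [h2, Polynomial.coeff_map]
      exact ((minpoly (Ainf k) s).coeff n).2
    rw [e1, mem_Ainf, RatFunc.intDegree_polynomial] at e2
    have e3 : ((minpoly k[X] s).coeff n).natDegree = 0 := by omega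
    refine ⟨((minpoly k[X] s).coeff n).coeff 0, ?_⟩
    rw [e1]
    conv_lhs => rw [Polynomial.eq_C_of_natDegree_eq_zero e3]
    rw [RatFunc.algebraMap_C, RatFunc.algebraMap_eq_C]
  choose c hc using hcoef
  have hint : IsIntegral (RatFunc k) s := Algebra.IsIntegral.isIntegral s
  set P := minpoly (RatFunc k) s with hP
  have hlift : P ∈ Polynomial.lifts (algebraMap k (RatFunc k)) := by
    rw [Polynomial.lifts_iff_coeff_lifts]
    intro n
    exact ⟨c n, (hc n).symm⟩
  obtain ⟨q, hq⟩ := (Polynomial.mem_lifts _).mp hlift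
  have hq0 : q ≠ 0 := by
    rintro rfl
    rw [Polynomial.map_zero] at hq
    exact minpoly.ne_zero hint hq.symm
  have hroot : Polynomial.aeval s q = 0 := by
    have h3 : Polynomial.aeval s P = 0 := minpoly.aeval _ _
    rw [← hq, Polynomial.aeval_map_algebraMap] at h3
    exact h3
  have halg : IsAlgebraic k s := ⟨q, hq0, hroot⟩
  have hints : IsIntegral k s := halg.isIntegral
  obtain ⟨c', hc'⟩ := minpoly.mem_range_of_degree_eq_one k s
    (IsAlgClosed.degree_eq_one_of_irreducible k (minpoly.irreducible hints))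
  exact ⟨c', hc'.symm⟩

/-- `W1` contains `O0`. -/
lemma O0_le_W1 {f : F} (hf : f ∈ O0 k F) : f ∈ W1 k F :=
  one_le_dual_one k[X] (RatFunc k) (by rw [mem_one_iff]; exact ⟨⟨f, hf⟩, rfl⟩)

lemma Oinf_W2 {f : F} (hf : f ∈ Oinf k F) : ((tF k F) ^ 2)⁻¹ * f ∈ W2 k F := by
  rw [mem_W2, ← mul_assoc, mul_inv_cancel₀ (pow_ne_zero _ tF_ne), one_mul]
  exact one_le_dual_one (Ainf k) (RatFunc k) (by rw [mem_one_iff]; exact ⟨⟨f, hf⟩, rfl⟩)

/-- The functions `s` with `res (s W1) = 0` are regular at the finite places. -/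
lemma mem_O0_of_res (hr : IsRes r) {s : F} (h : ∀ w ∈ W1 k F, resF r (s * w) = 0) :
    s ∈ O0 k F := by
  have h1 : s ∈ dual k[X] (RatFunc k) (W1 k F) := by
    rw [mem_dual W1_ne]
    intro w hw
    obtain ⟨p, hp⟩ := poly_of_res hr (g := Algebra.trace (RatFunc k) F (s * w)) (fun j => by
      have h2 : RatFunc.X ^ j * Algebra.trace (RatFunc k) F (s * w)
          = Algebra.trace (RatFunc k) F (s * ((RatFunc.X ^ j : RatFunc k) • w)) := by
        rw [mul_smul_comm, map_smul, smul_eq_mul]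
      rw [h2, ← resF_apply]
      apply h
      have h3 : ((RatFunc.X ^ j : RatFunc k) • w)
          = (algebraMap k[X] (O0 k F) (Polynomial.X ^ j)) • w := by
        rw [IsScalarTower.algebraMap_smul, Algebra.smul_def, Algebra.smul_def,
          IsScalarTower.algebraMap_apply k[X] (RatFunc k) F, map_pow (algebraMap k[X] (RatFunc k)),
          RatFunc.algebraMap_X]
      rw [h3]
      exact Submodule.smul_mem (W1 k F : FractionalIdeal (O0 k F)⁰ F).1 _ hw)
    exact ⟨p, hp.symm⟩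
  rw [W1, dual_dual, mem_one_iff] at h1
  obtain ⟨a, ha⟩ := h1
  rw [← ha]
  exact a.2

lemma mem_Oinf_of_res (hr : IsRes r) {s : F} (h : ∀ w ∈ W2 k F, resF r (s * w) = 0) :
    s ∈ Oinf k F := by
  have h1 : s ∈ dual (Ainf k) (RatFunc k) (dual (Ainf k) (RatFunc k)
      (1 : FractionalIdeal (Oinf k F)⁰ F)) := by
    rw [mem_dual (dual_ne_zero (Ainf k) (RatFunc k) one_neInf)]
    intro w hw
    rw [Algebra.traceForm_apply]
    have hmem : Algebra.trace (RatFunc k) F (s * w) ∈ Ainf k := by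
      rw [mem_Ainf_iff]
      have h2 : (RatFunc.X ^ (-2 : ℤ) : RatFunc k) * Algebra.trace (RatFunc k) F (s * w)
          ∈ Kle k (-2) := by
        apply Kle_of_res hr
        intro a ha
        have h3 : a * (RatFunc.X ^ (-2 : ℤ) * Algebra.trace (RatFunc k) F (s * w))
            = Algebra.trace (RatFunc k) F
              (s * (algebraMap (RatFunc k) F a * (((tF k F) ^ 2)⁻¹ * w))) := by
          have h4 : s * (algebraMap (RatFunc k) F a * (((tF k F) ^ 2)⁻¹ * w))
              = (a * RatFunc.X ^ (-2 : ℤ)) • (s * w) := by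
            rw [Algebra.smul_def, map_mul, zpow_neg, map_inv₀]
            have : (algebraMap (RatFunc k) F) (RatFunc.X ^ (2 : ℤ)) = (tF k F) ^ 2 := by
              rw [← map_pow]; norm_cast
            rw [this]
            ring
          rw [h4, map_smul, smul_eq_mul]
          ring
        rw [h3, ← resF_apply]
        apply h
        have h5 : ((tF k F) ^ 2)⁻¹ * w ∈ W2 k F := by
          rw [mem_W2, ← mul_assoc, mul_inv_cancel₀ (pow_ne_zero _ tF_ne), one_mul]
          exact hw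
        have h6 : algebraMap (RatFunc k) F a * (((tF k F) ^ 2)⁻¹ * w)
            = (algebraMap (Ainf k) (Oinf k F) ⟨a, ha⟩) • (((tF k F) ^ 2)⁻¹ * w) := by
          rw [IsScalarTower.algebraMap_smul, Algebra.smul_def]
          rfl
        rw [h6]
        exact Submodule.smul_mem (W2 k F : FractionalIdeal (Oinf k F)⁰ F).1 _ h5
      have h7 : (RatFunc.X ^ (2 : ℤ) : RatFunc k) ∈ Kle k 2 := by
        right; rw [intDegree_zpow]
      have h8 := Kle_mul h7 h2
      rw [← mul_assoc, ← zpow_add₀ RatFunc.X_ne_zero] at h8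
      norm_num at h8
      exact h8
    exact ⟨⟨_, hmem⟩, rfl⟩
  rw [dual_dual, mem_one_iff] at h1
  obtain ⟨a, ha⟩ := h1
  rw [← ha]
  exact a.2

lemma mem_W1_of_res (hr : IsRes r) {s : F} (h : ∀ a ∈ O0 k F, resF r (s * a) = 0) :
    s ∈ W1 k F := by
  rw [mem_W1_iff]
  intro a ha
  apply poly_of_res hr
  intro j
  have h2 : RatFunc.X ^ j * Algebra.trace (RatFunc k) F (s * a)
      = Algebra.trace (RatFunc k) F (s * ((RatFunc.X ^ j : RatFunc k) • a)) := by
    rw [mul_smul_comm, map_smul, smul_eq_mul]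
  rw [h2, ← resF_apply]
  apply h
  rw [Algebra.smul_def, ← RatFunc.algebraMap_X, ← map_pow]
  exact smul_mem_O0 ha

lemma mem_W2_of_res (hr : IsRes r) {s : F} (h : ∀ a ∈ Oinf k F, resF r (s * a) = 0) :
    s ∈ W2 k F := by
  rw [mem_W2_iff]
  intro a ha
  apply Kle_of_res hr
  intro b hb
  have h2 : b * Algebra.trace (RatFunc k) F (s * a)
      = Algebra.trace (RatFunc k) F (s * (algebraMap (RatFunc k) F b * a)) := by
    have h3 : s * (algebraMap (RatFunc k) F b * a) = b • (s * a) := by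
      rw [Algebra.smul_def]; ring
    rw [h3, map_smul, smul_eq_mul]
  rw [h2, ← resF_apply]
  exact h _ (smul_mem_Oinf hb ha)

/-- The kernel of the residue. -/
theorem F1_curve [IsAlgClosed k] (hr : IsRes r) (c : F) (hc : resF r c = 0) :
    ∃ α ∈ pw k (W1 k F) 1, ∃ β ∈ pw k (W2 k F) 1, c = α + β := by
  by_contra hcon
  have hmem : c ∉ pw k (W1 k F) 1 ⊔ pw k (W2 k F) 1 := by
    intro h
    obtain ⟨α, hα, β, hβ, hab⟩ := Submodule.mem_sup.mp h
    exact hcon ⟨α, hα, β, hβ, hab.symm⟩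
  obtain ⟨η, hη, hle⟩ := Submodule.exists_le_ker_of_notMem hmem
  obtain ⟨s, hs⟩ := exists_s hr η
    (fun f hf => hle (Submodule.mem_sup_left (mem_pw_one.mpr (O0_le_W1 hf))))
    (fun f hf => hle (Submodule.mem_sup_right (mem_pw_one.mpr (Oinf_W2 hf))))
  have h0 : s ∈ O0 k F := mem_O0_of_res hr (fun w hw => by
    rw [← hs]; exact hle (Submodule.mem_sup_left (mem_pw_one.mpr hw)))
  have hinf : s ∈ Oinf k F := mem_Oinf_of_res hr (fun w hw => by
    rw [← hs]; exact hle (Submodule.mem_sup_right (mem_pw_one.mpr hw)))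
  obtain ⟨d, hd⟩ := const_of_mem h0 hinf
  apply hη
  rw [hs, hd, ← Algebra.smul_def, map_smul, hc, smul_zero]

theorem F2_curve (hr : IsRes r) (c : F)
    (hc : ∀ u ∈ pw k (W1 k F) 1 ⊓ pw k (W2 k F) 1, resF r (u * c) = 0) :
    ∃ α ∈ pw k (W1 k F) 0, ∃ β ∈ pw k (W2 k F) 0, c = α + β := by
  by_contra hcon
  have hmem : c ∉ pw k (W1 k F) 0 ⊔ pw k (W2 k F) 0 := by
    intro h
    obtain ⟨α, hα, β, hβ, hab⟩ := Submodule.mem_sup.mp h
    exact hcon ⟨α, hα, β, hβ, hab.symm⟩
  obtain ⟨η, hη, hle⟩ := Submodule.exists_le_ker_of_notMem hmem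
  have hA : ∀ f ∈ O0 k F, η f = 0 := fun f hf => hle (Submodule.mem_sup_left
    (mem_pw_zero.mpr (by rw [mem_one_iff]; exact ⟨⟨f, hf⟩, rfl⟩)))
  have hB : ∀ f ∈ Oinf k F, η f = 0 := fun f hf => hle (Submodule.mem_sup_right
    (mem_pw_zero.mpr (by rw [mem_one_iff]; exact ⟨⟨f, hf⟩, rfl⟩)))
  have hinv : (RatFunc.X ^ 2 : RatFunc k)⁻¹ ∈ Ainf k := by
    rw [mem_Ainf, RatFunc.intDegree_inv]
    have : (RatFunc.X ^ 2 : RatFunc k).intDegree = 2 := by
      rw [show (RatFunc.X ^ 2 : RatFunc k) = RatFunc.X ^ (2 : ℤ) by norm_cast, intDegree_zpow]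
    omega
  obtain ⟨s, hs⟩ := exists_s hr η hA (fun f hf => by
    apply hB
    have := smul_mem_Oinf hinv hf
    rwa [map_inv₀, map_pow] at this)
  have h1 : s ∈ W1 k F := mem_W1_of_res hr (fun a ha => by rw [← hs]; exact hA a ha)
  have h2 : s ∈ W2 k F := mem_W2_of_res hr (fun a ha => by rw [← hs]; exact hB a ha)
  apply hη
  rw [hs]
  exact hc s ⟨mem_pw_one.mpr h1, mem_pw_one.mpr h2⟩

/-- A curve has a base point free pencil of differentials and the duality modulo it. -/
theorem exists_pencil [IsAlgClosed k] (hg : 2 ≤ genus k F) :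
    ∃ x y, LinearIndependent k ![x, y] ∧ ∃ ψ : F →ₗ[k] k, Pencil k (HK k F) x y ψ := by
  obtain ⟨r, hr⟩ := exists_res (k := k)
  have e1 : HK k F 1 = pw k (W1 k F) 1 ⊓ pw k (W2 k F) 1 := HK_eq 1
  have h2 : 2 ≤ finrank k ↥(pw k (W1 k F) 1 ⊓ pw k (W2 k F) 1) := by
    rw [← e1]; exact hg
  have hfin : FiniteDimensional k ↥(pw k (W1 k F) 1 ⊓ pw k (W2 k F) 1) :=
    FiniteDimensional.of_finrank_pos (by omega)
  obtain ⟨x, y, hli, hT⟩ := exists_twoCharts (k := k) (W₁ := W1 k F) (W₂ := W2 k F) W1_ne W2_ne h2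
    (resF_ne hr) (fun f hf => resF_W1 hr (mem_pw_one.mp hf))
    (fun f hf => resF_W2 hr (mem_pw_one.mp hf)) (F1_curve hr) (F2_curve hr)
  obtain ⟨ψ, hψ⟩ := pencil_of hT
  refine ⟨x, y, hli, ψ, ?_⟩
  have : (fun n => pw k (W1 k F) n ⊓ pw k (W2 k F) n) = HK k F := by
    funext q
    exact (HK_eq q).symm
  rw [← this]
  exact hψ

end Pool.Agent.GrC
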