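import Mathlib
import Pool.Agent.GrC.Core

/-!
Dimension of the Koszul homology of degree `(s+1, 2)` modulo two.
-/

set_option autoImplicit false

namespace Pool.Agent.GrC

open Finset Module

variable {k F : Type*} [Field k] [Field F] [Algebra k F] {ι : Type*} [DecidableEq ι] [Fintype ι]

section za

variable (k) (a b : ι)

lemma ins_mem {s : ℕ} {J T : Finset ι} (hT : T ∈ powersetCard s J) {j : ι} (hj : j ∈ J \ T) :
    insert j T ∈ powersetCard (s + 1) J := by
  have h1 := mem_powersetCard.mp hT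
  have h2 := mem_sdiff.mp hj
  exact mem_powersetCard.mpr ⟨insert_subset h2.1 h1.1, by
    rw [card_insert_of_notMem h2.2, h1.2]⟩

/-- The last map. -/
def deltaA (s : ℕ) : (↥(powersetCard (s + 1) (JJ a b)) → ↥(JJ a b) → k) →ₗ[k]
    (↥(powersetCard s (JJ a b)) → k) where
  toFun u T := ∑ j ∈ (JJ a b \ T.1).attach, u ⟨insert j.1 T.1, ins_mem T.2 j.2⟩
    ⟨j.1, (mem_sdiff.mp j.2).1⟩
  map_add' u v := by
    funext T
    simp [sum_add_distrib]
  map_smul' c u := by
    funext T
    simp [mul_sum]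

lemma ker_deltaA (s : ℕ) : LinearMap.ker (deltaA k a b s) = ZA k a b s := by
  ext u
  constructor
  · intro hu T hT
    exact congrFun (LinearMap.mem_ker.mp hu) ⟨T, hT⟩
  · intro hu
    refine LinearMap.mem_ker.mpr (funext fun T => ?_)
    exact hu T.1 T.2

lemma deltaA_surj (s : ℕ) (hs : s < (JJ a b).card) : Function.Surjective (deltaA k a b s) := by
  classical
  intro r
  -- a chosen element outside
  have hex : ∀ T : Finset ι, ∃ c : ι, T ∈ powersetCard s (JJ a b) → c ∈ JJ a b \ T := by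
    intro T
    by_cases hT : T ∈ powersetCard s (JJ a b)
    · have h1 := mem_powersetCard.mp hT
      have h2 : (JJ a b \ T).Nonempty := by
        rw [← card_pos, card_sdiff_of_subset h1.1, h1.2]
        omega
      obtain ⟨c, hc⟩ := h2
      exact ⟨c, fun _ => hc⟩
    · exact ⟨a, fun h => absurd h hT⟩
  choose c hc using hex
  refine ⟨fun T i => if h : i.1 ∈ T.1 ∧ c (T.1.erase i.1) = i.1 ∧
    T.1.erase i.1 ∈ powersetCard s (JJ a b) then r ⟨T.1.erase i.1, h.2.2⟩ else 0, ?_⟩
  funext T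
  change ∑ j ∈ (JJ a b \ T.1).attach, _ = _
  have hcT := hc T.1 T.2
  rw [Finset.sum_eq_single ⟨c T.1, hcT⟩]
  · have e1 : (insert (c T.1) T.1).erase (c T.1) = T.1 := erase_insert (mem_sdiff.mp hcT).2
    have h : c T.1 ∈ insert (c T.1) T.1 ∧ c ((insert (c T.1) T.1).erase (c T.1)) = c T.1 ∧
        (insert (c T.1) T.1).erase (c T.1) ∈ powersetCard s (JJ a b) := by
      rw [e1]
      exact ⟨mem_insert_self _ _, rfl, T.2⟩
    refine (dif_pos h).trans ?_
    congr 1
    exact Subtype.ext e1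
  · intro j _ hj
    refine dif_neg ?_
    rintro ⟨-, h2, -⟩
    have e1 : (insert j.1 T.1).erase j.1 = T.1 := erase_insert (mem_sdiff.mp j.2).2
    simp only at h2
    rw [e1] at h2
    exact hj (Subtype.ext h2.symm)
  · intro h
    exact absurd (mem_attach _ _) h

lemma finrank_ZA (s : ℕ) (hs : s < (JJ a b).card) :
    finrank k (ZA k a b s) + (JJ a b).card.choose s
      = (JJ a b).card * (JJ a b).card.choose (s + 1) := by
  have h := LinearMap.finrank_range_add_finrank_ker (deltaA k a b s)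
  rw [LinearMap.range_eq_top.mpr (deltaA_surj k a b s hs), finrank_top, ker_deltaA] at h
  have h1 : finrank k (↥(powersetCard s (JJ a b)) → k) = (JJ a b).card.choose s := by
    rw [Module.finrank_fintype_fun_eq_card, Fintype.card_coe, card_powersetCard]
  have h2 : finrank k (↥(powersetCard (s + 1) (JJ a b)) → ↥(JJ a b) → k)
      = (JJ a b).card * (JJ a b).card.choose (s + 1) := by
    rw [Module.finrank_pi_fintype, sum_const, Module.finrank_fintype_fun_eq_card, Fintype.card_coe,
      card_univ, Fintype.card_coe, card_powersetCard, smul_eq_mul, mul_comm]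
  rw [h1, h2] at h
  omega

end za

section form

variable {L : ℕ → Submodule k F} {x y : F} {ψ : F →ₗ[k] k} {a b : ι} {e : ι → F}

/-- The bilinear form on the chains of degree `(s+2, 1)`. -/
def BF (L : ℕ → Submodule k F) (ψ : F →ₗ[k] k) (a b : ι) (e : ι → F) (s : ℕ) :
    ↥(Ch L ι (s + 2) 1) →ₗ[k] ↥(Ch L ι (s + 2) 1) →ₗ[k] k :=
  LinearMap.mk₂ k (fun w w' => ∑ T ∈ powersetCard (s + 1) (JJ a b),
      ψ (dd e w.1 T * w'.1 (JJ a b \ T)))
    (fun w1 w2 w' => by
      rw [← sum_add_distrib]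
      refine sum_congr rfl (fun T _ => ?_)
      have : dd e (w1 + w2 : ↥(Ch L ι (s + 2) 1)).1 T = dd e w1.1 T + dd e w2.1 T :=
        dJ_add univ e w1.1 w2.1 T
      rw [this, add_mul, map_add])
    (fun c w w' => by
      rw [smul_sum]
      refine sum_congr rfl (fun T _ => ?_)
      have : dd e (c • w : ↥(Ch L ι (s + 2) 1)).1 T = c • dd e w.1 T :=
        congrFun (map_smul (ddL k e) c w.1) T
      rw [this, smul_mul_assoc, map_smul])
    (fun w w1 w2 => by
      rw [← sum_add_distrib]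
      refine sum_congr rfl (fun T _ => ?_)
      have : (w1 + w2 : ↥(Ch L ι (s + 2) 1)).1 (JJ a b \ T)
        = w1.1 (JJ a b \ T) + w2.1 (JJ a b \ T) := rfl
      rw [this, mul_add, map_add])
    (fun c w w' => by
      rw [smul_sum]
      refine sum_congr rfl (fun T _ => ?_)
      have : (c • w' : ↥(Ch L ι (s + 2) 1)).1 (JJ a b \ T) = c • w'.1 (JJ a b \ T) := rfl
      rw [this, mul_smul_comm, map_smul])

lemma BF_apply (s : ℕ) (w w' : ↥(Ch L ι (s + 2) 1)) :
    BF L ψ a b e s w w' = ∑ T ∈ powersetCard (s + 1) (JJ a b),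
      ψ (dd e w.1 T * w'.1 (JJ a b \ T)) := rfl

lemma psi_dd (hP : Pencil k L x y ψ) (hab : a ≠ b) (hea : e a = x) (heb : e b = y)
    {w : Finset ι → F} (hw : ∀ S, w S ∈ L 1) {u : F} (hu : u ∈ L 1) {T : Finset ι}
    (hT : T ⊆ JJ a b) : ψ (dd e w T * u) = ∑ j ∈ JJ a b \ T, ψ (e j * (w (insert j T) * u)) := by
  rw [dd_J hab e w hT, hea, heb, add_mul, add_mul, map_add, map_add]
  have h1 : ψ (x * w (insert a T) * u) = 0 := by
    rw [mul_assoc]
    exact psi_x hP (hP.mul_mem 1 1 _ _ (hw _) hu)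
  have h2 : ψ (y * w (insert b T) * u) = 0 := by
    rw [mul_assoc]
    exact psi_y hP (hP.mul_mem 1 1 _ _ (hw _) hu)
  rw [h1, h2, add_zero, add_zero, dJ, sum_mul, map_sum]
  exact sum_congr rfl (fun j _ => by rw [mul_assoc])

/-- The form is alternating in characteristic two. -/
lemma BF_alt [CharP k 2] (hP : Pencil k L x y ψ) (hab : a ≠ b) (hea : e a = x) (heb : e b = y)
    (s : ℕ) (hJ : (JJ a b).card = 2 * s + 3) (w : ↥(Ch L ι (s + 2) 1)) :
    BF L ψ a b e s w w = 0 := by
  rw [BF_apply]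
  have h1 : ∀ T ∈ powersetCard (s + 1) (JJ a b), ψ (dd e w.1 T * w.1 (JJ a b \ T))
      = ∑ j ∈ JJ a b \ T, ψ (e j * (w.1 (insert j T) * w.1 (JJ a b \ T))) := fun T hT =>
    psi_dd hP hab hea heb w.2.1 (w.2.1 _) (mem_powersetCard.mp hT).1
  rw [sum_congr rfl h1, sum_sigma']
  refine sum_involution (fun p _ => ⟨(JJ a b \ p.1).erase p.2, p.2⟩) ?_ ?_ ?_ ?_
  · rintro ⟨T, j⟩ hp
    simp only [mem_sigma, mem_powersetCard, mem_sdiff] at hp
    have e1 : insert j ((JJ a b \ T).erase j) = JJ a b \ T :=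
      insert_erase (mem_sdiff.mpr hp.2)
    have e2 : JJ a b \ (JJ a b \ T).erase j = insert j T := by
      ext i
      simp only [mem_sdiff, mem_erase, mem_insert]
      constructor
      · rintro ⟨h1, h2⟩
        by_cases hij : i = j
        · exact Or.inl hij
        · right
          by_contra h3
          exact h2 ⟨hij, h1, h3⟩
      · rintro (h | h)
        · subst h; exact ⟨hp.2.1, fun hc => hc.1 rfl⟩
        · exact ⟨hp.1.1 h, fun hc => hc.2.2 h⟩
    simp only
    rw [e1, e2, mul_comm (w.1 (JJ a b \ T))]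
    exact CharTwo.add_self_eq_zero _
  · rintro ⟨T, j⟩ hp _ hc
    simp only [mem_sigma, mem_powersetCard, mem_sdiff] at hp
    have h2 : (JJ a b \ T).erase j = T := (Sigma.mk.inj_iff.mp hc).1
    have h3 : T.Nonempty := by rw [← card_pos, hp.1.2]; omega
    obtain ⟨i, hi⟩ := h3
    have h4 : i ∈ (JJ a b \ T).erase j := by rw [h2]; exact hi
    exact (mem_sdiff.mp (mem_of_mem_erase h4)).2 hi
  · rintro ⟨T, j⟩ hp
    simp only [mem_sigma, mem_powersetCard, mem_sdiff] at hp ⊢
    refine ⟨⟨fun i hi => (mem_sdiff.mp (mem_of_mem_erase hi)).1, ?_⟩, hp.2.1, ?_⟩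
    · rw [card_erase_of_mem (mem_sdiff.mpr hp.2), card_sdiff_of_subset hp.1.1, hp.1.2, hJ]
      omega
    · intro h
      exact (mem_erase.mp h).1 rfl
  · rintro ⟨T, j⟩ hp
    simp only [mem_sigma, mem_powersetCard, mem_sdiff] at hp
    have e2 : (JJ a b \ (JJ a b \ T).erase j).erase j = T := by
      ext i
      simp only [mem_sdiff, mem_erase]
      constructor
      · rintro ⟨h0, h1, h2⟩
        by_contra h3
        exact h2 ⟨h0, h1, h3⟩
      · intro h
        refine ⟨fun hc => hp.2.2 (hc ▸ h), hp.1.1 h, fun hc => hc.2.2 h⟩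
    simp only [e2]

lemma ker_BF (hP : Pencil k L x y ψ) (hea : e a = x) (heb : e b = y)
    (he : ∀ i, e i ∈ L 1) (hsp : ∀ u ∈ L 1, u ∈ Submodule.span k (Set.range e))
    (s : ℕ) (hJ : (JJ a b).card = 2 * s + 3) :
    LinearMap.ker (BF L ψ a b e s) = LinearMap.ker
      ((Th ψ a b e (s + 1)).comp ((ddL k e).comp (Ch L ι (s + 2) 1).subtype)) := by
  classical
  have hspan : ∀ v ∈ Submodule.span k (Set.range e), v ∈ L 1 := by
    intro v hv
    refine Submodule.span_le.mpr ?_ hv
    rintro _ ⟨i, rfl⟩; exact he i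
  ext w
  rw [LinearMap.mem_ker, LinearMap.mem_ker]
  constructor
  · intro h
    funext T i
    have hT := mem_powersetCard.mp T.2
    have hcard : (JJ a b \ T.1).card = s + 2 := by
      rw [card_sdiff_of_subset hT.1, hT.2, hJ]; omega
    let w' : ↥(Ch L ι (s + 2) 1) := ⟨fun S => if S = JJ a b \ T.1 then e i else 0, by
      refine ⟨fun S => ?_, fun S hS => ?_⟩
      · simp only
        split_ifs
        · exact he _
        · exact (L 1).zero_mem
      · simp only
        rw [if_neg]
        rintro rfl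
        exact hS hcard⟩
    have h1 := LinearMap.congr_fun h w'
    rw [BF_apply, LinearMap.zero_apply, sum_eq_single T.1] at h1
    · simp only [w', if_true] at h1
      simp only [LinearMap.comp_apply, Th_apply, Submodule.subtype_apply, ddL_apply, Pi.zero_apply]
      rw [mul_comm]
      exact h1
    · intro T' hT' hne
      simp only [w']
      rw [if_neg, mul_zero, map_zero]
      intro hc
      apply hne
      have hT'' := mem_powersetCard.mp hT'
      rw [← Finset.sdiff_sdiff_eq_self hT''.1, hc, Finset.sdiff_sdiff_eq_self hT.1]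
    · intro hc
      exact absurd T.2 hc
  · intro h
    apply LinearMap.ext
    intro w'
    rw [BF_apply, LinearMap.zero_apply]
    refine sum_eq_zero (fun T hT => ?_)
    have h2 : ∀ u ∈ Submodule.span k (Set.range e), ψ (dd e w.1 T * u) = 0 := by
      intro u hu
      induction hu using Submodule.span_induction with
      | mem v hv =>
        obtain ⟨i, rfl⟩ := hv
        by_cases hi : i ∈ JJ a b
        · have := congrFun (congrFun h ⟨T, hT⟩) ⟨i, hi⟩
          simp only [LinearMap.comp_apply, Th_apply, Submodule.subtype_apply, ddL_apply,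
            Pi.zero_apply] at this
          rw [mul_comm]
          exact this
        · have hmem : dd e w.1 T ∈ L 2 := by
            have h3 := dd_mem_Ch hP he (i := s + 1) w.2
            exact h3.1 T
          by_cases hia : i = a
          · rw [hia, hea, mul_comm]; exact psi_x hP hmem
          · have hib : i = b := by
              by_contra hib
              exact hi (mem_JJ.mpr ⟨hib, hia⟩)
            rw [hib, heb, mul_comm]; exact psi_y hP hmem
      | zero => simp
      | add v v' _ _ h3 h4 => rw [mul_add, map_add, h3, h4, add_zero]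
      | smul c v _ h3 => rw [mul_smul_comm, map_smul, h3, smul_zero]
    exact h2 _ (hsp _ (w'.2.1 _))

lemma finite_Ch [FiniteDimensional k (L 1)] (i : ℕ) : FiniteDimensional k (Ch L ι i 1) := by
  let φ : ↥(Ch L ι i 1) →ₗ[k] (Finset ι → L 1) :=
    { toFun := fun w S => ⟨w.1 S, w.2.1 S⟩
      map_add' := fun _ _ => rfl
      map_smul' := fun _ _ => rfl }
  refine FiniteDimensional.of_injective φ ?_
  intro w w' h
  apply Subtype.ext
  funext S
  exact congrArg Subtype.val (congrFun h S)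

lemma even_range [CharP k 2] [FiniteDimensional k (L 1)]
    (hP : Pencil k L x y ψ) (hab : a ≠ b) (hea : e a = x) (heb : e b = y)
    (he : ∀ i, e i ∈ L 1) (hsp : ∀ u ∈ L 1, u ∈ Submodule.span k (Set.range e))
    (s : ℕ) (hJ : (JJ a b).card = 2 * s + 3) :
    ∃ r, finrank k ((Bc L e (s + 1) 1).map (Th ψ a b e (s + 1))) = 2 * r := by
  have hfin : FiniteDimensional k (Ch L ι (s + 2) 1) := finite_Ch (s + 2)
  obtain ⟨r, hr⟩ := alt_rank_aux k _ (Ch L ι (s + 2) 1) (BF L ψ a b e s)
    (BF_alt hP hab hea heb s hJ) rfl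
  refine ⟨r, ?_⟩
  have h := LinearMap.finrank_range_add_finrank_ker
    ((Th ψ a b e (s + 1)).comp ((ddL k e).comp (Ch L ι (s + 2) 1).subtype))
  rw [ker_BF hP hea heb he hsp s hJ] at hr
  have h2 : LinearMap.range ((Th ψ a b e (s + 1)).comp
      ((ddL k e).comp (Ch L ι (s + 2) 1).subtype)) =
      (Bc L e (s + 1) 1).map (Th ψ a b e (s + 1)) := by
    rw [LinearMap.range_comp, LinearMap.range_comp, Submodule.range_subtype]
    rfl
  rw [h2] at h
  omega

lemma Bc_le_Zc [CharP F 2] (hP : Pencil k L x y ψ) (he : ∀ i, e i ∈ L 1) (i : ℕ) :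
    Bc L e (i + 1) 1 ≤ Zc L e (i + 1) 2 := by
  rintro _ ⟨w, hw, rfl⟩
  refine ⟨dd_mem_Ch hP he hw, ?_⟩
  refine LinearMap.mem_ker.mpr (funext fun T => ?_)
  exact dJ_dJ univ e w T

/-- The dimension of the homology in degree `(s+1, 2)`, modulo two. -/
theorem finrank_homology [CharP k 2] [CharP F 2] [FiniteDimensional k (L 1)]
    (hP : Pencil k L x y ψ) (hab : a ≠ b) (hea : e a = x) (heb : e b = y)
    (he : ∀ i, e i ∈ L 1) (hli : LinearIndependent k e)
    (hsp : ∀ u ∈ L 1, u ∈ Submodule.span k (Set.range e))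
    (s : ℕ) (hJ : (JJ a b).card = 2 * s + 3) :
    ∃ r, finrank k (↥(Zc L e (s + 1) 2) ⧸ (Bc L e (s + 1) 1).submoduleOf (Zc L e (s + 1) 2))
      + 2 * r + (2 * s + 3).choose s = (2 * s + 3) * (2 * s + 3).choose (s + 1) := by
  obtain ⟨r, hr⟩ := even_range hP hab hea heb he hsp s hJ
  refine ⟨r, ?_⟩
  have hZA := finrank_ZA k a b s (by omega)
  rw [hJ] at hZA
  set Z := Zc L e (s + 1) 2 with hZ
  set B := Bc L e (s + 1) 1 with hB
  let θ : Z →ₗ[k] ↥(ZA k a b s) := ((Th ψ a b e (s + 1)).comp Z.subtype).codRestrict _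
    (fun z => Th_mem_ZA hP hab hea heb z.2)
  set R : Submodule k ↥(ZA k a b s) := (B.map (Th ψ a b e (s + 1))).submoduleOf (ZA k a b s) with hR
  have hBle : B.map (Th ψ a b e (s + 1)) ≤ ZA k a b s := by
    rintro _ ⟨z, hz, rfl⟩
    exact Th_mem_ZA hP hab hea heb (Bc_le_Zc hP he s hz)
  let φ : Z →ₗ[k] (↥(ZA k a b s) ⧸ R) := R.mkQ.comp θ
  have hφs : Function.Surjective φ := by
    refine (Submodule.mkQ_surjective R).comp ?_
    rintro ⟨u, hu⟩
    obtain ⟨z, hz, hzu⟩ := exists_cycle hP hab hea heb he hli hu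
    exact ⟨⟨z, hz⟩, Subtype.ext hzu⟩
  have hφk : LinearMap.ker φ = B.submoduleOf Z := by
    ext z
    rw [LinearMap.mem_ker]
    change R.mkQ (θ z) = 0 ↔ _
    rw [Submodule.mkQ_apply, Submodule.Quotient.mk_eq_zero]
    constructor
    · intro h
      obtain ⟨w, hw, hwz⟩ := h
      have hwz' : Th ψ a b e (s + 1) w = Th ψ a b e (s + 1) z.1 := hwz
      have hd : Th ψ a b e (s + 1) (z.1 - w) = 0 := by rw [map_sub, hwz', sub_self]
      have hzw : z.1 - w ∈ Z := Z.sub_mem z.2 (Bc_le_Zc hP he s hw)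
      have h3 := boundary_of_Th hP hab hea heb he hsp hzw hd
      have h4 : z.1 = (z.1 - w) + w := by abel
      change z.1 ∈ B
      rw [h4]
      exact B.add_mem h3 hw
    · intro h
      exact ⟨z.1, h, rfl⟩
  have e1 : (↥Z ⧸ B.submoduleOf Z) ≃ₗ[k] (↥(ZA k a b s) ⧸ R) :=
    (Submodule.quotEquivOfEq _ _ hφk.symm).trans (φ.quotKerEquivOfSurjective hφs)
  have h1 := Submodule.finrank_quotient_add_finrank R
  have h2 : finrank k R = finrank k (B.map (Th ψ a b e (s + 1))) :=
    LinearEquiv.finrank_eq (Submodule.submoduleOfEquivOfLe hBle)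
  rw [e1.finrank_eq]
  omega

end form

end Pool.Agent.GrC
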