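import Mathlib
import Pool.Agent.GrC.Defs
import Pool.Agent.GrC.Dim

/-!
The Koszul complex in coordinates, characteristic two.
-/

set_option autoImplicit false

namespace Pool.Agent.GrC

open Finset Module TensorProduct

section general

variable {k V M N : Type*} [Field k] [AddCommGroup V] [Module k V] [AddCommGroup M] [Module k M]
  [AddCommGroup N] [Module k N] {n : ℕ}

/-- The basis of the exterior power. -/
noncomputable def bE (b : Basis (Fin n) k V) (i : ℕ) :
    Basis (Set.powersetCard (Fin n) i) k (ExtP k V i) := b.exteriorPower i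

lemma bE_apply (b : Basis (Fin n) k V) (i : ℕ) (S : Set.powersetCard (Fin n) i) :
    bE b i S = wedge k V i (b ∘ (S.1.orderEmbOfFin S.2)) := by
  change (b.exteriorPower i) S = _
  rw [exteriorPower.basis_apply]
  rfl

lemma add_self_mod [CharP k 2] (t : M) : t + t = 0 := by
  rw [← two_smul k t, show (2 : k) = 0 from CharTwo.two_eq_zero, zero_smul]

lemma neg_eq_mod [CharP k 2] (t : M) : -t = t := by
  have := add_self_mod (k := k) t
  exact neg_eq_of_add_eq_zero_left this

lemma sign_smul_mod [CharP k 2] (u : ℤˣ) (t : M) : u • t = t := by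
  rcases Int.units_eq_one_or u with h | h
  · rw [h, one_smul]
  · rw [h, Units.neg_smul, one_smul]; exact neg_eq_mod (k := k) t

/-- In characteristic two the order of the factors does not matter. -/
lemma wedge_of_inj [CharP k 2] (b : Basis (Fin n) k V) {i : ℕ} (f : Fin i → Fin n)
    (hf : Function.Injective f) (S : Set.powersetCard (Fin n) i) (hS : univ.image f = S.1) :
    wedge k V i (b ∘ f) = bE b i S := by
  rw [bE_apply]
  set g := S.1.orderEmbOfFin S.2 with hg
  have hgr : ∀ x, x ∈ S.1 ↔ ∃ a, g a = x := by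
    intro x
    have := Finset.range_orderEmbOfFin S.1 S.2
    rw [← Finset.mem_coe, ← this, Set.mem_range]
  have hex : ∀ a : Fin i, ∃ c : Fin i, g c = f a := by
    intro a
    have : f a ∈ S.1 := by rw [← hS]; exact mem_image_of_mem f (mem_univ a)
    exact (hgr _).mp this
  choose σ hσ using hex
  have hinj : Function.Injective σ := by
    intro a c h
    apply hf
    rw [← hσ, ← hσ, h]
  let τ : Equiv.Perm (Fin i) := Equiv.ofBijective σ (Finite.injective_iff_bijective.mp hinj)
  have h1 : b ∘ f = (b ∘ g) ∘ τ := by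
    funext a
    simp only [Function.comp_apply]
    rw [← hσ a]
    rfl
  rw [h1, AlternatingMap.map_perm]
  exact sign_smul_mod (k := k) _ _

/-- Coordinates. -/
noncomputable def TE (b : Basis (Fin n) k V) (i : ℕ) (M : Type*) [AddCommGroup M] [Module k M] :
    ExtP k V i ⊗[k] M ≃ₗ[k] (Set.powersetCard (Fin n) i →₀ M) :=
  TensorProduct.equivFinsuppOfBasisLeft (bE b i)

lemma TE_tmul (b : Basis (Fin n) k V) (i : ℕ) (S : Set.powersetCard (Fin n) i) (m : M) :
    TE b i M (bE b i S ⊗ₜ m) = Finsupp.single S m := by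
  classical
  rw [TE]
  ext T
  rw [TensorProduct.equivFinsuppOfBasisLeft_apply_tmul_apply, Basis.repr_self]
  rw [Finsupp.single_apply, Finsupp.single_apply]
  split_ifs <;> simp

/-- Coordinates as functions of all finite sets. -/
noncomputable def CF (b : Basis (Fin n) k V) (i : ℕ) (M : Type*) [AddCommGroup M] [Module k M] :
    ExtP k V i ⊗[k] M →ₗ[k] (Finset (Fin n) → M) where
  toFun t S := if h : S.card = i then TE b i M t ⟨S, h⟩ else 0
  map_add' t u := by
    funext S
    simp only [Pi.add_apply]
    split_ifs <;> simp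
  map_smul' c t := by
    funext S
    simp only [Pi.smul_apply, RingHom.id_apply]
    split_ifs <;> simp

lemma CF_apply (b : Basis (Fin n) k V) (i : ℕ) (t : ExtP k V i ⊗[k] M) (S : Finset (Fin n)) :
    CF b i M t S = if h : S.card = i then TE b i M t ⟨S, h⟩ else 0 := rfl

lemma CF_tmul (b : Basis (Fin n) k V) (i : ℕ) (S : Set.powersetCard (Fin n) i) (m : M)
    (T : Finset (Fin n)) : CF b i M (bE b i S ⊗ₜ m) T = if S.1 = T then m else 0 := by
  rw [CF_apply, TE_tmul]
  by_cases hT : T.card = i
  · rw [dif_pos hT, Finsupp.single_apply]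
    by_cases h : S.1 = T
    · rw [if_pos h, if_pos (Subtype.ext h)]
    · rw [if_neg h, if_neg (fun h' => h (congrArg Subtype.val h'))]
  · rw [dif_neg hT, if_neg]
    intro h
    apply hT
    rw [← h]
    exact S.2

lemma kos_tmul [CharP k 2] (b : Basis (Fin n) k V) (μ : V →ₗ[k] M →ₗ[k] N) (i : ℕ)
    (S : Set.powersetCard (Fin n) (i + 1)) (m : M) (T : Finset (Fin n)) :
    CF b i N (kos μ i (bE b (i + 1) S ⊗ₜ m)) T
      = ∑ l ∈ S.1, if S.1.erase l = T then μ (b l) m else 0 := by
  classical
  set g := S.1.orderEmbOfFin S.2 with hg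
  have hgS : ∀ j, g j ∈ S.1 := fun j => Finset.orderEmbOfFin_mem _ _ _
  have hcard : ∀ j, (S.1.erase (g j)).card = i := by
    intro j
    rw [card_erase_of_mem (hgS j), S.2]; rfl
  have h1 : kos μ i (bE b (i + 1) S ⊗ₜ m)
      = ∑ j : Fin (i + 1), bE b i ⟨S.1.erase (g j), hcard j⟩ ⊗ₜ[k] μ (b (g j)) m := by
    rw [bE_apply, kos_apply]
    refine sum_congr rfl (fun j _ => ?_)
    have h2 : wedge k V i (j.removeNth (b ∘ g)) = bE b i ⟨S.1.erase (g j), hcard j⟩ := by
      have h3 : j.removeNth (b ∘ g) = b ∘ (g ∘ j.succAbove) := by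
        funext a; rfl
      rw [h3]
      apply wedge_of_inj
      · exact g.injective.comp Fin.succAbove_right_injective
      · ext x
        simp only [mem_image, mem_univ, true_and, Function.comp_apply, mem_erase]
        constructor
        · rintro ⟨a, rfl⟩
          exact ⟨fun h => Fin.succAbove_ne j a (g.injective h), hgS _⟩
        · rintro ⟨hx, hxS⟩
          have hx' : x ∈ Set.range g := by
            rw [hg, Finset.range_orderEmbOfFin]; exact hxS
          obtain ⟨a, rfl⟩ := hx'
          have haj : a ≠ j := fun h => hx (by rw [h])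
          obtain ⟨c, hc⟩ := Fin.exists_succAbove_eq haj
          exact ⟨c, by rw [hc]⟩
    rw [h2]
    rcases Int.even_or_odd j with he | ho
    all_goals
      rcases neg_one_pow_eq_or ℤ (j : ℕ) with h | h
      · rw [h, one_smul]; rfl
      · rw [h, neg_smul, one_smul]
        exact neg_eq_mod (k := k) _
  rw [h1, map_sum, Finset.sum_apply]
  simp only [CF_tmul]
  -- reindex
  have h4 : S.1 = univ.map g.toEmbedding := by
    ext x
    simp only [mem_map, mem_univ, true_and]
    constructor
    · intro hx
      have hx' : x ∈ Set.range g := by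
        rw [hg, Finset.range_orderEmbOfFin]; exact hx
      obtain ⟨a, ha⟩ := hx'
      exact ⟨a, ha⟩
    · rintro ⟨a, rfl⟩
      exact hgS a
  have h5 : ∑ l ∈ S.1, (if S.1.erase l = T then μ (b l) m else 0)
      = ∑ l ∈ univ.map g.toEmbedding, (if S.1.erase l = T then μ (b l) m else 0) := by
    rw [← h4]
  rw [h5, sum_map]
  rfl

/-- The differential in coordinates. -/
lemma CF_kos [CharP k 2] (b : Basis (Fin n) k V) (μ : V →ₗ[k] M →ₗ[k] N) (i : ℕ)
    (t : ExtP k V (i + 1) ⊗[k] M) (T : Finset (Fin n)) :
    CF b i N (kos μ i t) T = ∑ j ∈ univ \ T, μ (b j) (CF b (i + 1) M t (insert j T)) := by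
  classical
  -- both sides are linear
  let A : ExtP k V (i + 1) ⊗[k] M →ₗ[k] N := (LinearMap.proj T).comp ((CF b i N).comp (kos μ i))
  let B : ExtP k V (i + 1) ⊗[k] M →ₗ[k] N :=
    ∑ j ∈ univ \ T, (μ (b j)).comp ((LinearMap.proj (insert j T)).comp (CF b (i + 1) M))
  have hAB : A = B := by
    apply TensorProduct.ext
    apply (bE b (i + 1)).ext
    intro S
    ext m
    change CF b i N (kos μ i (bE b (i + 1) S ⊗ₜ m)) T = B (bE b (i + 1) S ⊗ₜ m)
    rw [kos_tmul]
    have hB : B (bE b (i + 1) S ⊗ₜ m) = ∑ j ∈ univ \ T, if S.1 = insert j T then μ (b j) m else 0 := by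
      simp only [B, LinearMap.sum_apply, LinearMap.comp_apply, LinearMap.proj_apply, CF_tmul]
      refine sum_congr rfl (fun j _ => ?_)
      split_ifs
      · rfl
      · rw [map_zero]
    rw [hB, ← sum_filter, ← sum_filter]
    apply sum_congr _ (fun _ _ => rfl)
    ext l
    simp only [mem_filter, mem_sdiff, mem_univ, true_and]
    constructor
    · rintro ⟨h1, h2⟩
      rw [← h2]
      exact ⟨notMem_erase l _, (insert_erase h1).symm⟩
    · rintro ⟨h1, h2⟩
      rw [h2]
      exact ⟨mem_insert_self _ _, erase_insert h1⟩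
  have := LinearMap.congr_fun hAB t
  simp only [A, B, LinearMap.sum_apply, LinearMap.comp_apply, LinearMap.proj_apply] at this
  exact this

lemma CF_inj (b : Basis (Fin n) k V) (i : ℕ) {t : ExtP k V i ⊗[k] M} (h : CF b i M t = 0) :
    t = 0 := by
  apply (TE b i M).injective
  rw [map_zero]
  ext S
  have := congrFun h S.1
  rw [CF_apply, dif_pos (show S.1.card = i from S.2)] at this
  exact this

lemma CF_surj (b : Basis (Fin n) k V) (i : ℕ) (z : Finset (Fin n) → M)
    (hz : ∀ S, S.card ≠ i → z S = 0) : ∃ t, CF b i M t = z := by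
  classical
  refine ⟨(TE b i M).symm (Finsupp.equivFunOnFinite.symm (fun S => z S.1)), ?_⟩
  funext S
  rw [CF_apply]
  split_ifs with h
  · rw [LinearEquiv.apply_symm_apply]
    rfl
  · exact (hz S h).symm

end general

end Pool.Agent.GrC
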