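import Mathlib

/-!
The chain groups of Koszul cohomology and the Koszul differential.
-/

set_option autoImplicit false

namespace Pool.Agent.GrS

open TensorProduct

section Koszul

/-- `⋀^i V ⊗ M`. -/
def KC (k V M : Type*) [Field k] [AddCommGroup V] [Module k V] [AddCommGroup M] [Module k M]
    (i : ℕ) : Type _ := ↥(⋀[k]^i V) ⊗[k] M

variable {k V M N : Type*} [Field k] [AddCommGroup V] [Module k V] [AddCommGroup M] [Module k M]
  [AddCommGroup N] [Module k N]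

noncomputable instance (i : ℕ) : AddCommGroup (KC k V M i) :=
  inferInstanceAs (AddCommGroup (↥(⋀[k]^i V) ⊗[k] M))

noncomputable instance (i : ℕ) : Module k (KC k V M i) :=
  inferInstanceAs (Module k (↥(⋀[k]^i V) ⊗[k] M))

/-- `(v₁ ∧ ⋯ ∧ vᵢ) ⊗ m`. -/
def wt (k : Type*) {V M : Type*} [Field k] [AddCommGroup V] [Module k V] [AddCommGroup M]
    [Module k M] {i : ℕ} (v : Fin i → V) (m : M) : KC k V M i :=
  exteriorPower.ιMulti k i v ⊗ₜ[k] m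

/-- `d` is the Koszul differential `⋀^(i+1) V ⊗ M → ⋀^i V ⊗ N` of the multiplication
`μ : V × M → N`, i.e. `d ((v₀ ∧ ⋯ ∧ vᵢ) ⊗ m) = ∑ (-1)^j (v₀ ∧ ⋯ v̂ⱼ ⋯ ∧ vᵢ) ⊗ μ (vⱼ, m)`. -/
def IsKos (μ : V →ₗ[k] M →ₗ[k] N) (i : ℕ) (d : KC k V M (i + 1) →ₗ[k] KC k V N i) : Prop :=
  ∀ (v : Fin (i + 1) → V) (m : M),
    d (wt k v m) = ∑ j : Fin (i + 1), (-1 : ℤ) ^ (j : ℕ) • wt k (j.removeNth v) (μ (v j) m)

end Koszul

end Pool.Agent.GrS
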