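import Mathlib
import Pool.Agent.GrC.KosDef
import Pool.Agent.GrC.Defs

/-!
Existence and uniqueness of the Koszul differential.
-/

set_option autoImplicit false

namespace Pool.Agent.GrS

open TensorProduct

variable {k V M N : Type*} [Field k] [AddCommGroup V] [Module k V] [AddCommGroup M] [Module k M]
  [AddCommGroup N] [Module k N]

/-- The differential of the proof files, on the chain groups of `KosDef`. -/
noncomputable def kosOld (μ : V →ₗ[k] M →ₗ[k] N) (i : ℕ) : KC k V M (i + 1) →ₗ[k] KC k V N i :=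
  GrC.kos μ i

lemma isKos_old (μ : V →ₗ[k] M →ₗ[k] N) (i : ℕ) : IsKos μ i (kosOld μ i) := by
  intro v m
  exact GrC.kos_apply μ i v m

lemma hom_ext {i : ℕ} {d e : KC k V M i →ₗ[k] N} (h : ∀ v m, d (wt k v m) = e (wt k v m)) :
    d = e := by
  apply TensorProduct.ext
  apply exteriorPower.linearMap_ext
  ext v
  exact h v _

theorem existsUnique_kos (μ : V →ₗ[k] M →ₗ[k] N) (i : ℕ) : ∃! d, IsKos μ i d := by
  refine ⟨kosOld μ i, isKos_old μ i, ?_⟩
  intro e he
  apply hom_ext
  intro v m
  rw [he v m, isKos_old μ i v m]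

end Pool.Agent.GrS
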