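import Mathlib
import Pool.Agent.GrC.KosEx

/-!
Smooth projective curves through their function fields, the spaces of regular `q`-differentials,
and Koszul cohomology.

A smooth projective irreducible curve `X` over an algebraically closed field `k` is given by its
function field `F`, presented as a finite separable extension of `k(t)` (`RatFunc k`); every such
curve has such a presentation, and every such extension is the function field of exactly one such
curve.  The points of `X` where `t` is finite are the maximal ideals of the integral closure of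
`k[t]` in `F`, the points over `t = ∞` are the maximal ideals of the integral closure of the ring
`regInf` of rational functions regular at `t = ∞`.

A differential `f dt` is regular at the points with `t` finite iff `Tr (f * a)` is in `k[t]` for all
`a` in `F` integral over `k[t]` (the codifferent), and at the points over `∞` iff
`Tr (t ^ 2 * f * a)` is in `regInf` for all `a` in `F` integral over `regInf` (because
`dt = - t ^ 2 d(1/t)`).  So `omFin` and `omInf` are the two charts of the canonical bundle `ω_X`;
the regular `q`-differentials of a chart are spanned by the products of `q` elements of the chart,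
and `HK k F q = H⁰(X, ω_X ^ q)`.
-/

set_option autoImplicit false

namespace Pool.Agent.GrS

open Polynomial

/-- The Koszul differential `⋀^(i+1) V ⊗ M → ⋀^i V ⊗ N` of a multiplication `V × M → N`. -/
noncomputable def kos {k V M N : Type*} [Field k] [AddCommGroup V] [Module k V] [AddCommGroup M]
    [Module k M] [AddCommGroup N] [Module k N] (μ : V →ₗ[k] M →ₗ[k] N) (i : ℕ) :
    KC k V M (i + 1) →ₗ[k] KC k V N i :=
  (existsUnique_kos μ i).choose

/-- The dimension of the homology `ker g / im f` of `A → B → C`. -/
noncomputable def homDim {k A B C : Type*} [Field k] [AddCommGroup A] [Module k A]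
    [AddCommGroup B] [Module k B] [AddCommGroup C] [Module k C] (f : A →ₗ[k] B) (g : B →ₗ[k] C) :
    ℕ :=
  Module.finrank k (↥(LinearMap.ker g) ⧸ (LinearMap.range f).submoduleOf (LinearMap.ker g))

/-- The dimension of the homology in the middle of
`⋀^(i+2) V ⊗ M → ⋀^(i+1) V ⊗ N → ⋀^i V ⊗ P`. -/
noncomputable def koszulDim {k V M N P : Type*} [Field k] [AddCommGroup V] [Module k V]
    [AddCommGroup M] [Module k M] [AddCommGroup N] [Module k N] [AddCommGroup P] [Module k P]
    (μ : V →ₗ[k] M →ₗ[k] N) (ν : V →ₗ[k] N →ₗ[k] P) (i : ℕ) : ℕ :=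
  homDim (kos μ (i + 1)) (kos ν i)

section Curve

/-- Rational functions regular at infinity: the degree of the numerator is at most the degree of
the denominator. -/
noncomputable def regInf (k : Type*) [Field k] : Subalgebra k (RatFunc k) where
  carrier := {f | f.intDegree ≤ 0}
  mul_mem' := by
    intro a b ha hb
    by_cases ha0 : a = 0
    · simp [ha0]
    · by_cases hb0 : b = 0
      · simp [hb0]
      · simp only [Set.mem_ofPred_eq] at ha hb ⊢
        rw [RatFunc.intDegree_mul ha0 hb0]
        omega
  add_mem' := by
    intro a b ha hb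
    simp only [Set.mem_ofPred_eq] at ha hb ⊢
    by_cases hb0 : b = 0
    · simpa [hb0] using ha
    · by_cases hab : a + b = 0
      · simp [hab]
      · exact (RatFunc.intDegree_add_le hb0 hab).trans (max_le ha hb)
  algebraMap_mem' := by
    intro r
    simp [RatFunc.algebraMap_eq_C]

variable (k F : Type*) [Field k] [Field F] [Algebra k F] [Algebra k[X] F] [Algebra (RatFunc k) F]

/-- The `f` for which `f dt` is regular at the points where `t` is finite. -/
def omFin : Set F :=
  {f | ∀ a, IsIntegral k[X] a →
    Algebra.trace (RatFunc k) F (f * a) ∈ (algebraMap k[X] (RatFunc k)).range}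

/-- The `f` for which `f dt` is regular at the points over `t = ∞`. -/
def omInf : Set F :=
  {f | ∀ a, IsIntegral (regInf k) a →
    RatFunc.X ^ 2 * Algebra.trace (RatFunc k) F (f * a) ∈ regInf k}

/-- `H⁰(X, ω_X ^ q)`: the `f` for which `f (dt)^q` is a regular `q`-differential. -/
def HK (q : ℕ) : Submodule k F :=
  Submodule.span k (omFin k F) ^ q ⊓ Submodule.span k (omInf k F) ^ q

/-- The genus `dim H⁰(X, ω_X)`. -/
noncomputable def genus : ℕ := Module.finrank k (HK k F 1)

variable {k F} in
lemma HK_mul {p q : ℕ} {f g : F} (hf : f ∈ HK k F p) (hg : g ∈ HK k F q) :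
    f * g ∈ HK k F (p + q) := by
  refine ⟨?_, ?_⟩
  · change f * g ∈ Submodule.span k (omFin k F) ^ (p + q)
    rw [pow_add]
    exact Submodule.mul_mem_mul hf.1 hg.1
  · change f * g ∈ Submodule.span k (omInf k F) ^ (p + q)
    rw [pow_add]
    exact Submodule.mul_mem_mul hf.2 hg.2

/-- The multiplication `H⁰(ω) × H⁰(ω^q) → H⁰(ω^(q+1))`. -/
noncomputable def mulHK (q : ℕ) : HK k F 1 →ₗ[k] HK k F q →ₗ[k] HK k F (q + 1) :=
  LinearMap.mk₂ k (fun f g => ⟨f.1 * g.1, by rw [add_comm]; exact HK_mul f.2 g.2⟩)
    (fun f f' g => Subtype.ext (add_mul f.1 f'.1 g.1))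
    (fun c f g => Subtype.ext (smul_mul_assoc c f.1 g.1))
    (fun f g g' => Subtype.ext (mul_add f.1 g.1 g'.1))
    (fun c f g => Subtype.ext (mul_smul_comm c f.1 g.1))

/-- `dim K_{i+1, q+1}(X, ω_X)`: the dimension of the homology in the middle of
`⋀^(i+2) H⁰(ω) ⊗ H⁰(ω^q) → ⋀^(i+1) H⁰(ω) ⊗ H⁰(ω^(q+1)) → ⋀^i H⁰(ω) ⊗ H⁰(ω^(q+2))`. -/
noncomputable def kDim (i q : ℕ) : ℕ := koszulDim (mulHK k F q) (mulHK k F (q + 1)) i

end Curve

end Pool.Agent.GrS
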