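import Mathlib
import Pool.Agent.GrC.Stmt
import Pool.Agent.GrC.Curve

/-!
The two descriptions of `H⁰(X, ω_X ^ q)` agree.
-/

set_option autoImplicit false

namespace Pool.Agent.GrS

open Polynomial FractionalIdeal
open scoped nonZeroDivisors

variable {k F : Type*} [Field k] [Field F] [Algebra k F] [Algebra k[X] F] [Algebra (RatFunc k) F]
  [IsScalarTower k[X] (RatFunc k) F] [IsScalarTower k (RatFunc k) F] [IsScalarTower k k[X] F]
  [FiniteDimensional (RatFunc k) F] [Algebra.IsSeparable (RatFunc k) F]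

lemma span_omFin : Submodule.span k (omFin k F) = (GrC.Om0 k F).restrictScalars k := by
  have h : omFin k F = ((GrC.Om0 k F).restrictScalars k : Set F) := by
    ext f
    change _ ↔ f ∈ GrC.Om0 k F
    rw [← GrC.coe_W1, mem_coe, GrC.mem_W1_iff]
    constructor
    · intro h a ha
      obtain ⟨p, hp⟩ := h a ha
      exact ⟨p, hp.symm⟩
    · intro h a ha
      obtain ⟨p, hp⟩ := h a ha
      exact ⟨p, hp.symm⟩
  rw [h, Submodule.span_eq]

lemma span_omInf : Submodule.span k (omInf k F) = (GrC.OmInf k F).restrictScalars k := by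
  have h : omInf k F = ((GrC.OmInf k F).restrictScalars k : Set F) := by
    ext f
    change _ ↔ f ∈ GrC.OmInf k F
    rw [← GrC.coe_W2, mem_coe, GrC.mem_W2, mem_dual GrC.one_neInf]
    have hTr : ∀ a : F, Algebra.trace (RatFunc k) F ((GrC.tF k F) ^ 2 * f * a)
        = RatFunc.X ^ 2 * Algebra.trace (RatFunc k) F (f * a) := by
      intro a
      have : (GrC.tF k F) ^ 2 * f * a = (RatFunc.X ^ 2 : RatFunc k) • (f * a) := by
        rw [Algebra.smul_def, map_pow, mul_assoc]
      rw [this, map_smul, smul_eq_mul]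
    constructor
    · intro h a ha
      rw [mem_one_iff] at ha
      obtain ⟨a', rfl⟩ := ha
      have h1 := h a' a'.2
      refine ⟨⟨_, h1⟩, ?_⟩
      rw [Algebra.traceForm_apply]
      change _ = Algebra.trace (RatFunc k) F ((GrC.tF k F) ^ 2 * f * (a' : F))
      rw [hTr]
      rfl
    · intro h a ha
      obtain ⟨p, hp⟩ := h a (by rw [mem_one_iff]; exact ⟨⟨a, ha⟩, rfl⟩)
      rw [Algebra.traceForm_apply, hTr] at hp
      rw [← hp]
      exact p.2
  rw [h, Submodule.span_eq]

lemma HK_funext [IsAlgClosed k] : HK k F = GrC.HK k F := by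
  funext q
  rcases Nat.eq_zero_or_pos q with rfl | hq
  · ext f
    constructor
    · rintro ⟨h1, h2⟩
      have h1' : f ∈ (1 : Submodule k F) := h1
      obtain ⟨c, rfl⟩ := Submodule.mem_one.mp h1'
      refine ⟨?_, ?_⟩
      · change algebraMap k F c ∈ (1 : Submodule (GrC.O0 k F) F)
        rw [Submodule.mem_one]
        refine ⟨⟨algebraMap k F c, ?_⟩, rfl⟩
        rw [IsScalarTower.algebraMap_apply k k[X] F]
        exact isIntegral_algebraMap
      · change algebraMap k F c ∈ (1 : Submodule (GrC.Oinf k F) F)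
        rw [Submodule.mem_one]
        refine ⟨⟨algebraMap k F c, ?_⟩, rfl⟩
        have : algebraMap k F c = algebraMap (GrC.Ainf k) F (algebraMap k (GrC.Ainf k) c) := by
          rw [IsScalarTower.algebraMap_apply k (RatFunc k) F]
          rfl
        rw [this]
        exact isIntegral_algebraMap
    · rintro ⟨h1, h2⟩
      have h1' : f ∈ (1 : Submodule (GrC.O0 k F) F) := h1
      have h2' : f ∈ (1 : Submodule (GrC.Oinf k F) F) := h2
      obtain ⟨a, ha⟩ := Submodule.mem_one.mp h1'
      obtain ⟨b, hb⟩ := Submodule.mem_one.mp h2'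
      have h3 : f ∈ GrC.O0 k F := by rw [← ha]; exact a.2
      have h4 : f ∈ GrC.Oinf k F := by rw [← hb]; exact b.2
      obtain ⟨c, rfl⟩ := GrC.const_of_mem h3 h4
      exact ⟨Submodule.mem_one.mpr ⟨c, rfl⟩, Submodule.mem_one.mpr ⟨c, rfl⟩⟩
  · rw [HK, GrC.HK, span_omFin, span_omInf, Submodule.restrictScalars_pow (by omega),
      Submodule.restrictScalars_pow (by omega)]

end Pool.Agent.GrS
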