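import Mathlib
import Pool.Agent.GrC.Link
import Pool.Agent.GrC.Curve
import Pool.Agent.GrC.StmtLink

/-!
The parity of the dimension of the middle Koszul cohomology group of a canonical curve of odd genus
in characteristic two.
-/

set_option autoImplicit false

namespace Pool.Agent.GrC

open Finset Module TensorProduct Polynomial

section link

open GrS

variable {k F : Type*} [Field k] [Field F] [Algebra k F] [Algebra k[X] F] [Algebra (RatFunc k) F]

variable {n : ℕ} (b : Basis (Fin n) k (GrS.HK k F 1))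

/-- Coordinates with values in the function field. -/
noncomputable def CFF (i q : ℕ) :
    KC k (GrS.HK k F 1) (GrS.HK k F q) i →ₗ[k] (Finset (Fin n) → F) :=
  ((GrS.HK k F q).subtype.compLeft (Finset (Fin n))).comp (CF b i (GrS.HK k F q))

lemma CFF_apply (i q : ℕ) (t : KC k (GrS.HK k F 1) (GrS.HK k F q) i) (S : Finset (Fin n)) :
    CFF b i q t S = ((CF b i (GrS.HK k F q) t S : GrS.HK k F q) : F) := rfl

lemma CFF_inj (i q : ℕ) : Function.Injective (CFF b i q) := by
  rw [injective_iff_map_eq_zero]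
  intro t ht
  apply CF_inj b i
  funext S
  apply Subtype.ext
  exact congrFun ht S

lemma CFF_mem (i q : ℕ) (t : KC k (GrS.HK k F 1) (GrS.HK k F q) i) :
    CFF b i q t ∈ Ch (GrS.HK k F) (Fin n) i q := by
  refine ⟨fun S => (CF b i (GrS.HK k F q) t S).2, fun S hS => ?_⟩
  rw [CFF_apply, CF_apply, dif_neg hS]
  rfl

lemma CFF_surj (i q : ℕ) {z : Finset (Fin n) → F} (hz : z ∈ Ch (GrS.HK k F) (Fin n) i q) :
    ∃ t, CFF b i q t = z := by
  obtain ⟨t, ht⟩ := CF_surj b i (M := GrS.HK k F q) (fun S => ⟨z S, hz.1 S⟩)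
    (fun S hS => Subtype.ext (hz.2 S hS))
  refine ⟨t, ?_⟩
  funext S
  change ((CF b i (GrS.HK k F q) t S : GrS.HK k F q) : F) = _
  rw [ht]

lemma kos_eq_old {V M N : Type*} [AddCommGroup V] [Module k V] [AddCommGroup M] [Module k M]
    [AddCommGroup N] [Module k N] (μ : V →ₗ[k] M →ₗ[k] N) (i : ℕ) : GrS.kos μ i = kosOld μ i :=
  (existsUnique_kos μ i).unique (existsUnique_kos μ i).choose_spec.1 (isKos_old μ i)

lemma CFF_kos [CharP k 2] (i q : ℕ) (t : KC k (GrS.HK k F 1) (GrS.HK k F q) (i + 1)) :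
    CFF b i (q + 1) (GrS.kos (GrS.mulHK k F q) i t)
      = ddL k (fun j => (b j : F)) (CFF b (i + 1) q t) := by
  rw [kos_eq_old]
  funext T
  change ((CF b i (GrS.HK k F (q + 1)) (kos (GrS.mulHK k F q) i t) T : GrS.HK k F (q + 1)) : F)
    = _
  rw [CF_kos, ddL_apply, dd, dJ]
  rw [Submodule.coe_sum]
  rfl

/-- The cycles in coordinates. -/
noncomputable def cycEquiv [CharP k 2] (i q : ℕ) :
    ↥(LinearMap.ker (GrS.kos (GrS.mulHK k F q) i)) ≃ₗ[k]
      ↥(Zc (GrS.HK k F) (fun j => (b j : F)) (i + 1) q) :=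
  LinearEquiv.ofBijective
    (((CFF b (i + 1) q).comp
      (LinearMap.ker (GrS.kos (GrS.mulHK k F q) i)).subtype).codRestrict _
      (fun t => by
        refine ⟨CFF_mem b (i + 1) q _, ?_⟩
        change ddL k (fun j => (b j : F)) (CFF b (i + 1) q t.1) = 0
        rw [← CFF_kos, LinearMap.mem_ker.mp t.2, map_zero]))
    ⟨by
      intro t u htu
      apply Subtype.ext
      exact CFF_inj b (i + 1) q (congrArg Subtype.val htu), by
      intro z
      obtain ⟨t, ht⟩ := CFF_surj b (i + 1) q z.2.1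
      refine ⟨⟨t, ?_⟩, Subtype.ext ht⟩
      rw [LinearMap.mem_ker]
      apply CFF_inj b i (q + 1)
      rw [CFF_kos, map_zero, ht]
      exact LinearMap.mem_ker.mp z.2.2⟩

theorem kDim_eq [CharP k 2] (i : ℕ) :
    kDim k F i 1 =
      finrank k (↥(Zc (GrS.HK k F) (fun j => (b j : F)) (i + 1) 2) ⧸
        (Bc (GrS.HK k F) (fun j => (b j : F)) (i + 1) 1).submoduleOf
          (Zc (GrS.HK k F) (fun j => (b j : F)) (i + 1) 2)) := by
  rw [kDim, koszulDim, homDim]
  apply LinearEquiv.finrank_eq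
  refine Submodule.Quotient.equiv _ _ (cycEquiv b i (1 + 1)) ?_
  ext z
  constructor
  · rintro ⟨t, ht, rfl⟩
    obtain ⟨u, hu⟩ := ht
    refine ⟨CFF b (i + 1 + 1) 1 u, CFF_mem b _ _ _, ?_⟩
    rw [← CFF_kos, hu]
    rfl
  · rintro ⟨w, hw, hwz⟩
    obtain ⟨u, hu⟩ := CFF_surj b (i + 1 + 1) 1 hw
    obtain ⟨t, rfl⟩ := (cycEquiv b i (1 + 1)).surjective z
    refine ⟨t, ⟨u, ?_⟩, rfl⟩
    apply CFF_inj b (i + 1) (1 + 1)
    rw [CFF_kos, hu]
    exact hwz

end link

section numeric

lemma choose_succ_even (t : ℕ) : Even ((2 * (t + 1)).choose (t + 1)) := by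
  have : (2 * (t + 1)).choose (t + 1) = 2 * (2 * t + 1).choose t := by
    have := Nat.succ_mul_centralBinom_succ t
    have h2 : (2 * (t + 1)) = (2 * t + 1) + 1 := by ring
    rw [h2, Nat.choose_succ_succ]
    have h3 : (2 * t + 1).choose (t + 1) = (2 * t + 1).choose t := by
      rw [← Nat.choose_symm_of_eq_add (show 2 * t + 1 = t + (t + 1) by ring)]
    rw [h3]; ring
  rw [this]
  exact even_two_mul _

/-- The numerical parity. -/
lemma parity (s r d : ℕ) (h : d + 2 * r + (2 * s + 3).choose s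
    = (2 * s + 3) * (2 * s + 3).choose (s + 1)) :
    d ≡ (2 * s + 5).choose (s + 2) [MOD 2] := by
  have h1 : (2 * s + 5).choose (s + 2) = (2 * s + 4).choose (s + 1) + (2 * s + 4).choose (s + 2) :=
    Nat.choose_succ_succ _ _
  have h2 : Even ((2 * s + 4).choose (s + 2)) := choose_succ_even (s + 1)
  have h3 : (2 * s + 4).choose (s + 1) = (2 * s + 3).choose s + (2 * s + 3).choose (s + 1) :=
    Nat.choose_succ_succ _ _
  obtain ⟨c, hc⟩ := h2
  rw [h1, h3, hc]
  have h4 : (2 * s + 3) * (2 * s + 3).choose (s + 1)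
      = 2 * ((s + 1) * (2 * s + 3).choose (s + 1)) + (2 * s + 3).choose (s + 1) := by ring
  unfold Nat.ModEq
  omega

/-- `C(2m+1, m)` is odd for `m = 2^n - 1`. -/
lemma choose_odd (n : ℕ) : ((2 * (2 ^ n - 1) + 1).choose (2 ^ n - 1)) % 2 = 1 := by
  have hp : 2 * (2 ^ n - 1) + 1 = 2 ^ (n + 1) - 1 := by
    have : 1 ≤ 2 ^ n := Nat.one_le_two_pow
    rw [pow_succ]; omega
  rw [hp]
  -- all `C(2^(n+1) - 1, j)` are odd
  have key : ∀ N : ℕ, ∀ j, j ≤ 2 ^ N - 1 → (2 ^ N - 1).choose j % 2 = 1 := by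
    intro N j
    induction j with
    | zero => intro _; simp
    | succ j ih =>
      intro hj
      have h1 := ih (by omega)
      have hpos : 1 ≤ 2 ^ N := Nat.one_le_two_pow
      have h2 : (2 ^ N).choose (j + 1) = (2 ^ N - 1).choose j + (2 ^ N - 1).choose (j + 1) := by
        have := Nat.choose_succ_succ (2 ^ N - 1) j
        have e : Nat.succ (2 ^ N - 1) = 2 ^ N := by omega
        rw [e] at this
        exact this
      have h3 : 2 ∣ (2 ^ N).choose (j + 1) :=
        Nat.Prime.dvd_choose_pow Nat.prime_two (by omega) (by omega)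
      omega
  apply key
  rw [pow_succ]
  omega

end numeric

section main

variable {k F : Type*} [Field k] [Field F] [Algebra k F] [Algebra k[X] F] [Algebra (RatFunc k) F]
  [IsScalarTower k[X] (RatFunc k) F] [IsScalarTower k (RatFunc k) F] [IsScalarTower k k[X] F]
  [FiniteDimensional (RatFunc k) F] [Algebra.IsSeparable (RatFunc k) F]

/-- A basis containing two given vectors. -/
lemma exists_basis_two {V : Type*} [AddCommGroup V] [Module k V] {N : ℕ} (hN : finrank k V = N)
    (hpos : 0 < N) {x y : V} (hli : LinearIndependent k ![x, y]) :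
    ∃ (b : Basis (Fin N) k V) (i j : Fin N), i ≠ j ∧ b i = x ∧ b j = y := by
  have hfd : FiniteDimensional k V := FiniteDimensional.of_finrank_pos (by omega)
  have hs : LinearIndepOn k id (Set.range ![x, y]) := hli.linearIndepOn_id
  let B := Basis.extend hs
  have : Fintype (hs.extend (Set.subset_univ _)) := FiniteDimensional.fintypeBasisIndex B
  have hcard : Fintype.card (hs.extend (Set.subset_univ _)) = N := by
    rw [← hN, finrank_eq_card_basis B]
  let eq := Fintype.equivFinOfCardEq hcard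
  have hx : x ∈ hs.extend (Set.subset_univ _) := Basis.subset_extend hs ⟨0, rfl⟩
  have hy : y ∈ hs.extend (Set.subset_univ _) := Basis.subset_extend hs ⟨1, rfl⟩
  refine ⟨B.reindex eq, eq ⟨x, hx⟩, eq ⟨y, hy⟩, ?_, ?_, ?_⟩
  · intro h
    have h1 := eq.injective h
    have h2 : x = y := congrArg Subtype.val h1
    have h3 := hli.injective (a₁ := 0) (a₂ := 1) (by simpa using h2)
    simp at h3
  · rw [Basis.reindex_apply, Equiv.symm_apply_apply]
    exact Basis.extend_apply_self hs _
  · rw [Basis.reindex_apply, Equiv.symm_apply_apply]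
    exact Basis.extend_apply_self hs _

theorem main_parity [IsAlgClosed k] [CharP k 2] (s : ℕ) (hg : GrS.genus k F = 2 * s + 5) :
    GrS.kDim k F s 1 ≡ (2 * s + 5).choose (s + 2) [MOD 2] := by
  have hHK : GrS.HK k F = HK k F := GrS.HK_funext
  have hg' : genus k F = 2 * s + 5 := by
    rw [← hg, genus, GrS.genus, hHK]
  obtain ⟨x, y, hli, ψ, hP⟩ := exists_pencil (k := k) (F := F) (by omega)
  rw [← hHK] at hP
  have : CharP F 2 := charP_of_injective_algebraMap (algebraMap k F).injective 2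
  have hgen : finrank k (GrS.HK k F 1) = 2 * s + 5 := hg
  have : FiniteDimensional k (GrS.HK k F 1) := FiniteDimensional.of_finrank_pos (by omega)
  have hli' : LinearIndependent k ![(⟨x, hP.x_mem⟩ : GrS.HK k F 1), ⟨y, hP.y_mem⟩] := by
    apply LinearIndependent.of_comp (GrS.HK k F 1).subtype
    convert hli using 1
    funext a
    fin_cases a <;> rfl
  obtain ⟨b, i, j, hij, hbi, hbj⟩ := exists_basis_two hgen (by omega) hli'
  have hcard : (JJ i j).card = 2 * s + 3 := by
    rw [JJ, card_erase_of_mem, card_erase_of_mem (mem_univ _), card_univ, Fintype.card_fin]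
    · omega
    · exact mem_erase.mpr ⟨hij.symm, mem_univ _⟩
  obtain ⟨r, hr⟩ := finrank_homology hP hij (e := fun l => (b l : F))
    (by simp only [hbi]) (by simp only [hbj]) (fun l => (b l).2)
    (b.linearIndependent.map' (GrS.HK k F 1).subtype (Submodule.ker_subtype _))
    (fun u hu => by
      have h1 : (⟨u, hu⟩ : GrS.HK k F 1) ∈ Submodule.span k (Set.range b) := b.mem_span _
      have h2 := Submodule.mem_map_of_mem (f := (GrS.HK k F 1).subtype) h1
      rw [Submodule.map_span, ← Set.range_comp] at h2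
      exact h2) s hcard
  rw [kDim_eq b s]
  exact parity s r _ hr

end main

end Pool.Agent.GrC
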